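import Mathlib

/-! Double counting over subsets of a finite set. -/

set_option autoImplicit false
open Finset

namespace Pool.Agent.K3h27.OP

variable {V : Type} [Fintype V] [DecidableEq V]

/-- the subsets of size `k` -/
def P (V : Type) [Fintype V] (k : ℕ) : Finset (Finset V) := (univ : Finset V).powersetCard k

theorem mem_P {k : ℕ} {S : Finset V} : S ∈ P V k ↔ S.card = k := by
  simp [P, mem_powersetCard]

/-- a set of four and two further vertices make a set of six -/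
theorem dc4 (g : Finset V → V → V → ℤ) :
    ∑ T ∈ P V 4, ∑ x ∈ Tᶜ, ∑ y ∈ Tᶜ.erase x, g T x y =
      ∑ S ∈ P V 6, ∑ x ∈ S, ∑ y ∈ S.erase x, g ((S.erase x).erase y) x y := by
  rw [sum_sigma', sum_sigma', sum_sigma', sum_sigma']
  refine sum_bij' (fun p _ => ⟨⟨insert p.1.2 (insert p.2 p.1.1), p.1.2⟩, p.2⟩)
    (fun p _ => ⟨⟨(p.1.1.erase p.1.2).erase p.2, p.1.2⟩, p.2⟩) ?_ ?_ ?_ ?_ ?_
  · rintro ⟨⟨T, x⟩, y⟩ h
    simp only [mem_sigma, mem_P, mem_compl, mem_erase, ne_eq] at h ⊢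
    obtain ⟨⟨hT, hx⟩, hyx, hy⟩ := h
    refine ⟨⟨?_, by simp⟩, hyx, by simp⟩
    rw [card_insert_of_notMem, card_insert_of_notMem hy, hT]
    rw [mem_insert]
    rintro (h | h)
    · exact hyx h.symm
    · exact hx h
  · rintro ⟨⟨S, x⟩, y⟩ h
    simp only [mem_sigma, mem_P, mem_compl, mem_erase, ne_eq] at h ⊢
    obtain ⟨⟨hS, hx⟩, hyx, hy⟩ := h
    refine ⟨⟨?_, by simp⟩, hyx, by simp⟩
    rw [card_erase_of_mem (mem_erase.2 ⟨hyx, hy⟩), card_erase_of_mem hx, hS]
  · rintro ⟨⟨T, x⟩, y⟩ h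
    simp only [mem_sigma, mem_P, mem_compl, mem_erase, ne_eq] at h
    obtain ⟨⟨hT, hx⟩, hyx, hy⟩ := h
    have e : ((insert x (insert y T)).erase x).erase y = T := by
      rw [erase_insert, erase_insert hy]
      rw [mem_insert]
      rintro (h | h)
      · exact hyx h.symm
      · exact hx h
    simp only [e]
  · rintro ⟨⟨S, x⟩, y⟩ h
    simp only [mem_sigma, mem_P, mem_compl, mem_erase, ne_eq] at h
    obtain ⟨⟨hS, hx⟩, hyx, hy⟩ := h
    have e : insert x (insert y ((S.erase x).erase y)) = S := by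
      rw [insert_erase (mem_erase.2 ⟨hyx, hy⟩), insert_erase hx]
    simp only [e]
  · rintro ⟨⟨T, x⟩, y⟩ h
    simp only [mem_sigma, mem_P, mem_compl, mem_erase, ne_eq] at h
    obtain ⟨⟨hT, hx⟩, hyx, hy⟩ := h
    have e : ((insert x (insert y T)).erase x).erase y = T := by
      rw [erase_insert, erase_insert hy]
      rw [mem_insert]
      rintro (h | h)
      · exact hyx h.symm
      · exact hx h
    simp only [e]

/-- sets of five in sets of six -/
theorem dc5 (w : Finset V → ℤ) :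
    ∑ S ∈ P V 6, ∑ x ∈ S, w (S.erase x) = ((Fintype.card V : ℤ) - 5) * ∑ R ∈ P V 5, w R := by
  have h1 : ∑ S ∈ P V 6, ∑ x ∈ S, w (S.erase x) = ∑ R ∈ P V 5, ∑ x ∈ Rᶜ, w R := by
    rw [sum_sigma', sum_sigma']
    refine sum_bij' (fun p _ => ⟨p.1.erase p.2, p.2⟩) (fun p _ => ⟨insert p.2 p.1, p.2⟩) ?_ ?_ ?_ ?_ ?_
    · rintro ⟨S, x⟩ h
      simp only [mem_sigma, mem_P, mem_compl] at h ⊢
      exact ⟨by rw [card_erase_of_mem h.2, h.1], by simp⟩
    · rintro ⟨S, x⟩ h
      simp only [mem_sigma, mem_P, mem_compl] at h ⊢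
      exact ⟨by rw [card_insert_of_notMem h.2, h.1], by simp⟩
    · rintro ⟨S, x⟩ h
      simp only [mem_sigma, mem_P, mem_compl] at h
      simp only [insert_erase h.2]
    · rintro ⟨S, x⟩ h
      simp only [mem_sigma, mem_P, mem_compl] at h
      simp only [erase_insert h.2]
    · rintro ⟨S, x⟩ h
      rfl
  rw [h1, mul_sum]
  refine sum_congr rfl fun R hR => ?_
  rw [sum_const, nsmul_eq_mul, card_compl]
  rw [mem_P] at hR
  have : R.card ≤ Fintype.card V := card_le_univ R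
  rw [Nat.cast_sub this, hR]
  norm_num

/-- sets of three in sets of six -/
theorem dc3 (w : Finset V → ℤ) :
    ∑ S ∈ P V 6, ∑ A ∈ S.powersetCard 3, w A =
      (((Fintype.card V - 3).choose 3 : ℕ) : ℤ) * ∑ A ∈ P V 3, w A := by
  have h1 : ∑ S ∈ P V 6, ∑ A ∈ S.powersetCard 3, w A =
      ∑ A ∈ P V 3, ∑ B ∈ Aᶜ.powersetCard 3, w A := by
    rw [sum_sigma', sum_sigma']
    refine sum_bij' (fun p _ => ⟨p.2, p.1 \ p.2⟩) (fun p _ => ⟨p.1 ∪ p.2, p.1⟩) ?_ ?_ ?_ ?_ ?_
    · rintro ⟨S, A⟩ h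
      simp only [mem_sigma, mem_P, mem_powersetCard] at h ⊢
      obtain ⟨hS, hA, hA3⟩ := h
      refine ⟨hA3, ?_, ?_⟩
      · intro x hx
        rw [mem_sdiff] at hx
        exact mem_compl.2 hx.2
      · rw [card_sdiff_of_subset hA, hS, hA3]
    · rintro ⟨A, B⟩ h
      simp only [mem_sigma, mem_P, mem_powersetCard] at h ⊢
      obtain ⟨hA, hB, hB3⟩ := h
      refine ⟨?_, subset_union_left, hA⟩
      rw [card_union_of_disjoint, hA, hB3]
      rw [disjoint_left]
      intro x hx hx'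
      exact (mem_compl.1 (hB hx')) hx
    · rintro ⟨S, A⟩ h
      simp only [mem_sigma, mem_P, mem_powersetCard] at h
      obtain ⟨hS, hA, hA3⟩ := h
      simp only [union_sdiff_of_subset hA]
    · rintro ⟨A, B⟩ h
      simp only [mem_sigma, mem_P, mem_powersetCard] at h
      obtain ⟨hA, hB, hB3⟩ := h
      have : Disjoint A B := by
        rw [disjoint_left]
        intro x hx hx'
        exact (mem_compl.1 (hB hx')) hx
      simp only [union_sdiff_cancel_left this]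
    · rintro ⟨S, A⟩ h
      rfl
  rw [h1, mul_sum]
  refine sum_congr rfl fun A hA => ?_
  rw [sum_const, nsmul_eq_mul, card_powersetCard, card_compl]
  rw [mem_P] at hA
  rw [hA]

/-- two triples with exactly one common vertex span a set of five -/
theorem dc1 (g : Finset V → Finset V → ℤ) :
    ∑ A ∈ P V 3, ∑ B ∈ (P V 3).filter (fun B => (A ∩ B).card = 1), g A B =
      ∑ R ∈ P V 5, ∑ A ∈ R.powersetCard 3, ∑ B ∈ (R.powersetCard 3).filter
        (fun B => (A ∩ B).card = 1), g A B := by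
  rw [sum_sigma', sum_sigma', sum_sigma']
  refine sum_bij' (fun p _ => ⟨⟨p.1 ∪ p.2, p.1⟩, p.2⟩) (fun p _ => ⟨p.1.2, p.2⟩) ?_ ?_ ?_ ?_ ?_
  · rintro ⟨A, B⟩ h
    simp only [mem_sigma, mem_P, mem_powersetCard, mem_filter] at h ⊢
    obtain ⟨hA, hB, h1⟩ := h
    refine ⟨⟨?_, subset_union_left, hA⟩, ⟨subset_union_right, hB⟩, h1⟩
    have := card_union_add_card_inter A B
    omega
  · rintro ⟨⟨R, A⟩, B⟩ h
    simp only [mem_sigma, mem_P, mem_powersetCard, mem_filter] at h ⊢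
    exact ⟨h.1.2.2, h.2.1.2, h.2.2⟩
  · rintro ⟨A, B⟩ h
    rfl
  · rintro ⟨⟨R, A⟩, B⟩ h
    simp only [mem_sigma, mem_P, mem_powersetCard, mem_filter] at h
    obtain ⟨⟨hR, hAR, hA⟩, ⟨hBR, hB⟩, h1⟩ := h
    have e : A ∪ B = R := by
      apply eq_of_subset_of_card_le (union_subset hAR hBR)
      have := card_union_add_card_inter A B
      omega
    simp only [e]
  · rintro ⟨A, B⟩ h
    rfl

end Pool.Agent.K3h27.OP
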