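import Pool.Agent.K3h27.OP.Six

/-! The square of the degrees: pairs of triples with one common vertex in a set of five. -/

set_option autoImplicit false
set_option linter.unusedVariables false
set_option maxHeartbeats 4000000
set_option maxRecDepth 10000
open Finset

namespace Pool.Agent.K3h27.OP

/-- the sum over the pairs of triples with one common vertex -/
def w5f (b0 b1 b2 b3 b4 b5 b6 b7 b8 b9 : ℕ) : ℤ :=
  2 * ((9 * (b0 : ℤ) - 5) * (9 * (b7 : ℤ) - 5) +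
    (9 * (b0 : ℤ) - 5) * (9 * (b8 : ℤ) - 5) +
    (9 * (b0 : ℤ) - 5) * (9 * (b9 : ℤ) - 5) +
    (9 * (b1 : ℤ) - 5) * (9 * (b5 : ℤ) - 5) +
    (9 * (b1 : ℤ) - 5) * (9 * (b6 : ℤ) - 5) +
    (9 * (b1 : ℤ) - 5) * (9 * (b9 : ℤ) - 5) +
    (9 * (b2 : ℤ) - 5) * (9 * (b4 : ℤ) - 5) +
    (9 * (b2 : ℤ) - 5) * (9 * (b6 : ℤ) - 5) +
    (9 * (b2 : ℤ) - 5) * (9 * (b8 : ℤ) - 5) +
    (9 * (b3 : ℤ) - 5) * (9 * (b4 : ℤ) - 5) +
    (9 * (b3 : ℤ) - 5) * (9 * (b5 : ℤ) - 5) +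
    (9 * (b3 : ℤ) - 5) * (9 * (b7 : ℤ) - 5) +
    (9 * (b4 : ℤ) - 5) * (9 * (b9 : ℤ) - 5) +
    (9 * (b5 : ℤ) - 5) * (9 * (b8 : ℤ) - 5) +
    (9 * (b6 : ℤ) - 5) * (9 * (b7 : ℤ) - 5))

theorem pairs5 (g : Finset (Fin 5) → ℤ) :
    ∑ α ∈ (univ : Finset (Fin 5)).powersetCard 3,
      ∑ β ∈ ((univ : Finset (Fin 5)).powersetCard 3).filter (fun β => (α ∩ β).card = 1), g α * g β =
      2 * (g {0, 1, 2} * g {0, 3, 4} +
      g {0, 1, 2} * g {1, 3, 4} +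
      g {0, 1, 2} * g {2, 3, 4} +
      g {0, 1, 3} * g {0, 2, 4} +
      g {0, 1, 3} * g {1, 2, 4} +
      g {0, 1, 3} * g {2, 3, 4} +
      g {0, 2, 3} * g {0, 1, 4} +
      g {0, 2, 3} * g {1, 2, 4} +
      g {0, 2, 3} * g {1, 3, 4} +
      g {1, 2, 3} * g {0, 1, 4} +
      g {1, 2, 3} * g {0, 2, 4} +
      g {1, 2, 3} * g {0, 3, 4} +
      g {0, 1, 4} * g {2, 3, 4} +
      g {0, 2, 4} * g {1, 3, 4} +
      g {1, 2, 4} * g {0, 3, 4}) := by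
  have h0 : (univ : Finset (Fin 5)).powersetCard 3 = {{0, 1, 2}, {0, 1, 3}, {0, 2, 3}, {1, 2, 3}, {0, 1, 4}, {0, 2, 4}, {1, 2, 4}, {0, 3, 4}, {1, 3, 4}, {2, 3, 4}} := by decide
  rw [h0]
  rw [sum_insert (by decide), sum_insert (by decide), sum_insert (by decide), sum_insert (by decide), sum_insert (by decide), sum_insert (by decide), sum_insert (by decide), sum_insert (by decide), sum_insert (by decide), sum_singleton]
  have h1 : (({{0, 1, 2}, {0, 1, 3}, {0, 2, 3}, {1, 2, 3}, {0, 1, 4}, {0, 2, 4}, {1, 2, 4}, {0, 3, 4}, {1, 3, 4}, {2, 3, 4}} : Finset (Finset (Fin 5))).filter (fun β => (({0, 1, 2} : Finset (Fin 5)) ∩ β).card = 1)) = {{0, 3, 4}, {1, 3, 4}, {2, 3, 4}} := by decide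
  have h2 : (({{0, 1, 2}, {0, 1, 3}, {0, 2, 3}, {1, 2, 3}, {0, 1, 4}, {0, 2, 4}, {1, 2, 4}, {0, 3, 4}, {1, 3, 4}, {2, 3, 4}} : Finset (Finset (Fin 5))).filter (fun β => (({0, 1, 3} : Finset (Fin 5)) ∩ β).card = 1)) = {{0, 2, 4}, {1, 2, 4}, {2, 3, 4}} := by decide
  have h3 : (({{0, 1, 2}, {0, 1, 3}, {0, 2, 3}, {1, 2, 3}, {0, 1, 4}, {0, 2, 4}, {1, 2, 4}, {0, 3, 4}, {1, 3, 4}, {2, 3, 4}} : Finset (Finset (Fin 5))).filter (fun β => (({0, 2, 3} : Finset (Fin 5)) ∩ β).card = 1)) = {{0, 1, 4}, {1, 2, 4}, {1, 3, 4}} := by decide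
  have h4 : (({{0, 1, 2}, {0, 1, 3}, {0, 2, 3}, {1, 2, 3}, {0, 1, 4}, {0, 2, 4}, {1, 2, 4}, {0, 3, 4}, {1, 3, 4}, {2, 3, 4}} : Finset (Finset (Fin 5))).filter (fun β => (({1, 2, 3} : Finset (Fin 5)) ∩ β).card = 1)) = {{0, 1, 4}, {0, 2, 4}, {0, 3, 4}} := by decide
  have h5 : (({{0, 1, 2}, {0, 1, 3}, {0, 2, 3}, {1, 2, 3}, {0, 1, 4}, {0, 2, 4}, {1, 2, 4}, {0, 3, 4}, {1, 3, 4}, {2, 3, 4}} : Finset (Finset (Fin 5))).filter (fun β => (({0, 1, 4} : Finset (Fin 5)) ∩ β).card = 1)) = {{0, 2, 3}, {1, 2, 3}, {2, 3, 4}} := by decide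
  have h6 : (({{0, 1, 2}, {0, 1, 3}, {0, 2, 3}, {1, 2, 3}, {0, 1, 4}, {0, 2, 4}, {1, 2, 4}, {0, 3, 4}, {1, 3, 4}, {2, 3, 4}} : Finset (Finset (Fin 5))).filter (fun β => (({0, 2, 4} : Finset (Fin 5)) ∩ β).card = 1)) = {{0, 1, 3}, {1, 2, 3}, {1, 3, 4}} := by decide
  have h7 : (({{0, 1, 2}, {0, 1, 3}, {0, 2, 3}, {1, 2, 3}, {0, 1, 4}, {0, 2, 4}, {1, 2, 4}, {0, 3, 4}, {1, 3, 4}, {2, 3, 4}} : Finset (Finset (Fin 5))).filter (fun β => (({1, 2, 4} : Finset (Fin 5)) ∩ β).card = 1)) = {{0, 1, 3}, {0, 2, 3}, {0, 3, 4}} := by decide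
  have h8 : (({{0, 1, 2}, {0, 1, 3}, {0, 2, 3}, {1, 2, 3}, {0, 1, 4}, {0, 2, 4}, {1, 2, 4}, {0, 3, 4}, {1, 3, 4}, {2, 3, 4}} : Finset (Finset (Fin 5))).filter (fun β => (({0, 3, 4} : Finset (Fin 5)) ∩ β).card = 1)) = {{0, 1, 2}, {1, 2, 3}, {1, 2, 4}} := by decide
  have h9 : (({{0, 1, 2}, {0, 1, 3}, {0, 2, 3}, {1, 2, 3}, {0, 1, 4}, {0, 2, 4}, {1, 2, 4}, {0, 3, 4}, {1, 3, 4}, {2, 3, 4}} : Finset (Finset (Fin 5))).filter (fun β => (({1, 3, 4} : Finset (Fin 5)) ∩ β).card = 1)) = {{0, 1, 2}, {0, 2, 3}, {0, 2, 4}} := by decide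
  have h10 : (({{0, 1, 2}, {0, 1, 3}, {0, 2, 3}, {1, 2, 3}, {0, 1, 4}, {0, 2, 4}, {1, 2, 4}, {0, 3, 4}, {1, 3, 4}, {2, 3, 4}} : Finset (Finset (Fin 5))).filter (fun β => (({2, 3, 4} : Finset (Fin 5)) ∩ β).card = 1)) = {{0, 1, 2}, {0, 1, 3}, {0, 1, 4}} := by decide
  rw [h1, h2, h3, h4, h5, h6, h7, h8, h9, h10]
  repeat rw [sum_insert (by decide)]
  simp only [sum_singleton]
  ring

variable {V : Type} [Fintype V] [LinearOrder V] {H : Finset (Finset V)}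

/-- `4` for edges and `-5` for the other triples -/
def ff (H : Finset (Finset V)) (A : Finset V) : ℤ := if A ∈ H then 4 else -5

/-- the sum over the pairs of triples with one common vertex in `R` -/
def Wt (H : Finset (Finset V)) (R : Finset V) : ℤ :=
  ∑ A ∈ R.powersetCard 3, ∑ B ∈ (R.powersetCard 3).filter (fun B => (A ∩ B).card = 1), ff H A * ff H B

theorem ff_eq (a b c : V) : ff H {a, b, c} = 9 * (e H a b c : ℤ) - 5 := by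
  unfold ff e
  split_ifs <;> norm_num

theorem Wt_img (κ : Fin 5 ↪o V) : Wt H (img κ) =
    w5f (e H (κ 0) (κ 1) (κ 2)) (e H (κ 0) (κ 1) (κ 3)) (e H (κ 0) (κ 2) (κ 3)) (e H (κ 1) (κ 2) (κ 3)) (e H (κ 0) (κ 1) (κ 4)) (e H (κ 0) (κ 2) (κ 4)) (e H (κ 1) (κ 2) (κ 4)) (e H (κ 0) (κ 3) (κ 4)) (e H (κ 1) (κ 3) (κ 4)) (e H (κ 2) (κ 3) (κ 4)) := by
  have h1 : (img κ).powersetCard 3 =
      ((univ : Finset (Fin 5)).powersetCard 3).map (mapEmbedding κ.toEmbedding).toEmbedding := by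
    unfold img
    rw [powersetCard_map]
  have h2 : Wt H (img κ) = ∑ α ∈ (univ : Finset (Fin 5)).powersetCard 3,
      ∑ β ∈ ((univ : Finset (Fin 5)).powersetCard 3).filter (fun β => (α ∩ β).card = 1),
        ff H (α.map κ.toEmbedding) * ff H (β.map κ.toEmbedding) := by
    unfold Wt
    rw [h1, sum_map]
    refine sum_congr rfl fun α _ => ?_
    rw [filter_map, sum_map]
    refine sum_congr ?_ fun β _ => rfl
    ext β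
    simp only [mem_filter, Function.comp_apply]
    have : (mapEmbedding κ.toEmbedding).toEmbedding α ∩ (mapEmbedding κ.toEmbedding).toEmbedding β
        = (α ∩ β).map κ.toEmbedding := by
      rw [map_inter]
      rfl
    rw [this, card_map]
  rw [h2, pairs5 (fun α => ff H (α.map κ.toEmbedding))]
  have hm : ∀ a b c : Fin 5, ff H (({a, b, c} : Finset (Fin 5)).map κ.toEmbedding) =
      9 * (e H (κ a) (κ b) (κ c) : ℤ) - 5 := by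
    intro a b c
    rw [← ff_eq]
    congr 1
    simp
  simp only [hm]
  unfold w5f
  ring

/-- the sum over the five-element subsets -/
def w5S (b012 b013 b023 b123 b014 b024 b124 b034 b134 b234 b015 b025 b125 b035 b135 b235 b045 b145 b245 b345 : ℕ) : ℤ :=
  w5f b123 b124 b134 b234 b125 b135 b235 b145 b245 b345 +
    w5f b023 b024 b034 b234 b025 b035 b235 b045 b245 b345 +
    w5f b013 b014 b034 b134 b015 b035 b135 b045 b145 b345 +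
    w5f b012 b014 b024 b124 b015 b025 b125 b045 b145 b245 +
    w5f b012 b013 b023 b123 b015 b025 b125 b035 b135 b235 +
    w5f b012 b013 b023 b123 b014 b024 b124 b034 b134 b234

theorem w5_img (ι : Fin 6 ↪o V) : ∑ x ∈ img ι, Wt H ((img ι).erase x) =
    w5S (e H (ι 0) (ι 1) (ι 2)) (e H (ι 0) (ι 1) (ι 3)) (e H (ι 0) (ι 2) (ι 3)) (e H (ι 1) (ι 2) (ι 3)) (e H (ι 0) (ι 1) (ι 4)) (e H (ι 0) (ι 2) (ι 4)) (e H (ι 1) (ι 2) (ι 4)) (e H (ι 0) (ι 3) (ι 4)) (e H (ι 1) (ι 3) (ι 4)) (e H (ι 2) (ι 3) (ι 4)) (e H (ι 0) (ι 1) (ι 5)) (e H (ι 0) (ι 2) (ι 5)) (e H (ι 1) (ι 2) (ι 5)) (e H (ι 0) (ι 3) (ι 5)) (e H (ι 1) (ι 3) (ι 5)) (e H (ι 2) (ι 3) (ι 5)) (e H (ι 0) (ι 4) (ι 5)) (e H (ι 1) (ι 4) (ι 5)) (e H (ι 2) (ι 4) (ι 5)) (e H (ι 3) (ι 4) (ι 5)) := by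
  rw [sum_img]
  simp only [erase_img]
  rw [Fin.sum_univ_six]
  simp only [Wt_img]
  rfl

theorem six_triples (g : Finset (Fin 6) → ℤ) :
    ∑ α ∈ (univ : Finset (Fin 6)).powersetCard 3, g α =
      g {0, 1, 2} + g {0, 1, 3} + g {0, 2, 3} + g {1, 2, 3} + g {0, 1, 4} + g {0, 2, 4} + g {1, 2, 4} + g {0, 3, 4} + g {1, 3, 4} + g {2, 3, 4} + g {0, 1, 5} + g {0, 2, 5} + g {1, 2, 5} + g {0, 3, 5} + g {1, 3, 5} + g {2, 3, 5} + g {0, 4, 5} + g {1, 4, 5} + g {2, 4, 5} + g {3, 4, 5} := by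
  have h0 : (univ : Finset (Fin 6)).powersetCard 3 = {{0, 1, 2}, {0, 1, 3}, {0, 2, 3}, {1, 2, 3}, {0, 1, 4}, {0, 2, 4}, {1, 2, 4}, {0, 3, 4}, {1, 3, 4}, {2, 3, 4}, {0, 1, 5}, {0, 2, 5}, {1, 2, 5}, {0, 3, 5}, {1, 3, 5}, {2, 3, 5}, {0, 4, 5}, {1, 4, 5}, {2, 4, 5}, {3, 4, 5}} := by decide
  rw [h0]
  repeat rw [sum_insert (by decide)]
  rw [sum_singleton]
  ring

theorem edg_img (ι : Fin 6 ↪o V) : ∑ A ∈ (img ι).powersetCard 3, (if A ∈ H then (1 : ℤ) else 0) =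
    (edg (e H (ι 0) (ι 1) (ι 2)) (e H (ι 0) (ι 1) (ι 3)) (e H (ι 0) (ι 2) (ι 3)) (e H (ι 1) (ι 2) (ι 3)) (e H (ι 0) (ι 1) (ι 4)) (e H (ι 0) (ι 2) (ι 4)) (e H (ι 1) (ι 2) (ι 4)) (e H (ι 0) (ι 3) (ι 4)) (e H (ι 1) (ι 3) (ι 4)) (e H (ι 2) (ι 3) (ι 4)) (e H (ι 0) (ι 1) (ι 5)) (e H (ι 0) (ι 2) (ι 5)) (e H (ι 1) (ι 2) (ι 5)) (e H (ι 0) (ι 3) (ι 5)) (e H (ι 1) (ι 3) (ι 5)) (e H (ι 2) (ι 3) (ι 5)) (e H (ι 0) (ι 4) (ι 5)) (e H (ι 1) (ι 4) (ι 5)) (e H (ι 2) (ι 4) (ι 5)) (e H (ι 3) (ι 4) (ι 5)) : ℕ) := by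
  have h1 : (img ι).powersetCard 3 =
      ((univ : Finset (Fin 6)).powersetCard 3).map (mapEmbedding ι.toEmbedding).toEmbedding := by
    unfold img
    rw [powersetCard_map]
  rw [h1, sum_map, six_triples]
  have hm : ∀ a b c : Fin 6, (if (mapEmbedding ι.toEmbedding).toEmbedding ({a, b, c} : Finset (Fin 6)) ∈ H
      then (1 : ℤ) else 0) = (e H (ι a) (ι b) (ι c) : ℕ) := by
    intro a b c
    have : (mapEmbedding ι.toEmbedding).toEmbedding ({a, b, c} : Finset (Fin 6)) =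
        {ι a, ι b, ι c} := by
      show ({a, b, c} : Finset (Fin 6)).map ι.toEmbedding = _
      simp
    rw [this]
    unfold e
    split_ifs <;> simp
  simp only [hm]
  unfold edg
  push_cast
  ring

end Pool.Agent.K3h27.OP
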