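import Pool.Agent.K3h27.OP.Main

/-! From the inequality with an error term to the exact bound, by blow-ups. -/

set_option autoImplicit false
set_option linter.unusedVariables false
set_option maxHeartbeats 1000000
open Finset

namespace Pool.Agent.K3h27.OP

theorem choose6 (n : ℕ) : 20 * n.choose 6 = n.choose 3 * (n - 3).choose 3 := by
  rcases Nat.lt_or_ge n 6 with h | h
  · interval_cases n <;> rfl
  · have := Nat.choose_mul (n := n) (k := 6) (s := 3) (by norm_num)
    have h2 : Nat.choose 6 3 = 20 := rfl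
    rw [h2] at this
    rw [mul_comm, this]

theorem c3_lower {n : ℕ} (hn : 10 ≤ n) : (n : ℝ) ^ 3 / 48 ≤ ((n - 3).choose 3 : ℕ) := by
  obtain ⟨k, rfl⟩ : ∃ k, n = k + 10 := ⟨n - 10, by omega⟩
  have h1 : (((k + 10 - 3).choose 3 : ℕ) : ℝ) = ((k : ℝ) + 7) * (k + 6) * (k + 5) / 6 := by
    have e : k + 10 - 3 = k + 7 := by omega
    rw [e]
    have h2 : (k + 7).choose 3 * 6 = (k + 7) * (k + 6) * (k + 5) := by
      have := Nat.descFactorial_eq_factorial_mul_choose (k + 7) 3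
      have h3 : (k + 7).descFactorial 3 = (k + 5) * ((k + 6) * (k + 7)) := by
        simp [Nat.descFactorial]
      have h4 : Nat.factorial 3 = 6 := rfl
      rw [h3, h4] at this
      nlinarith
    have h3 : (((k + 7).choose 3 * 6 : ℕ) : ℝ) = (((k + 7) * (k + 6) * (k + 5) : ℕ) : ℝ) := by rw [h2]
    push_cast at h3
    linarith
  rw [h1]
  push_cast
  have hk : (0 : ℝ) ≤ k := Nat.cast_nonneg k
  have : ((k : ℝ) + 10) ^ 3 ≤ 8 * ((k + 7) * (k + 6) * (k + 5)) := by nlinarith [hk, mul_nonneg hk hk, mul_nonneg (mul_nonneg hk hk) hk]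
  linarith

theorem choose_le (n k : ℕ) : ((n.choose k : ℕ) : ℝ) ≤ (n : ℝ) ^ k / (k.factorial : ℝ) :=
  Nat.choose_le_pow_div k n

/-- the bound with an error term of order `n ^ 2` -/
theorem approx_of {κ A B : ℝ} (hκ : 0 < κ) (hA : 0 ≤ A) (hB : 0 ≤ B) {n h : ℕ}
    (h0 : h ≤ n.choose 3)
    (hm : 5 ≤ n → 9 * κ * ((n - 3).choose 3 : ℕ) * h ≤ 100 * κ * (n.choose 6 : ℕ) +
      A * (n.choose 4 : ℕ) * n + B * (n.choose 3 : ℕ) * n ^ 2) :
    (h : ℝ) ≤ 5 / 54 * n ^ 3 + (2 + (A / 24 + B / 6) * 48 / (9 * κ)) * n ^ 2 := by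
  have hK : 0 ≤ (A / 24 + B / 6) * 48 / (9 * κ) := by positivity
  have hn0 : (0 : ℝ) ≤ n := Nat.cast_nonneg n
  rcases Nat.lt_or_ge n 10 with hn | hn
  · have h1 : (h : ℝ) ≤ n ^ 3 / 6 := by
      refine le_trans (by exact_mod_cast h0) ((choose_le n 3).trans (le_of_eq ?_))
      norm_num [Nat.factorial]
    have h2 : (n : ℝ) ≤ 10 := by exact_mod_cast hn.le
    have h3 : (n : ℝ) ^ 3 ≤ 10 * n ^ 2 := by nlinarith [sq_nonneg (n : ℝ)]
    have h4 : 0 ≤ (A / 24 + B / 6) * 48 / (9 * κ) * (n : ℝ) ^ 2 := by positivity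
    have h5 : (0 : ℝ) ≤ (n : ℝ) ^ 3 := by positivity
    nlinarith [sq_nonneg (n : ℝ)]
  · have hm' := hm (by omega)
    have c3 := c3_lower hn
    have hn1 : (0 : ℝ) < n := by
      have : (10 : ℝ) ≤ n := by exact_mod_cast hn
      linarith
    have hc3 : (0 : ℝ) < ((n - 3).choose 3 : ℕ) := lt_of_lt_of_le (by positivity) c3
    have e6 : (20 : ℝ) * (n.choose 6 : ℕ) = (n.choose 3 : ℕ) * ((n - 3).choose 3 : ℕ) := by
      exact_mod_cast choose6 n
    have u4 : ((n.choose 4 : ℕ) : ℝ) ≤ n ^ 4 / 24 :=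
      (choose_le n 4).trans (le_of_eq (by norm_num [Nat.factorial]))
    have u3 : ((n.choose 3 : ℕ) : ℝ) ≤ n ^ 3 / 6 :=
      (choose_le n 3).trans (le_of_eq (by norm_num [Nat.factorial]))
    set C := (((n - 3).choose 3 : ℕ) : ℝ) with hC
    have h1 : 9 * κ * C * h ≤ 5 * κ * ((n.choose 3 : ℕ) : ℝ) * C +
        (A / 24 + B / 6) * n ^ 5 := by
      have f1 : 100 * κ * ((n.choose 6 : ℕ) : ℝ) = 5 * κ * ((n.choose 3 : ℕ) : ℝ) * C := by
        have : 100 * κ * ((n.choose 6 : ℕ) : ℝ) = 5 * κ * (20 * ((n.choose 6 : ℕ) : ℝ)) := by ring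
        rw [this, e6]
        ring
      have f2 : A * ((n.choose 4 : ℕ) : ℝ) * n ≤ A / 24 * n ^ 5 := by
        have := mul_le_mul_of_nonneg_right (mul_le_mul_of_nonneg_left u4 hA) hn0
        refine this.trans (le_of_eq ?_)
        ring
      have f3 : B * ((n.choose 3 : ℕ) : ℝ) * n ^ 2 ≤ B / 6 * n ^ 5 := by
        have := mul_le_mul_of_nonneg_right (mul_le_mul_of_nonneg_left u3 hB) (sq_nonneg (n : ℝ))
        refine this.trans (le_of_eq ?_)
        ring
      linarith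
    have h2 : (A / 24 + B / 6) * (n : ℝ) ^ 5 ≤ (A / 24 + B / 6) * 48 * n ^ 2 * C := by
      have : (n : ℝ) ^ 5 ≤ 48 * n ^ 2 * C := by
        have := mul_le_mul_of_nonneg_left c3 (show (0 : ℝ) ≤ 48 * n ^ 2 by positivity)
        refine le_trans (le_of_eq ?_) this
        ring
      calc (A / 24 + B / 6) * (n : ℝ) ^ 5 ≤ (A / 24 + B / 6) * (48 * n ^ 2 * C) :=
            mul_le_mul_of_nonneg_left this (by positivity)
        _ = _ := by ring
    have h3 : 9 * κ * h ≤ 5 * κ * ((n.choose 3 : ℕ) : ℝ) + (A / 24 + B / 6) * 48 * n ^ 2 := by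
      have : (9 * κ * h) * C ≤ (5 * κ * ((n.choose 3 : ℕ) : ℝ) + (A / 24 + B / 6) * 48 * n ^ 2) * C := by
        nlinarith
      exact le_of_mul_le_mul_right this hc3
    have h4 : (h : ℝ) ≤ 5 / 9 * ((n.choose 3 : ℕ) : ℝ) + (A / 24 + B / 6) * 48 / (9 * κ) * n ^ 2 := by
      have h5 : (h : ℝ) = (9 * κ * h) / (9 * κ) := by field_simp
      rw [h5]
      have h6 := div_le_div_of_nonneg_right h3 (show (0 : ℝ) ≤ 9 * κ by positivity)
      refine h6.trans (le_of_eq ?_)
      field_simp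
    nlinarith [sq_nonneg (n : ℝ)]

/-! ### blow-ups -/

variable {V : Type} [Fintype V] [LinearOrder V]

/-- the blow-up of `H` with parts of size `m`, ordered lexicographically -/
def bl (H : Finset (Finset V)) (m : ℕ) : Finset (Finset (V ×ₗ Fin m)) :=
  (P (V ×ₗ Fin m) 3).filter fun B => B.image (fun x => (ofLex x).1) ∈ H

theorem mem_bl {H : Finset (Finset V)} {m : ℕ} (h3 : ∀ A ∈ H, A.card = 3) (x y z : V ×ₗ Fin m) :
    ({x, y, z} : Finset (V ×ₗ Fin m)) ∈ bl H m ↔
      ({(ofLex x).1, (ofLex y).1, (ofLex z).1} : Finset V) ∈ H := by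
  unfold bl
  rw [mem_filter, mem_P]
  have e : ({x, y, z} : Finset (V ×ₗ Fin m)).image (fun x => (ofLex x).1) =
      {(ofLex x).1, (ofLex y).1, (ofLex z).1} := by
    simp [image_insert]
  rw [e]
  constructor
  · exact fun h => h.2
  · intro h
    refine ⟨?_, h⟩
    have h1 := h3 _ h
    rw [← e] at h1
    have h2 : ({x, y, z} : Finset (V ×ₗ Fin m)).card ≤ 3 := card_le_three
    have h4 := card_image_le (s := ({x, y, z} : Finset (V ×ₗ Fin m))) (f := fun x => (ofLex x).1)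
    omega

theorem card_bl {H : Finset (Finset V)} (m : ℕ) (h3 : ∀ A ∈ H, A.card = 3) :
    m ^ 3 * H.card ≤ (bl H m).card := by
  have h1 : ∀ A ∈ H, m ^ 3 ≤ ((bl H m).filter fun B => B.image (fun x => (ofLex x).1) = A).card := by
    intro A hA
    obtain ⟨a, b, c, hab, hac, hbc, rfl⟩ := card_eq_three.1 (h3 A hA)
    have h2 : (univ : Finset (Fin m × Fin m × Fin m)).card = m ^ 3 := by
      rw [card_univ]
      simp only [Fintype.card_prod, Fintype.card_fin]
      ring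
    rw [← h2]
    refine card_le_card_of_injOn (fun p => ({toLex (a, p.1), toLex (b, p.2.1), toLex (c, p.2.2)} :
      Finset (V ×ₗ Fin m))) ?_ ?_
    · intro p _
      have e : ({toLex (a, p.1), toLex (b, p.2.1), toLex (c, p.2.2)} : Finset (V ×ₗ Fin m)).image
          (fun x => (ofLex x).1) = {a, b, c} := by
        simp [image_insert]
      rw [mem_coe, mem_filter]
      refine ⟨?_, e⟩
      rw [mem_bl h3]
      exact hA
    · intro p _ p' _ h
      have key : ∀ (u : V) (i j : Fin m), (u = a ∧ i = p.1) ∨ (u = b ∧ i = p.2.1) ∨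
          (u = c ∧ i = p.2.2) → toLex (u, i) ∈ ({toLex (a, p'.1), toLex (b, p'.2.1),
            toLex (c, p'.2.2)} : Finset (V ×ₗ Fin m)) := by
        intro u i j hu
        have : toLex (u, i) ∈ ({toLex (a, p.1), toLex (b, p.2.1), toLex (c, p.2.2)} :
            Finset (V ×ₗ Fin m)) := by
          rcases hu with ⟨rfl, rfl⟩ | ⟨rfl, rfl⟩ | ⟨rfl, rfl⟩ <;> simp
        have h' : ({toLex (a, p.1), toLex (b, p.2.1), toLex (c, p.2.2)} :
            Finset (V ×ₗ Fin m)) = {toLex (a, p'.1), toLex (b, p'.2.1), toLex (c, p'.2.2)} := h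
        rw [← h']
        exact this
      have k1 := key a p.1 p.1 (Or.inl ⟨rfl, rfl⟩)
      have k2 := key b p.2.1 p.1 (Or.inr (Or.inl ⟨rfl, rfl⟩))
      have k3 := key c p.2.2 p.1 (Or.inr (Or.inr ⟨rfl, rfl⟩))
      simp only [mem_insert, mem_singleton, EmbeddingLike.apply_eq_iff_eq, Prod.mk.injEq, hab, hac,
        hbc, hab.symm, hac.symm, hbc.symm, false_and, or_false, false_or, true_and] at k1 k2 k3
      exact Prod.ext k1 (Prod.ext k2 k3)
  have h2 : (bl H m).card = ∑ A ∈ H, ((bl H m).filter fun B => B.image (fun x => (ofLex x).1) = A).card :=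
    card_eq_sum_card_fiberwise fun B hB => by
      unfold bl at hB
      exact (mem_filter.1 hB).2
  rw [h2]
  calc m ^ 3 * H.card = ∑ A ∈ H, m ^ 3 := by rw [sum_const, smul_eq_mul, mul_comm]
    _ ≤ _ := sum_le_sum h1

/-- the condition on four vertices -/
def Cond (H : Finset (Finset V)) : Prop :=
  ∀ a b c d : V, a < b → b < c → c < d → (({a, b, c} : Finset V) ∈ H ∨ ({b, c, d} : Finset V) ∈ H) →
    (({a, b, d} : Finset V) ∈ H ∨ ({a, c, d} : Finset V) ∈ H)

/-- no four vertices span all four triples -/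
def K4Free (H : Finset (Finset V)) : Prop :=
  ∀ a b c d : V, a < b → b < c → c < d → ¬ (({a, b, c} : Finset V) ∈ H ∧ ({a, b, d} : Finset V) ∈ H ∧
    ({a, c, d} : Finset V) ∈ H ∧ ({b, c, d} : Finset V) ∈ H)

theorem lex_le {m : ℕ} {x y : V ×ₗ Fin m} (h : x < y) : (ofLex x).1 ≤ (ofLex y).1 := by
  rw [Prod.Lex.lt_iff] at h
  rcases h with h | h
  · exact h.le
  · exact h.1.le

theorem lt_of_mem {H : Finset (Finset V)} (h3 : ∀ A ∈ H, A.card = 3) {a b c : V} (hab : a ≤ b)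
    (hbc : b ≤ c) (h : ({a, b, c} : Finset V) ∈ H) : a < b ∧ b < c := by
  have h1 := h3 _ h
  refine ⟨lt_of_le_of_ne hab ?_, lt_of_le_of_ne hbc ?_⟩
  · rintro rfl
    have : ({a, a, c} : Finset V).card ≤ 2 := by
      rw [insert_eq_of_mem (mem_insert_self a {c})]
      exact card_le_two
    omega
  · rintro rfl
    have : ({a, b, b} : Finset V).card ≤ 2 := by
      have e : ({a, b, b} : Finset V) = {a, b} := by simp
      rw [e]
      exact card_le_two
    omega

theorem bl_cond {H : Finset (Finset V)} (m : ℕ) (h3 : ∀ A ∈ H, A.card = 3) (h : Cond H) :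
    Cond (bl H m) := by
  intro x y z w hxy hyz hzw hh
  simp only [mem_bl h3] at hh ⊢
  have l1 := lex_le hxy
  have l2 := lex_le hyz
  have l3 := lex_le hzw
  rcases hh with hh | hh
  · obtain ⟨g1, g2⟩ := lt_of_mem h3 l1 l2 hh
    rcases l3.eq_or_lt with l3 | l3
    · rw [l3] at hh
      exact Or.inl hh
    · exact h _ _ _ _ g1 g2 l3 (Or.inl hh)
  · obtain ⟨g1, g2⟩ := lt_of_mem h3 l2 l3 hh
    rcases l1.eq_or_lt with l1 | l1
    · rw [← l1] at hh
      exact Or.inr hh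
    · exact h _ _ _ _ l1 g1 g2 (Or.inr hh)

theorem bl_free {H : Finset (Finset V)} (m : ℕ) (h3 : ∀ A ∈ H, A.card = 3) (h : K4Free H) :
    K4Free (bl H m) := by
  intro x y z w hxy hyz hzw hh
  simp only [mem_bl h3] at hh
  have l1 := lex_le hxy
  have l2 := lex_le hyz
  have l3 := lex_le hzw
  obtain ⟨g1, g2⟩ := lt_of_mem h3 l1 l2 hh.1
  obtain ⟨g3, g4⟩ := lt_of_mem h3 l2 l3 hh.2.2.2
  exact h _ _ _ _ g1 g2 g4 hh

/-- from a bound with an error term to the exact bound -/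
theorem exact_of (K : ℝ)
    (h : ∀ (V : Type) [Fintype V] [LinearOrder V] (H : Finset (Finset V)), (∀ A ∈ H, A.card = 3) →
      K4Free H → Cond H → (H.card : ℝ) ≤ 5 / 54 * (Fintype.card V : ℝ) ^ 3 + K * (Fintype.card V : ℝ) ^ 2)
    (V : Type) [Fintype V] [LinearOrder V] (H : Finset (Finset V)) (h3 : ∀ A ∈ H, A.card = 3)
    (hf : K4Free H) (hc : Cond H) : 54 * H.card ≤ 5 * Fintype.card V ^ 3 := by
  have key : ∀ m : ℕ, 0 < m → (H.card : ℝ) ≤ 5 / 54 * (Fintype.card V : ℝ) ^ 3 +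
      K * (Fintype.card V : ℝ) ^ 2 / m := by
    intro m hm
    have h1 := h (V ×ₗ Fin m) (bl H m) (fun A hA => by
      unfold bl at hA
      exact mem_P.1 (mem_filter.1 hA).1) (bl_free m h3 hf) (bl_cond m h3 hc)
    have h2 : Fintype.card (V ×ₗ Fin m) = Fintype.card V * m := by
      rw [show Fintype.card (V ×ₗ Fin m) = Fintype.card (V × Fin m) from rfl, Fintype.card_prod,
        Fintype.card_fin]
    rw [h2] at h1
    have h4 : (m : ℝ) ^ 3 * H.card ≤ (bl H m).card := by exact_mod_cast card_bl m h3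
    have h5 := h4.trans h1
    push_cast at h5
    have hm' : (0 : ℝ) < m := by exact_mod_cast hm
    have h6 : (m : ℝ) ^ 3 * H.card ≤ m ^ 3 * (5 / 54 * (Fintype.card V : ℝ) ^ 3 +
      K * (Fintype.card V : ℝ) ^ 2 / m) := by
      refine h5.trans (le_of_eq ?_)
      field_simp
    exact le_of_mul_le_mul_left h6 (by positivity)
  have h1 : (H.card : ℝ) ≤ 5 / 54 * (Fintype.card V : ℝ) ^ 3 := by
    refine le_of_forall_pos_le_add fun ε hε => ?_
    obtain ⟨m, hm⟩ := exists_nat_gt (|K| * (Fintype.card V : ℝ) ^ 2 / ε)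
    have hm0 : (0 : ℝ) < m := lt_of_le_of_lt (by positivity) hm
    refine (key m (by exact_mod_cast hm0)).trans ?_
    have h2 : K * (Fintype.card V : ℝ) ^ 2 / m ≤ ε := by
      rw [div_le_iff₀ hm0]
      rw [div_lt_iff₀ hε] at hm
      have := mul_le_mul_of_nonneg_right (le_abs_self K) (sq_nonneg (Fintype.card V : ℝ))
      linarith
    linarith
  have h2 : (54 : ℝ) * H.card ≤ 5 * (Fintype.card V : ℝ) ^ 3 := by linarith
  exact_mod_cast h2

end Pool.Agent.K3h27.OP
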