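import Pool.Agent.K3h27.OP.Fin

/-! Classes given by the allowed patterns on four vertices: the bound with an error term implies
the exact bound, if the class is closed under blow-ups. -/

set_option autoImplicit false
set_option linter.unusedVariables false
set_option maxHeartbeats 1000000
open Finset

namespace Pool.Agent.K3h27.OP

variable {V : Type} [Fintype V] [LinearOrder V]

theorem e_eq_zero {H : Finset (Finset V)} (h3 : ∀ A ∈ H, A.card = 3) {a b c : V}
    (h : a = b ∨ b = c ∨ a = c) : e H a b c = 0 := by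
  unfold e
  rw [if_neg]
  intro h1
  have h2 := h3 _ h1
  rcases h with rfl | rfl | rfl
  · have : ({a, a, c} : Finset V).card ≤ 2 := by
      rw [insert_eq_of_mem (mem_insert_self a {c})]
      exact card_le_two
    omega
  · have : ({a, b, b} : Finset V).card ≤ 2 := by
      have e : ({a, b, b} : Finset V) = {a, b} := by simp
      rw [e]
      exact card_le_two
    omega
  · have : ({a, b, a} : Finset V).card ≤ 2 := by
      have e : ({a, b, a} : Finset V) = {a, b} := by
        ext x
        simp only [mem_insert, mem_singleton]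
        tauto
      rw [e]
      exact card_le_two
    omega

/-- the order embedding of four increasing elements -/
def emb4 (a b c d : V) (h1 : a < b) (h2 : b < c) (h3 : c < d) : Fin 4 ↪o V :=
  OrderEmbedding.ofStrictMono ![a, b, c, d] (by
    intro i j hij
    have h12 := h1.trans h2
    have h23 := h2.trans h3
    have h13 := h12.trans h3
    fin_cases i <;> fin_cases j <;> first | exact absurd hij (by decide) | assumption)

theorem cod4_emb4 {H : Finset (Finset V)} (a b c d : V) (h1 : a < b) (h2 : b < c) (h3 : c < d) :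
    cod4 H (emb4 a b c d h1 h2 h3) = c4 (e H a b c) (e H a b d) (e H a c d) (e H b c d) := rfl

theorem e_bl {H : Finset (Finset V)} {m : ℕ} (h3 : ∀ A ∈ H, A.card = 3) (x y z : V ×ₗ Fin m) :
    e (bl H m) x y z = e H (ofLex x).1 (ofLex y).1 (ofLex z).1 := by
  unfold e
  simp only [mem_bl h3]

theorem pat_bl {ok : ℕ → Bool} (o0 : ok 0 = true) (o3 : ok 3 = true) (o6 : ok 6 = true)
    (o12 : ok 12 = true) {H : Finset (Finset V)} (m : ℕ) (h3 : ∀ A ∈ H, A.card = 3)
    (hok : ∀ T ∈ P V 4, ok (C4 H T) = true) (T : Finset (V ×ₗ Fin m)) (hT : T ∈ P (V ×ₗ Fin m) 4) :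
    ok (C4 (bl H m) T) = true := by
  obtain ⟨κ, rfl⟩ := exists_img (mem_P.1 hT)
  rw [C4_img]
  unfold cod4
  simp only [e_bl h3]
  have l1 := lex_le (κ.lt_iff_lt.2 (show (0 : Fin 4) < 1 by decide))
  have l2 := lex_le (κ.lt_iff_lt.2 (show (1 : Fin 4) < 2 by decide))
  have l3 := lex_le (κ.lt_iff_lt.2 (show (2 : Fin 4) < 3 by decide))
  generalize (ofLex (κ 0)).1 = a at *
  generalize (ofLex (κ 1)).1 = b at *
  generalize (ofLex (κ 2)).1 = c at *
  generalize (ofLex (κ 3)).1 = d at *
  have key : ∀ x : ℕ, x ≤ 1 → x = 0 ∨ x = 1 := by intro x; omega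
  rcases l1.eq_or_lt with rfl | l1
  · rw [e_eq_zero h3 (Or.inl rfl), e_eq_zero h3 (Or.inl rfl)]
    rcases key _ (e_le H a c d) with h | h <;> rw [h]
    · exact o0
    · exact o12
  rcases l2.eq_or_lt with rfl | l2
  · rw [e_eq_zero h3 (Or.inr (Or.inl rfl)), e_eq_zero (a := b) h3 (Or.inl rfl)]
    rcases key _ (e_le H a b d) with h | h <;> rw [h]
    · exact o0
    · exact o6
  rcases l3.eq_or_lt with rfl | l3
  · rw [e_eq_zero (a := a) h3 (Or.inr (Or.inl rfl)), e_eq_zero (a := b) h3 (Or.inr (Or.inl rfl))]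
    rcases key _ (e_le H a b c) with h | h <;> rw [h]
    · exact o0
    · exact o3
  have h := hok (img (emb4 a b c d l1 l2 l3)) (mem_P.2 (card_img _))
  rw [C4_img, cod4_emb4] at h
  exact h

/-- from a bound with an error term to the exact bound -/
theorem exact_pat {ok : ℕ → Bool} (o0 : ok 0 = true) (o3 : ok 3 = true) (o6 : ok 6 = true)
    (o12 : ok 12 = true) (h : ∃ K : ℝ, ∀ (V : Type) [Fintype V] [LinearOrder V]
      (H : Finset (Finset V)), (∀ A ∈ H, A.card = 3) → (∀ T ∈ P V 4, ok (C4 H T) = true) →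
      (H.card : ℝ) ≤ 5 / 54 * (Fintype.card V : ℝ) ^ 3 + K * (Fintype.card V : ℝ) ^ 2)
    (V : Type) [Fintype V] [LinearOrder V] (H : Finset (Finset V)) (h3 : ∀ A ∈ H, A.card = 3)
    (hok : ∀ T ∈ P V 4, ok (C4 H T) = true) : 54 * H.card ≤ 5 * Fintype.card V ^ 3 := by
  obtain ⟨K, h⟩ := h
  have key : ∀ m : ℕ, 0 < m → (H.card : ℝ) ≤ 5 / 54 * (Fintype.card V : ℝ) ^ 3 +
      K * (Fintype.card V : ℝ) ^ 2 / m := by
    intro m hm
    have h1 := h (V ×ₗ Fin m) (bl H m) (fun A hA => by
      unfold bl at hA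
      exact mem_P.1 (mem_filter.1 hA).1) (pat_bl o0 o3 o6 o12 m h3 hok)
    have h2 : Fintype.card (V ×ₗ Fin m) = Fintype.card V * m := by
      rw [show Fintype.card (V ×ₗ Fin m) = Fintype.card (V × Fin m) from rfl, Fintype.card_prod,
        Fintype.card_fin]
    rw [h2] at h1
    have h4 : (m : ℝ) ^ 3 * H.card ≤ (bl H m).card := by exact_mod_cast card_bl m h3
    have h5 := h4.trans h1
    push_cast at h5
    have hm' : (0 : ℝ) < m := by exact_mod_cast hm
    have h6 : (m : ℝ) ^ 3 * H.card ≤ m ^ 3 * (5 / 54 * (Fintype.card V : ℝ) ^ 3 +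
      K * (Fintype.card V : ℝ) ^ 2 / m) := by
      refine h5.trans (le_of_eq ?_)
      field_simp
    exact le_of_mul_le_mul_left h6 (by positivity)
  have h1 : (H.card : ℝ) ≤ 5 / 54 * (Fintype.card V : ℝ) ^ 3 := by
    refine le_of_forall_pos_le_add fun ε hε => ?_
    obtain ⟨m, hm⟩ := exists_nat_gt (|K| * (Fintype.card V : ℝ) ^ 2 / ε)
    have hm0 : (0 : ℝ) < m := lt_of_le_of_lt (by positivity) hm
    refine (key m (by exact_mod_cast hm0)).trans ?_
    have h2 : K * (Fintype.card V : ℝ) ^ 2 / m ≤ ε := by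
      rw [div_le_iff₀ hm0]
      rw [div_lt_iff₀ hε] at hm
      have := mul_le_mul_of_nonneg_right (le_abs_self K) (sq_nonneg (Fintype.card V : ℝ))
      linarith
    linarith
  have h2 : (54 : ℝ) * H.card ≤ 5 * (Fintype.card V : ℝ) ^ 3 := by linarith
  exact_mod_cast h2

end Pool.Agent.K3h27.OP
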