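import Pool.Agent.K3h27.OP.Psd

/-! Checks by the kernel. -/

set_option autoImplicit false
open Finset

namespace Pool.Agent.K3h27.OP

def B2 (f : ℕ → Bool) : Bool := cond (f 0) (f 1) false

theorem B2_true {f : ℕ → Bool} (h : B2 f = true) {b : ℕ} (hb : b ≤ 1) : f b = true := by
  unfold B2 at h
  cases h0 : f 0 with
  | false => rw [h0] at h; exact Bool.noConfusion h
  | true =>
    rw [h0] at h
    interval_cases b
    · exact h0
    · exact h

def imp (a b : Bool) : Bool := cond a b true

theorem imp_true {a b : Bool} (h : imp a b = true) (ha : a = true) : b = true := by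
  subst ha; exact h

def allb : ℕ → (ℕ → Bool) → Bool
  | 0, _ => true
  | n + 1, f => cond (f n) (allb n f) false

theorem allb_true {n : ℕ} {f : ℕ → Bool} (h : allb n f = true) {i : ℕ} (hi : i < n) : f i = true := by
  induction n with
  | zero => omega
  | succ n ih =>
    unfold allb at h
    cases h0 : f n with
    | false => rw [h0] at h; exact Bool.noConfusion h
    | true =>
      rw [h0] at h
      rcases Nat.lt_succ_iff_lt_or_eq.1 hi with h1 | h1
      · exact ih h h1
      · rw [h1]; exact h0

/-- a field of a table -/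
def fld (w T i : ℕ) : ℕ := Nat.land (Nat.shiftRight T (Nat.mul w i)) (Nat.sub (Nat.shiftLeft 1 w) 1)

theorem fld_lt (w T i : ℕ) : fld w T i < 2 ^ w := by
  unfold fld
  have h : Nat.sub (Nat.shiftLeft 1 w) 1 = 2 ^ w - 1 := by
    show (1 <<< w) - 1 = _
    rw [Nat.shiftLeft_eq, one_mul]
  rw [h]
  have h2 : Nat.land (Nat.shiftRight T (Nat.mul w i)) (2 ^ w - 1) ≤ 2 ^ w - 1 := Nat.and_le_right
  have h3 : 0 < 2 ^ w := by positivity
  omega

def tri (x : ℕ) : ℕ := Nat.div (Nat.mul x (Nat.add x 1)) 2

/-- the entry of a symmetric table -/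
def look (w T i j : ℕ) : ℕ :=
  cond (Nat.ble i j) (fld w T (Nat.add (tri j) i)) (fld w T (Nat.add (tri i) j))

theorem look_comm (w T i j : ℕ) : look w T i j = look w T j i := by
  unfold look
  rcases lt_trichotomy i j with h | h | h
  · have h1 : Nat.ble i j = true := Nat.ble_eq_true_of_le h.le
    have h2 : Nat.ble j i = false := by
      rw [Bool.eq_false_iff]; intro h3; exact absurd (Nat.le_of_ble_eq_true h3) (not_le.2 h)
    rw [h1, h2]; rfl
  · rw [h]
  · have h1 : Nat.ble j i = true := Nat.ble_eq_true_of_le h.le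
    have h2 : Nat.ble i j = false := by
      rw [Bool.eq_false_iff]; intro h3; exact absurd (Nat.le_of_ble_eq_true h3) (not_le.2 h)
    rw [h1, h2]; rfl

theorem look_lt (w T i j : ℕ) : look w T i j < 2 ^ w := by
  unfold look
  cases Nat.ble i j
  · exact fld_lt _ _ _
  · exact fld_lt _ _ _

/-- the entry of a symmetric table of integers -/
def qz (w T O i j : ℕ) : ℤ := (look w T i j : ℤ) - (O : ℤ)

theorem qz_comm (w T O i j : ℕ) : qz w T O i j = qz w T O j i := by
  unfold qz; rw [look_comm]

theorem qz_le (w T O i j : ℕ) : qz w T O i j ≤ 2 ^ w := by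
  unfold qz
  have := look_lt w T i j
  have h2 : (look w T i j : ℤ) ≤ 2 ^ w := by exact_mod_cast this.le
  linarith [Int.natCast_nonneg O]

/-! ### the check of a certificate -/

def absrow (q : ℕ → ℤ) (Wa : List ℤ) : ℕ → List (List ℤ) → ℕ
  | _, [] => 0
  | b, Wb :: l => Nat.add (Int.natAbs (q b - dot Wa Wb)) (absrow q Wa (Nat.succ b) l)

theorem absrow_eq (q : ℕ → ℤ) (Wa : List ℤ) : ∀ (l : List (List ℤ)) (b : ℕ),
    (absrow q Wa b l : ℤ) = ∑ i ∈ range l.length, |q (b + i) - dot Wa (l.getD i [])| := by
  intro l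
  induction l with
  | nil => intro b; simp [absrow]
  | cons x l ih =>
    intro b
    have h1 : absrow q Wa b (x :: l) = (q b - dot Wa x).natAbs + absrow q Wa (b + 1) l := rfl
    rw [h1]
    push_cast
    rw [ih, List.length_cons, sum_range_succ']
    simp only [List.getD_cons_zero, List.getD_cons_succ, add_zero]
    rw [add_comm]
    congr 1
    refine sum_congr rfl fun i _ => ?_
    rw [show b + 1 + i = b + (i + 1) by ring]

def chkW (q : ℕ → ℕ → ℤ) (Ws : List (List ℤ)) : ℕ → List (List ℤ) → Bool
  | _, [] => true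
  | a, Wa :: l => cond (Nat.ble (absrow (q a) Wa 0 Ws) (Int.toNat (2 * (q a a - dot Wa Wa))))
      (chkW q Ws (Nat.succ a) l) false

theorem chkW_true (q : ℕ → ℕ → ℤ) (Ws : List (List ℤ)) : ∀ (l : List (List ℤ)) (a : ℕ),
    chkW q Ws a l = true → ∀ i < l.length,
      absrow (q (a + i)) (l.getD i []) 0 Ws ≤
        Int.toNat (2 * (q (a + i) (a + i) - dot (l.getD i []) (l.getD i []))) := by
  intro l
  induction l with
  | nil => intro a _ i hi; simp at hi
  | cons x l ih =>
    intro a h i hi
    have h1 : chkW q Ws a (x :: l) = cond (Nat.ble (absrow (q a) x 0 Ws)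
      (Int.toNat (2 * (q a a - dot x x)))) (chkW q Ws (a + 1) l) false := rfl
    rw [h1] at h
    cases h0 : Nat.ble (absrow (q a) x 0 Ws) (Int.toNat (2 * (q a a - dot x x))) with
    | false => rw [h0] at h; exact Bool.noConfusion h
    | true =>
      rw [h0] at h
      cases i with
      | zero =>
        simp only [add_zero, List.getD_cons_zero]
        exact Nat.le_of_ble_eq_true h0
      | succ i =>
        rw [List.length_cons] at hi
        have := ih (a + 1) h i (by omega)
        simp only [List.getD_cons_succ]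
        rw [show a + (i + 1) = a + 1 + i by ring]
        exact this

/-- the list of a flag: the flags with index less than `r` are independent -/
def Rf (r d : ℕ) (Rs : List (List (ℕ × ℤ))) (i : ℕ) : List (ℕ × ℤ) :=
  cond (Nat.ble r i) (Rs.getD (Nat.sub i r) []) [(i, (d : ℤ))]

def chkR (n r d : ℕ) (Rs : List (List (ℕ × ℤ))) (q : ℕ → ℕ → ℤ) : Bool :=
  allb n fun i => imp (Nat.ble r i) (cond ((Rf r d Rs i).all fun p => Nat.ble (Nat.succ p.1) r)
    (allb (Nat.succ i) fun j => decide ((d : ℤ) * (d : ℤ) * q i j =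
      ev (Rf r d Rs i) fun a => ev (Rf r d Rs j) fun b => q a b)) false)

theorem psd_chk {V : Type} (n r d : ℕ) (hd : 0 < d) (q : ℕ → ℕ → ℤ) (hq : ∀ i j, q i j = q j i)
    (Rs : List (List (ℕ × ℤ))) (Ws : List (List ℤ)) (hr : Ws.length = r)
    (h1 : chkR n r d Rs q = true) (h2 : chkW q Ws 0 Ws = true)
    (s : Finset V) (I : V → ℕ) (hI : ∀ x ∈ s, I x < n) :
    0 ≤ ∑ x ∈ s, ∑ y ∈ s, q (I x) (I y) := by
  have key : ∀ i < n, r ≤ i → (∀ p ∈ Rf r d Rs i, p.1 < r) ∧ ∀ j ≤ i, (d : ℤ) ^ 2 * q i j =
      ev (Rf r d Rs i) fun a => ev (Rf r d Rs j) fun b => q a b := by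
    intro i hi hri
    have h3 := imp_true (allb_true h1 hi) (Nat.ble_eq_true_of_le hri)
    cases h0 : ((Rf r d Rs i).all fun p => Nat.ble (Nat.succ p.1) r) with
    | false => rw [h0] at h3; exact Bool.noConfusion h3
    | true =>
      rw [h0] at h3
      refine ⟨fun p hp => ?_, fun j hj => ?_⟩
      · have := List.all_eq_true.1 h0 p hp
        exact Nat.le_of_ble_eq_true this
      · have h4 : allb (i + 1) (fun j => decide ((d : ℤ) * (d : ℤ) * q i j =
          ev (Rf r d Rs i) fun a => ev (Rf r d Rs j) fun b => q a b)) = true := h3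
        have := of_decide_eq_true (allb_true h4 (Nat.lt_succ_of_le hj))
        rw [← this]
        ring
  have small : ∀ i, i < r → Rf r d Rs i = [(i, (d : ℤ))] := by
    intro i hi
    unfold Rf
    have : Nat.ble r i = false := by
      rw [Bool.eq_false_iff]; intro h; exact absurd (Nat.le_of_ble_eq_true h) (not_le.2 hi)
    rw [this]
    rfl
  have evc : ∀ (l m : List (ℕ × ℤ)), (ev l fun a => ev m fun b => q a b) =
      ev m fun a => ev l fun b => q a b := by
    intro l m
    unfold ev
    induction l with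
    | nil =>
      simp
    | cons p l ih =>
      simp only [List.map_cons, List.sum_cons, ih, mul_add]
      rw [show (fun p_1 : ℕ × ℤ => p_1.2 * (p.2 * q p_1.1 p.1) +
        p_1.2 * (List.map (fun p => p.2 * q p_1.1 p.1) l).sum) =
        fun p_1 : ℕ × ℤ => p_1.2 * (p.2 * q p_1.1 p.1) +
        p_1.2 * (List.map (fun p => p.2 * q p_1.1 p.1) l).sum from rfl]
      rw [List.sum_map_add]
      congr 1
      rw [← List.sum_map_mul_left]
      congr 1
      refine List.map_congr_left fun x _ => ?_
      rw [hq p.1 x.1]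
      ring
  refine psd_of n r d hd q hq (Rf r d Rs) ?_ ?_ (fun a => Ws.getD a []) ?_ s I hI
  · intro i hi p hp
    rcases Nat.lt_or_ge i r with h | h
    · rw [small i h, List.mem_singleton] at hp
      rw [hp]
      exact h
    · exact (key i hi h).1 p hp
  · intro i hi j hj
    rcases Nat.lt_or_ge i r with h | h
    · rcases Nat.lt_or_ge j r with h' | h'
      · rw [small i h, small j h']
        simp only [ev, List.map_cons, List.map_nil, List.sum_cons, List.sum_nil, add_zero]
        ring
      · rw [hq i j, evc]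
        exact (key j hj h').2 i (by omega)
    · rcases Nat.le_total j i with h' | h'
      · exact (key i hi h).2 j h'
      · rw [hq i j, evc]
        exact (key j hj (h.trans h')).2 i h'
  · intro a ha
    have h3 := chkW_true q Ws Ws 0 h2 a (by rw [hr]; exact ha)
    rw [zero_add] at h3
    have h4 := absrow_eq (q a) (Ws.getD a []) Ws 0
    rw [hr] at h4
    simp only [zero_add] at h4
    have h5 : ∑ i ∈ range r, |q a i - dot (Ws.getD a []) (Ws.getD i [])| =
        |q a a - dot (Ws.getD a []) (Ws.getD a [])| +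
        ∑ i ∈ (range r).erase a, |q a i - dot (Ws.getD a []) (Ws.getD i [])| :=
      (add_sum_erase _ _ (mem_range.2 ha)).symm
    have h6 : (absrow (q a) (Ws.getD a []) 0 Ws : ℤ) ≤
        (Int.toNat (2 * (q a a - dot (Ws.getD a []) (Ws.getD a []))) : ℤ) := by exact_mod_cast h3
    rw [h4, h5] at h6
    have h7 : (0 : ℤ) ≤ ∑ i ∈ (range r).erase a, |q a i - dot (Ws.getD a []) (Ws.getD i [])| :=
      sum_nonneg fun _ _ => abs_nonneg _
    set E := q a a - dot (Ws.getD a []) (Ws.getD a []) with hE
    rcases le_or_gt 0 E with h8 | h8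
    · rw [Int.toNat_of_nonneg (by linarith), abs_of_nonneg h8] at h6
      linarith
    · rw [Int.toNat_of_nonpos (by linarith), abs_of_neg h8] at h6
      push_cast at h6
      linarith

end Pool.Agent.K3h27.OP
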