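import Mathlib

/-! Positive semidefinite forms with a certificate. -/

set_option autoImplicit false
open Finset

namespace Pool.Agent.K3h27.OP

def dot : List ℤ → List ℤ → ℤ
  | a :: l, b :: m => a * b + dot l m
  | _, _ => 0

theorem dot_eq : ∀ (l m : List ℤ) (M : ℕ), l.length ≤ M →
    dot l m = ∑ i ∈ range M, l.getD i 0 * m.getD i 0 := by
  intro l
  induction l with
  | nil => intro m M _; simp [dot]
  | cons a l ih =>
    intro m M h
    cases m with
    | nil => simp [dot]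
    | cons b m =>
      obtain ⟨M', rfl⟩ : ∃ M', M = M' + 1 := ⟨M - 1, by simp only [List.length_cons] at h; omega⟩
      rw [sum_range_succ', dot, ih m M' (by simp only [List.length_cons] at h; omega)]
      simp
      ring

def ev (l : List (ℕ × ℤ)) (f : ℕ → ℤ) : ℤ := (l.map fun p => p.2 * f p.1).sum

def cf (l : List (ℕ × ℤ)) (a : ℕ) : ℤ := (l.map fun p => if p.1 = a then p.2 else 0).sum

theorem ev_eq (r : ℕ) (f : ℕ → ℤ) : ∀ l : List (ℕ × ℤ), (∀ p ∈ l, p.1 < r) →
    ev l f = ∑ a ∈ range r, cf l a * f a := by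
  intro l
  induction l with
  | nil => intro _; simp [ev, cf]
  | cons p l ih =>
    intro h
    have h1 : ev (p :: l) f = p.2 * f p.1 + ev l f := by simp [ev]
    have h2 : ∀ a, cf (p :: l) a = (if p.1 = a then p.2 else 0) + cf l a := by
      intro a; simp [cf]
    rw [h1, ih fun p hp => h p (List.mem_cons_of_mem _ hp)]
    simp only [h2, add_mul, sum_add_distrib]
    congr 1
    rw [Finset.sum_eq_single p.1]
    · simp
    · intro b _ hb
      rw [if_neg (Ne.symm hb), zero_mul]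
    · intro hp
      exact absurd (mem_range.2 (h p (by simp))) hp

/-- a diagonally dominant symmetric form is nonnegative -/
theorem diag_dom (r : ℕ) (E : ℕ → ℕ → ℤ) (hs : ∀ a b, E a b = E b a)
    (hd : ∀ a < r, ∑ b ∈ (range r).erase a, |E a b| ≤ E a a) (y : ℕ → ℤ) :
    0 ≤ ∑ a ∈ range r, ∑ b ∈ range r, y a * y b * E a b := by
  have h1 : ∀ a ∈ range r, y a ^ 2 * ∑ b ∈ (range r).erase a, |E a b| +
      ∑ b ∈ (range r).erase a, y a * y b * E a b ≤ ∑ b ∈ range r, y a * y b * E a b := by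
    intro a ha
    rw [← add_sum_erase _ _ ha]
    have := mul_le_mul_of_nonneg_left (hd a (mem_range.1 ha)) (sq_nonneg (y a))
    nlinarith
  have h2 : (0 : ℤ) ≤ ∑ a ∈ range r, (y a ^ 2 * ∑ b ∈ (range r).erase a, |E a b| +
      ∑ b ∈ (range r).erase a, y a * y b * E a b) := by
    have h3 : ∑ a ∈ range r, ∑ b ∈ (range r).erase a, y a ^ 2 * |E a b| =
        ∑ a ∈ range r, ∑ b ∈ (range r).erase a, y b ^ 2 * |E a b| := by
      rw [Finset.sum_sigma', Finset.sum_sigma']
      refine sum_bij' (fun p _ => ⟨p.2, p.1⟩) (fun p _ => ⟨p.2, p.1⟩) ?_ ?_ ?_ ?_ ?_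
      · rintro ⟨a, b⟩ h
        simp only [mem_sigma, mem_erase] at h ⊢
        exact ⟨h.2.2, Ne.symm h.2.1, h.1⟩
      · rintro ⟨a, b⟩ h
        simp only [mem_sigma, mem_erase] at h ⊢
        exact ⟨h.2.2, Ne.symm h.2.1, h.1⟩
      · rintro ⟨a, b⟩ _; rfl
      · rintro ⟨a, b⟩ _; rfl
      · rintro ⟨a, b⟩ _
        simp only
        rw [hs a b]
    have h4 : (0 : ℤ) ≤ ∑ a ∈ range r, ∑ b ∈ (range r).erase a,
        (y a ^ 2 * |E a b| + y b ^ 2 * |E a b| + 2 * (y a * y b * E a b)) := by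
      refine sum_nonneg fun a _ => sum_nonneg fun b _ => ?_
      rcases le_total 0 (E a b) with h | h
      · rw [abs_of_nonneg h]
        nlinarith [mul_nonneg h (sq_nonneg (y a + y b))]
      · rw [abs_of_nonpos h]
        nlinarith [mul_nonneg (neg_nonneg.2 h) (sq_nonneg (y a - y b))]
    simp only [sum_add_distrib, ← mul_sum] at h3 h4 ⊢
    rw [← h3] at h4
    linarith
  exact h2.trans (sum_le_sum h1)

/-- the form `q` is nonnegative -/
theorem psd_of {V : Type} (n r d : ℕ) (hd : 0 < d) (q : ℕ → ℕ → ℤ) (hq : ∀ i j, q i j = q j i)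
    (R : ℕ → List (ℕ × ℤ)) (hR : ∀ i < n, ∀ p ∈ R i, p.1 < r)
    (h1 : ∀ i < n, ∀ j < n, (d : ℤ) ^ 2 * q i j = ev (R i) fun a => ev (R j) fun b => q a b)
    (W : ℕ → List ℤ)
    (h2 : ∀ a < r, ∑ b ∈ (range r).erase a, |q a b - dot (W a) (W b)| ≤
      q a a - dot (W a) (W a))
    (s : Finset V) (I : V → ℕ) (hI : ∀ x ∈ s, I x < n) :
    0 ≤ ∑ x ∈ s, ∑ y ∈ s, q (I x) (I y) := by
  have hpos : (0 : ℤ) < (d : ℤ) ^ 2 := by positivity
  refine nonneg_of_mul_nonneg_right ?_ hpos
  rw [mul_sum]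
  simp only [mul_sum]
  set y : ℕ → ℤ := fun a => ∑ x ∈ s, cf (R (I x)) a with hy
  have e1 : ∑ x ∈ s, ∑ z ∈ s, (d : ℤ) ^ 2 * q (I x) (I z) =
      ∑ a ∈ range r, ∑ b ∈ range r, y a * y b * q a b := by
    have f1 : ∀ x ∈ s, ∀ z ∈ s, (d : ℤ) ^ 2 * q (I x) (I z) =
        ∑ a ∈ range r, ∑ b ∈ range r, cf (R (I x)) a * cf (R (I z)) b * q a b := by
      intro x hx z hz
      rw [h1 _ (hI x hx) _ (hI z hz), ev_eq r _ _ (hR _ (hI x hx))]
      refine sum_congr rfl fun a _ => ?_
      rw [ev_eq r _ _ (hR _ (hI z hz)), mul_sum]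
      refine sum_congr rfl fun b _ => ?_
      ring
    rw [sum_congr rfl fun x hx => sum_congr rfl fun z hz => f1 x hx z hz]
    have f2 : ∑ x ∈ s, ∑ z ∈ s, ∑ a ∈ range r, ∑ b ∈ range r,
        cf (R (I x)) a * cf (R (I z)) b * q a b =
        ∑ a ∈ range r, ∑ b ∈ range r, ∑ x ∈ s, ∑ z ∈ s, cf (R (I x)) a * cf (R (I z)) b * q a b := by
      have g1 : ∀ x ∈ s, ∑ z ∈ s, ∑ a ∈ range r, ∑ b ∈ range r,
          cf (R (I x)) a * cf (R (I z)) b * q a b = ∑ a ∈ range r, ∑ b ∈ range r, ∑ z ∈ s,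
          cf (R (I x)) a * cf (R (I z)) b * q a b := by
        intro x _
        rw [sum_comm]
        refine sum_congr rfl fun a _ => ?_
        rw [sum_comm]
      rw [sum_congr rfl g1, sum_comm]
      refine sum_congr rfl fun a _ => ?_
      rw [sum_comm]
    rw [f2]
    refine sum_congr rfl fun a _ => sum_congr rfl fun b _ => ?_
    rw [hy]
    simp only [sum_mul, mul_sum]
    rw [sum_comm]
  rw [e1]
  have e2 : ∑ a ∈ range r, ∑ b ∈ range r, y a * y b * q a b =
      (∑ a ∈ range r, ∑ b ∈ range r, y a * y b * dot (W a) (W b)) +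
      ∑ a ∈ range r, ∑ b ∈ range r, y a * y b * (q a b - dot (W a) (W b)) := by
    rw [← sum_add_distrib]
    refine sum_congr rfl fun a _ => ?_
    rw [← sum_add_distrib]
    refine sum_congr rfl fun b _ => ?_
    ring
  rw [e2]
  obtain ⟨M, hM⟩ : ∃ M, ∀ a ∈ range r, (W a).length ≤ M :=
    ⟨∑ a ∈ range r, (W a).length, fun a ha => single_le_sum (f := fun a => (W a).length)
      (fun _ _ => Nat.zero_le _) ha⟩
  have dsym : ∀ l m : List ℤ, dot l m = dot m l := by
    intro l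
    induction l with
    | nil => intro m; cases m <;> rfl
    | cons a l ih =>
      intro m
      cases m with
      | nil => rfl
      | cons b m => rw [dot, dot, ih m, mul_comm]
  have e3 : 0 ≤ ∑ a ∈ range r, ∑ b ∈ range r, y a * y b * dot (W a) (W b) := by
    have g : ∑ a ∈ range r, ∑ b ∈ range r, y a * y b * dot (W a) (W b) =
        ∑ i ∈ range M, (∑ a ∈ range r, y a * (W a).getD i 0) ^ 2 := by
      have g1 : ∀ a ∈ range r, ∑ b ∈ range r, y a * y b * dot (W a) (W b) =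
          ∑ i ∈ range M, ∑ b ∈ range r, y a * (W a).getD i 0 * (y b * (W b).getD i 0) := by
        intro a ha
        rw [sum_comm]
        refine sum_congr rfl fun b _ => ?_
        rw [dot_eq (W a) (W b) M (hM a ha), mul_sum]
        refine sum_congr rfl fun i _ => ?_
        ring
      rw [sum_congr rfl g1, sum_comm]
      refine sum_congr rfl fun i _ => ?_
      rw [pow_two, sum_mul_sum]
    rw [g]
    exact sum_nonneg fun i _ => sq_nonneg _
  have e4 := diag_dom r (fun a b => q a b - dot (W a) (W b))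
    (fun a b => by rw [hq a b, dsym]) h2 y
  linarith

end Pool.Agent.K3h27.OP
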