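import Pool.Agent.K3h27.OP.Deg
import Pool.Agent.K3h27.OP.Psd

/-! Lower bounds for the square terms. -/

set_option autoImplicit false
set_option linter.unusedVariables false
set_option maxHeartbeats 1000000
open Finset

namespace Pool.Agent.K3h27.OP

variable {V : Type} [Fintype V] [LinearOrder V] {H : Finset (Finset V)}

/-- the index of a flag on five vertices is in the range of its type -/
def IxOk (ok : ℕ → Bool) (ix : ℕ → ℕ → ℕ) (N : ℕ → ℕ) : Prop :=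
  ∀ b0 b1 b2 b3 b4 b5 b6 b7 b8 b9 : ℕ, b0 ≤ 1 → b1 ≤ 1 → b2 ≤ 1 → b3 ≤ 1 → b4 ≤ 1 → b5 ≤ 1 →
    b6 ≤ 1 → b7 ≤ 1 → b8 ≤ 1 → b9 ≤ 1 → ok (c4 b0 b1 b2 b3) = true → ok (c4 b0 b4 b5 b6) = true →
    ok (c4 b1 b4 b7 b8) = true → ok (c4 b2 b5 b7 b9) = true → ok (c4 b3 b6 b8 b9) = true →
    ix 0 (c10 b0 b1 b2 b3 b4 b5 b6 b7 b8 b9) < N (c4 b3 b6 b8 b9) ∧
    ix 1 (c10 b0 b1 b2 b3 b4 b5 b6 b7 b8 b9) < N (c4 b2 b5 b7 b9) ∧
    ix 2 (c10 b0 b1 b2 b3 b4 b5 b6 b7 b8 b9) < N (c4 b1 b4 b7 b8) ∧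
    ix 3 (c10 b0 b1 b2 b3 b4 b5 b6 b7 b8 b9) < N (c4 b0 b4 b5 b6) ∧
    ix 4 (c10 b0 b1 b2 b3 b4 b5 b6 b7 b8 b9) < N (c4 b0 b1 b2 b3)

theorem ok_sk {ok : ℕ → Bool} (hok : ∀ T ∈ P V 4, ok (C4 H T) = true) (κ : Fin 4 ↪o V) :
    ok (cod4 H κ) = true := by
  rw [← C4_img]
  exact hok _ (mem_P.2 (card_img κ))

theorem exists_ins {k : ℕ} {T : Finset V} (hT : T.card = k) {x : V} (hx : x ∉ T) :
    ∃ (κ : Fin (k + 1) ↪o V) (p : Fin (k + 1)), insert x T = img κ ∧ x = κ p ∧ T = img (sk p κ) := by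
  have h5 : (insert x T).card = k + 1 := by rw [card_insert_of_notMem hx, hT]
  obtain ⟨κ, hκ⟩ := exists_img h5
  have hx2 : x ∈ img κ := by rw [← hκ]; exact mem_insert_self x T
  obtain ⟨p, hp⟩ : ∃ p, κ p = x := by simpa [img] using hx2
  refine ⟨κ, p, hκ, hp.symm, ?_⟩
  rw [← erase_img κ p, ← hκ, hp, erase_insert hx]

theorem ix_lt {ok : ℕ → Bool} (hok : ∀ T ∈ P V 4, ok (C4 H T) = true) {ix : ℕ → ℕ → ℕ}
    {N : ℕ → ℕ} (hix : IxOk ok ix N) {T : Finset V} (hT : T ∈ P V 4) {x : V} (hx : x ∉ T) :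
    ix (pos T x) (C5 H (insert x T)) < N (C4 H T) := by
  obtain ⟨κ, p, h1, h2, h3⟩ := exists_ins (mem_P.1 hT) hx
  have h4 : pos T x = p := by
    have := pos_img κ p
    rw [erase_img, ← h3, ← h2] at this
    exact this
  rw [h1, C5_img, h4, h3, C4_img]
  have o0 := ok_sk hok (sk 4 κ)
  have o1 := ok_sk hok (sk 3 κ)
  have o2 := ok_sk hok (sk 2 κ)
  have o3 := ok_sk hok (sk 1 κ)
  have o4 := ok_sk hok (sk 0 κ)
  have h := hix _ _ _ _ _ _ _ _ _ _ (e_le H (κ 0) (κ 1) (κ 2)) (e_le H (κ 0) (κ 1) (κ 3))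
    (e_le H (κ 0) (κ 2) (κ 3)) (e_le H (κ 1) (κ 2) (κ 3)) (e_le H (κ 0) (κ 1) (κ 4))
    (e_le H (κ 0) (κ 2) (κ 4)) (e_le H (κ 1) (κ 2) (κ 4)) (e_le H (κ 0) (κ 3) (κ 4))
    (e_le H (κ 1) (κ 3) (κ 4)) (e_le H (κ 2) (κ 3) (κ 4)) o0 o1 o2 o3 o4
  obtain ⟨i0, i1, i2, i3, i4⟩ := h
  fin_cases p
  · exact i0
  · exact i1
  · exact i2
  · exact i3
  · exact i4

theorem lower4 {ok : ℕ → Bool} (hok : ∀ T ∈ P V 4, ok (C4 H T) = true) {ix : ℕ → ℕ → ℕ}
    {N : ℕ → ℕ} (hix : IxOk ok ix N) {q : ℕ → ℕ → ℕ → ℤ}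
    (hpsd : ∀ t, ok t = true → ∀ (s : Finset V) (I : V → ℕ), (∀ x ∈ s, I x < N t) →
      0 ≤ ∑ x ∈ s, ∑ y ∈ s, q t (I x) (I y))
    {M : ℤ} (hM : 0 ≤ M) (hdiag : ∀ t, ok t = true → ∀ i < N t, q t i i ≤ M) :
    -(M * (Fintype.card V).choose 4 * Fintype.card V) ≤
      ∑ T ∈ P V 4, ∑ x ∈ Tᶜ, ∑ y ∈ Tᶜ.erase x, Qt H ix q T x y := by
  have h1 : ∀ T ∈ P V 4, -(M * Fintype.card V) ≤ ∑ x ∈ Tᶜ, ∑ y ∈ Tᶜ.erase x, Qt H ix q T x y := by
    intro T hT
    have h2 := hpsd (C4 H T) (hok T hT) Tᶜ (fun x => ix (pos T x) (C5 H (insert x T)))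
      fun x hx => ix_lt hok hix hT (mem_compl.1 hx)
    have h3 : ∑ x ∈ Tᶜ, ∑ y ∈ Tᶜ, Qt H ix q T x y =
        ∑ x ∈ Tᶜ, Qt H ix q T x x + ∑ x ∈ Tᶜ, ∑ y ∈ Tᶜ.erase x, Qt H ix q T x y := by
      rw [← sum_add_distrib]
      exact sum_congr rfl fun x hx => (add_sum_erase _ _ hx).symm
    have h4 : ∑ x ∈ Tᶜ, Qt H ix q T x x ≤ M * Fintype.card V := by
      calc ∑ x ∈ Tᶜ, Qt H ix q T x x ≤ ∑ x ∈ Tᶜ, M :=
            sum_le_sum fun x hx => hdiag _ (hok T hT) _ (ix_lt hok hix hT (mem_compl.1 hx))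
        _ = Tᶜ.card * M := by rw [sum_const, nsmul_eq_mul]
        _ ≤ M * Fintype.card V := by
            rw [mul_comm]
            exact mul_le_mul_of_nonneg_left (by exact_mod_cast card_le_univ Tᶜ) hM
    have h5 : 0 ≤ ∑ x ∈ Tᶜ, ∑ y ∈ Tᶜ, Qt H ix q T x y := h2
    linarith
  have h6 := sum_le_sum h1
  rw [sum_const, nsmul_eq_mul] at h6
  have h7 : (P V 4).card = (Fintype.card V).choose 4 := by
    unfold P
    rw [card_powersetCard, card_univ]
  rw [h7] at h6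
  refine le_trans (le_of_eq ?_) h6
  ring

/-! ### the degrees -/

theorem ff_abs (A : Finset V) : |ff H A| ≤ 5 := by
  unfold ff
  split_ifs <;> norm_num

theorem big_inter (A : Finset V) (hA : A ∈ P V 3) :
    ((P V 3).filter fun B => 2 ≤ (A ∩ B).card).card ≤ 3 * Fintype.card V := by
  -- such a set is a pair of elements of `A` together with one element
  have h1 : (P V 3).filter (fun B => 2 ≤ (A ∩ B).card) ⊆
      (A.powersetCard 2 ×ˢ (univ : Finset V)).image fun p => insert p.2 p.1 := by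
    intro B hB
    rw [mem_filter, mem_P] at hB
    obtain ⟨h3, h2⟩ := hB
    obtain ⟨C, hC, hC2⟩ := exists_subset_card_eq h2
    have hCB : C ⊆ B := hC.trans inter_subset_right
    have h4 : (B \ C).card = 1 := by rw [card_sdiff_of_subset hCB, h3, hC2]
    obtain ⟨z, hz⟩ := card_eq_one.1 h4
    rw [mem_image]
    refine ⟨(C, z), ?_, ?_⟩
    · rw [mem_product, mem_powersetCard]
      exact ⟨⟨hC.trans inter_subset_left, hC2⟩, mem_univ _⟩
    · show insert z C = B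
      have : B = C ∪ (B \ C) := (union_sdiff_of_subset hCB).symm
      rw [this, hz, union_comm]
      rfl
  refine (card_le_card h1).trans (card_image_le.trans ?_)
  rw [card_product, card_powersetCard, mem_P.1 hA, card_univ]
  norm_num [Nat.choose]

theorem lowerW : -(225 * ((Fintype.card V).choose 3 : ℤ) * Fintype.card V) ≤
    ∑ A ∈ P V 3, ∑ B ∈ (P V 3).filter (fun B => (A ∩ B).card = 1), ff H A * ff H B := by
  have h1 : 0 ≤ ∑ A ∈ P V 3, ∑ B ∈ P V 3, ((A ∩ B).card : ℤ) * (ff H A * ff H B) := by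
    have h2 : ∑ A ∈ P V 3, ∑ B ∈ P V 3, ((A ∩ B).card : ℤ) * (ff H A * ff H B) =
        ∑ v : V, (∑ A ∈ P V 3, if v ∈ A then ff H A else 0) ^ 2 := by
      have h3 : ∀ A B : Finset V, ((A ∩ B).card : ℤ) * (ff H A * ff H B) =
          ∑ v : V, (if v ∈ A then ff H A else 0) * (if v ∈ B then ff H B else 0) := by
        intro A B
        have : ∀ v : V, (if v ∈ A then ff H A else 0) * (if v ∈ B then ff H B else 0) =
            if v ∈ A ∩ B then ff H A * ff H B else 0 := by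
          intro v
          by_cases h1 : v ∈ A <;> by_cases h2 : v ∈ B <;> simp [h1, h2]
        simp only [this]
        rw [← sum_filter, filter_mem_eq_inter, univ_inter, sum_const, nsmul_eq_mul]
      simp only [h3, pow_two, sum_mul_sum]
      have h4 : ∀ A ∈ P V 3, ∑ B ∈ P V 3, ∑ v : V,
          (if v ∈ A then ff H A else 0) * (if v ∈ B then ff H B else 0) =
          ∑ v : V, ∑ B ∈ P V 3,
          (if v ∈ A then ff H A else 0) * (if v ∈ B then ff H B else 0) := fun A _ => sum_comm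
      rw [sum_congr rfl h4, sum_comm]
    rw [h2]
    exact sum_nonneg fun v _ => sq_nonneg _
  have h2 : ∀ A ∈ P V 3, ∑ B ∈ P V 3, ((A ∩ B).card : ℤ) * (ff H A * ff H B) ≤
      ∑ B ∈ (P V 3).filter (fun B => (A ∩ B).card = 1), ff H A * ff H B + 225 * Fintype.card V := by
    intro A hA
    have h3 : ∀ B ∈ P V 3, ((A ∩ B).card : ℤ) * (ff H A * ff H B) ≤
        (if (A ∩ B).card = 1 then ff H A * ff H B else 0) +
          (if 2 ≤ (A ∩ B).card then 75 else 0) := by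
      intro B hB
      have hc : (A ∩ B).card ≤ 3 := by
        rw [← mem_P.1 hA]
        exact card_le_card inter_subset_left
      have h4 : ff H A * ff H B ≤ 25 := by
        have h5 := abs_mul (ff H A) (ff H B)
        have h6 := mul_le_mul (ff_abs (H := H) A) (ff_abs (H := H) B) (abs_nonneg _) (by norm_num)
        have h7 := le_abs_self (ff H A * ff H B)
        linarith
      generalize (A ∩ B).card = c at hc ⊢
      interval_cases c
      · simp
      · simp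
      · simp; linarith
      · simp; linarith
    refine (sum_le_sum h3).trans ?_
    rw [sum_add_distrib, ← sum_filter, ← sum_filter, sum_const, nsmul_eq_mul]
    have h4 := big_inter A hA
    have h5 : (((P V 3).filter fun B => 2 ≤ (A ∩ B).card).card : ℤ) ≤ 3 * Fintype.card V := by
      exact_mod_cast h4
    linarith
  have h3 := sum_le_sum h2
  rw [sum_add_distrib, sum_const, nsmul_eq_mul] at h3
  have h7 : (P V 3).card = (Fintype.card V).choose 3 := by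
    unfold P
    rw [card_powersetCard, card_univ]
  rw [h7] at h3
  have h8 : ((Fintype.card V).choose 3 : ℤ) * (225 * (Fintype.card V : ℤ)) =
    225 * ((Fintype.card V).choose 3 : ℤ) * Fintype.card V := by ring
  linarith

end Pool.Agent.K3h27.OP
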