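import Pool.Agent.K3h27.OP.Two

/-! Lower bound for the square terms with two fixed and two further vertices. -/

set_option autoImplicit false
set_option linter.unusedVariables false
set_option maxHeartbeats 1000000
open Finset

namespace Pool.Agent.K3h27.OP

/-- two sets of four with exactly two common vertices span a set of six -/
theorem dc2 {V : Type} [Fintype V] [DecidableEq V] (g : Finset V → Finset V → ℤ) :
    ∑ A ∈ P V 4, ∑ B ∈ (P V 4).filter (fun B => (A ∩ B).card = 2), g A B =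
      ∑ R ∈ P V 6, ∑ A ∈ R.powersetCard 4, ∑ B ∈ (R.powersetCard 4).filter
        (fun B => (A ∩ B).card = 2), g A B := by
  rw [sum_sigma', sum_sigma', sum_sigma']
  refine sum_bij' (fun p _ => ⟨⟨p.1 ∪ p.2, p.1⟩, p.2⟩) (fun p _ => ⟨p.1.2, p.2⟩) ?_ ?_ ?_ ?_ ?_
  · rintro ⟨A, B⟩ h
    simp only [mem_sigma, mem_P, mem_powersetCard, mem_filter] at h ⊢
    obtain ⟨hA, hB, h1⟩ := h
    refine ⟨⟨?_, subset_union_left, hA⟩, ⟨subset_union_right, hB⟩, h1⟩
    have := card_union_add_card_inter A B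
    omega
  · rintro ⟨⟨R, A⟩, B⟩ h
    simp only [mem_sigma, mem_P, mem_powersetCard, mem_filter] at h ⊢
    exact ⟨h.1.2.2, h.2.1.2, h.2.2⟩
  · rintro ⟨A, B⟩ h
    rfl
  · rintro ⟨⟨R, A⟩, B⟩ h
    simp only [mem_sigma, mem_P, mem_powersetCard, mem_filter] at h
    obtain ⟨⟨hR, hAR, hA⟩, ⟨hBR, hB⟩, h1⟩ := h
    have e : A ∪ B = R := by
      apply eq_of_subset_of_card_le (union_subset hAR hBR)
      have := card_union_add_card_inter A B
      omega
    simp only [e]
  · rintro ⟨A, B⟩ h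
    rfl

variable {V : Type} [Fintype V] [LinearOrder V] {H : Finset (Finset V)}

/-- the indices of the flags with two fixed vertices are in the range -/
def Ix2Ok (ok : ℕ → Bool) (ix : ℕ → ℕ → ℕ) (N : ℕ) : Prop :=
  ∀ b0 b1 b2 b3 : ℕ, b0 ≤ 1 → b1 ≤ 1 → b2 ≤ 1 → b3 ≤ 1 → ok (c4 b0 b1 b2 b3) = true →
    ix 3 (c4 b0 b1 b2 b3) < N ∧ ix 5 (c4 b0 b1 b2 b3) < N ∧ ix 6 (c4 b0 b1 b2 b3) < N ∧
    ix 9 (c4 b0 b1 b2 b3) < N ∧ ix 10 (c4 b0 b1 b2 b3) < N ∧ ix 12 (c4 b0 b1 b2 b3) < N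

theorem ix2_lt {ok : ℕ → Bool} (hok : ∀ T ∈ P V 4, ok (C4 H T) = true) {ix : ℕ → ℕ → ℕ}
    {N : ℕ} (hix : Ix2Ok ok ix N) {K T : Finset V} (hK : K ∈ P V 4) (hT : T ∈ K.powersetCard 2) :
    ix (msk K T) (C4 H K) < N := by
  obtain ⟨κ, rfl⟩ := exists_img (mem_P.1 hK)
  rw [mem_powersetCard] at hT
  obtain ⟨x, y, hxy, rfl⟩ := card_eq_two.1 hT.2
  have hx : x ∈ img κ := hT.1 (by simp)
  have hy : y ∈ img κ := hT.1 (by simp)
  obtain ⟨a, rfl⟩ : ∃ p, κ p = x := by simpa [img] using hx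
  obtain ⟨b, rfl⟩ : ∃ p, κ p = y := by simpa [img] using hy
  have hab : a ≠ b := fun h => hxy (by rw [h])
  rw [msk_img κ a b hab, C4_img]
  have h := hix _ _ _ _ (e_le H (κ 0) (κ 1) (κ 2)) (e_le H (κ 0) (κ 1) (κ 3))
    (e_le H (κ 0) (κ 2) (κ 3)) (e_le H (κ 1) (κ 2) (κ 3)) (ok_sk hok κ)
  obtain ⟨h3, h5, h6, h9, h10, h12⟩ := h
  fin_cases a <;> fin_cases b
  · exact absurd rfl hab
  · exact h3
  · exact h5
  · exact h9
  · exact h3
  · exact absurd rfl hab
  · exact h6
  · exact h10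
  · exact h5
  · exact h6
  · exact absurd rfl hab
  · exact h12
  · exact h9
  · exact h10
  · exact h12
  · exact absurd rfl hab

theorem big_inter4 (A : Finset V) (hA : A ∈ P V 4) :
    ((P V 4).filter fun B => 3 ≤ (A ∩ B).card).card ≤ 4 * Fintype.card V := by
  have h1 : (P V 4).filter (fun B => 3 ≤ (A ∩ B).card) ⊆
      (A.powersetCard 3 ×ˢ (univ : Finset V)).image fun p => insert p.2 p.1 := by
    intro B hB
    rw [mem_filter, mem_P] at hB
    obtain ⟨h3, h2⟩ := hB
    obtain ⟨C, hC, hC2⟩ := exists_subset_card_eq h2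
    have hCB : C ⊆ B := hC.trans inter_subset_right
    have h4 : (B \ C).card = 1 := by rw [card_sdiff_of_subset hCB, h3, hC2]
    obtain ⟨z, hz⟩ := card_eq_one.1 h4
    rw [mem_image]
    refine ⟨(C, z), ?_, ?_⟩
    · rw [mem_product, mem_powersetCard]
      exact ⟨⟨hC.trans inter_subset_left, hC2⟩, mem_univ _⟩
    · show insert z C = B
      have : B = C ∪ (B \ C) := (union_sdiff_of_subset hCB).symm
      rw [this, hz, union_comm]
      rfl
  refine (card_le_card h1).trans (card_image_le.trans ?_)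
  rw [card_product, card_powersetCard, mem_P.1 hA, card_univ]
  norm_num [Nat.choose]

theorem lower2 {ok : ℕ → Bool} (hok : ∀ T ∈ P V 4, ok (C4 H T) = true) {ix : ℕ → ℕ → ℕ}
    {N : ℕ} (hix : Ix2Ok ok ix N) {q : ℕ → ℕ → ℤ}
    (hpsd : ∀ (s : Finset (Finset V)) (I : Finset V → ℕ), (∀ x ∈ s, I x < N) →
      0 ≤ ∑ x ∈ s, ∑ y ∈ s, q (I x) (I y))
    {M : ℤ} (hM : 0 ≤ M) (hmax : ∀ i < N, ∀ j < N, q i j ≤ M) :
    -(24 * M * (Fintype.card V).choose 4 * Fintype.card V) ≤
      ∑ K ∈ P V 4, ∑ K' ∈ (P V 4).filter (fun K' => (K ∩ K').card = 2), Q2t H ix q K K' := by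
  have h1 : 0 ≤ ∑ K ∈ P V 4, ∑ K' ∈ P V 4, ∑ T ∈ (K ∩ K').powersetCard 2,
      q (ix (msk K T) (C4 H K)) (ix (msk K' T) (C4 H K')) := by
    have h2 : ∑ K ∈ P V 4, ∑ K' ∈ P V 4, ∑ T ∈ (K ∩ K').powersetCard 2,
        q (ix (msk K T) (C4 H K)) (ix (msk K' T) (C4 H K')) =
        ∑ T ∈ P V 2, ∑ K ∈ (P V 4).filter (T ⊆ ·), ∑ K' ∈ (P V 4).filter (T ⊆ ·),
          q (ix (msk K T) (C4 H K)) (ix (msk K' T) (C4 H K')) := by
      have h3 : ∀ K K' : Finset V, ∀ f : Finset V → ℤ, ∑ T ∈ (K ∩ K').powersetCard 2, f T =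
          ∑ T ∈ P V 2, if T ⊆ K then (if T ⊆ K' then f T else 0) else 0 := by
        intro K K' f
        have h4 : (K ∩ K').powersetCard 2 = (P V 2).filter (fun T => T ⊆ K ∧ T ⊆ K') := by
          ext T
          rw [mem_powersetCard, mem_filter, mem_P, subset_inter_iff]
          tauto
        rw [h4, sum_filter]
        refine sum_congr rfl fun T _ => ?_
        by_cases h5 : T ⊆ K <;> by_cases h6 : T ⊆ K' <;> simp [h5, h6]
      simp only [h3]
      have h4 : ∀ K ∈ P V 4, ∑ K' ∈ P V 4, ∑ T ∈ P V 2, (if T ⊆ K then (if T ⊆ K' then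
          q (ix (msk K T) (C4 H K)) (ix (msk K' T) (C4 H K')) else 0) else 0) =
          ∑ T ∈ P V 2, ∑ K' ∈ P V 4, (if T ⊆ K then (if T ⊆ K' then
          q (ix (msk K T) (C4 H K)) (ix (msk K' T) (C4 H K')) else 0) else 0) :=
        fun K _ => sum_comm
      rw [sum_congr rfl h4, sum_comm]
      refine sum_congr rfl fun T _ => ?_
      rw [sum_filter]
      refine sum_congr rfl fun K _ => ?_
      split_ifs
      · rw [sum_filter]
      · simp
    rw [h2]
    refine sum_nonneg fun T hT => hpsd _ (fun K => ix (msk K T) (C4 H K)) fun K hK => ?_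
    rw [mem_filter] at hK
    exact ix2_lt hok hix hK.1 (mem_powersetCard.2 ⟨hK.2, mem_P.1 hT⟩)
  have h2 : ∀ K ∈ P V 4, ∑ K' ∈ P V 4, ∑ T ∈ (K ∩ K').powersetCard 2,
      q (ix (msk K T) (C4 H K)) (ix (msk K' T) (C4 H K')) ≤
      ∑ K' ∈ (P V 4).filter (fun K' => (K ∩ K').card = 2), Q2t H ix q K K' +
        24 * M * Fintype.card V := by
    intro K hK
    have h3 : ∀ K' ∈ P V 4, ∑ T ∈ (K ∩ K').powersetCard 2,
        q (ix (msk K T) (C4 H K)) (ix (msk K' T) (C4 H K')) ≤
        (if (K ∩ K').card = 2 then Q2t H ix q K K' else 0) +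
          (if 3 ≤ (K ∩ K').card then 6 * M else 0) := by
      intro K' hK'
      have hc : (K ∩ K').card ≤ 4 := by
        rw [← mem_P.1 hK]
        exact card_le_card inter_subset_left
      have h4 : ∑ T ∈ (K ∩ K').powersetCard 2,
          q (ix (msk K T) (C4 H K)) (ix (msk K' T) (C4 H K')) ≤ ((K ∩ K').card.choose 2 : ℕ) * M := by
        rw [← card_powersetCard, ← nsmul_eq_mul, ← sum_const]
        refine sum_le_sum fun T hT => ?_
        rw [mem_powersetCard] at hT
        exact hmax _ (ix2_lt hok hix hK (mem_powersetCard.2 ⟨hT.1.trans inter_subset_left, hT.2⟩)) _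
          (ix2_lt hok hix hK' (mem_powersetCard.2 ⟨hT.1.trans inter_subset_right, hT.2⟩))
      by_cases h5 : (K ∩ K').card = 2
      · have h6 : (K ∩ K').powersetCard 2 = {K ∩ K'} := by
          rw [← h5, powersetCard_self]
        rw [h6, sum_singleton, if_pos h5, if_neg (by omega), add_zero]
        exact le_refl _
      · rw [if_neg h5]
        generalize (K ∩ K').card = c at hc h4 h5 ⊢
        interval_cases c
        · simpa using h4
        · simpa using h4
        · exact absurd rfl h5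
        · rw [if_pos (by norm_num)]
          norm_num [Nat.choose] at h4
          linarith
        · rw [if_pos (by norm_num)]
          norm_num [Nat.choose] at h4
          linarith
    refine (sum_le_sum h3).trans ?_
    rw [sum_add_distrib, ← sum_filter, ← sum_filter, sum_const, nsmul_eq_mul]
    have h4 := big_inter4 K hK
    have h5 : (((P V 4).filter fun B => 3 ≤ (K ∩ B).card).card : ℤ) ≤ 4 * Fintype.card V := by
      exact_mod_cast h4
    nlinarith
  have h3 := h1.trans (sum_le_sum h2)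
  rw [sum_add_distrib, sum_const, nsmul_eq_mul] at h3
  have h7 : (P V 4).card = (Fintype.card V).choose 4 := by
    unfold P
    rw [card_powersetCard, card_univ]
  rw [h7] at h3
  have h8 : ((Fintype.card V).choose 4 : ℤ) * (24 * M * (Fintype.card V : ℤ)) =
    24 * M * ((Fintype.card V).choose 4 : ℤ) * Fintype.card V := by ring
  linarith

end Pool.Agent.K3h27.OP
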