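import Pool.Agent.K3h27.OP.Code

/-! The contributions to a set of six vertices. -/

set_option autoImplicit false
set_option linter.unusedVariables false
set_option maxHeartbeats 4000000
open Finset

namespace Pool.Agent.K3h27.OP

/-- the sum over the pairs of vertices -/
def pairSum (ix : ℕ → ℕ → ℕ) (q : ℕ → ℕ → ℕ → ℤ) (b012 b013 b023 b123 b014 b024 b124 b034 b134 b234 b015 b025 b125 b035 b135 b235 b045 b145 b245 b345 : ℕ) : ℤ :=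
  q (c4 b234 b235 b245 b345) (ix 0 (c10 b023 b024 b034 b234 b025 b035 b235 b045 b245 b345)) (ix 0 (c10 b123 b124 b134 b234 b125 b135 b235 b145 b245 b345)) +
    q (c4 b134 b135 b145 b345) (ix 0 (c10 b013 b014 b034 b134 b015 b035 b135 b045 b145 b345)) (ix 1 (c10 b123 b124 b134 b234 b125 b135 b235 b145 b245 b345)) +
    q (c4 b124 b125 b145 b245) (ix 0 (c10 b012 b014 b024 b124 b015 b025 b125 b045 b145 b245)) (ix 2 (c10 b123 b124 b134 b234 b125 b135 b235 b145 b245 b345)) +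
    q (c4 b123 b125 b135 b235) (ix 0 (c10 b012 b013 b023 b123 b015 b025 b125 b035 b135 b235)) (ix 3 (c10 b123 b124 b134 b234 b125 b135 b235 b145 b245 b345)) +
    q (c4 b123 b124 b134 b234) (ix 0 (c10 b012 b013 b023 b123 b014 b024 b124 b034 b134 b234)) (ix 4 (c10 b123 b124 b134 b234 b125 b135 b235 b145 b245 b345)) +
    q (c4 b034 b035 b045 b345) (ix 1 (c10 b013 b014 b034 b134 b015 b035 b135 b045 b145 b345)) (ix 1 (c10 b023 b024 b034 b234 b025 b035 b235 b045 b245 b345)) +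
    q (c4 b024 b025 b045 b245) (ix 1 (c10 b012 b014 b024 b124 b015 b025 b125 b045 b145 b245)) (ix 2 (c10 b023 b024 b034 b234 b025 b035 b235 b045 b245 b345)) +
    q (c4 b023 b025 b035 b235) (ix 1 (c10 b012 b013 b023 b123 b015 b025 b125 b035 b135 b235)) (ix 3 (c10 b023 b024 b034 b234 b025 b035 b235 b045 b245 b345)) +
    q (c4 b023 b024 b034 b234) (ix 1 (c10 b012 b013 b023 b123 b014 b024 b124 b034 b134 b234)) (ix 4 (c10 b023 b024 b034 b234 b025 b035 b235 b045 b245 b345)) +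
    q (c4 b014 b015 b045 b145) (ix 2 (c10 b012 b014 b024 b124 b015 b025 b125 b045 b145 b245)) (ix 2 (c10 b013 b014 b034 b134 b015 b035 b135 b045 b145 b345)) +
    q (c4 b013 b015 b035 b135) (ix 2 (c10 b012 b013 b023 b123 b015 b025 b125 b035 b135 b235)) (ix 3 (c10 b013 b014 b034 b134 b015 b035 b135 b045 b145 b345)) +
    q (c4 b013 b014 b034 b134) (ix 2 (c10 b012 b013 b023 b123 b014 b024 b124 b034 b134 b234)) (ix 4 (c10 b013 b014 b034 b134 b015 b035 b135 b045 b145 b345)) +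
    q (c4 b012 b015 b025 b125) (ix 3 (c10 b012 b013 b023 b123 b015 b025 b125 b035 b135 b235)) (ix 3 (c10 b012 b014 b024 b124 b015 b025 b125 b045 b145 b245)) +
    q (c4 b012 b014 b024 b124) (ix 3 (c10 b012 b013 b023 b123 b014 b024 b124 b034 b134 b234)) (ix 4 (c10 b012 b014 b024 b124 b015 b025 b125 b045 b145 b245)) +
    q (c4 b012 b013 b023 b123) (ix 4 (c10 b012 b013 b023 b123 b014 b024 b124 b034 b134 b234)) (ix 4 (c10 b012 b013 b023 b123 b015 b025 b125 b035 b135 b235))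

/-- all subsets of four vertices satisfy `ok` -/
def Ok6 (ok : ℕ → Prop) (b012 b013 b023 b123 b014 b024 b124 b034 b134 b234 b015 b025 b125 b035 b135 b235 b045 b145 b245 b345 : ℕ) : Prop :=
  ok (c4 b012 b013 b023 b123) ∧
    ok (c4 b012 b014 b024 b124) ∧
    ok (c4 b013 b014 b034 b134) ∧
    ok (c4 b023 b024 b034 b234) ∧
    ok (c4 b123 b124 b134 b234) ∧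
    ok (c4 b012 b015 b025 b125) ∧
    ok (c4 b013 b015 b035 b135) ∧
    ok (c4 b023 b025 b035 b235) ∧
    ok (c4 b123 b125 b135 b235) ∧
    ok (c4 b014 b015 b045 b145) ∧
    ok (c4 b024 b025 b045 b245) ∧
    ok (c4 b124 b125 b145 b245) ∧
    ok (c4 b034 b035 b045 b345) ∧
    ok (c4 b134 b135 b145 b345) ∧
    ok (c4 b234 b235 b245 b345)

/-- the number of edges -/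
def edg (b012 b013 b023 b123 b014 b024 b124 b034 b134 b234 b015 b025 b125 b035 b135 b235 b045 b145 b245 b345 : ℕ) : ℕ :=
  b012 + b013 + b023 + b123 + b014 + b024 + b124 + b034 + b134 + b234 + b015 + b025 + b125 + b035 + b135 + b235 + b045 + b145 + b245 + b345

/-- the sum over the five-element subsets -/
def w5Sum (w : ℕ → ℤ) (b012 b013 b023 b123 b014 b024 b124 b034 b134 b234 b015 b025 b125 b035 b135 b235 b045 b145 b245 b345 : ℕ) : ℤ :=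
  w (c10 b123 b124 b134 b234 b125 b135 b235 b145 b245 b345) + w (c10 b023 b024 b034 b234 b025 b035 b235 b045 b245 b345) + w (c10 b013 b014 b034 b134 b015 b035 b135 b045 b145 b345) + w (c10 b012 b014 b024 b124 b015 b025 b125 b045 b145 b245) + w (c10 b012 b013 b023 b123 b015 b025 b125 b035 b135 b235) + w (c10 b012 b013 b023 b123 b014 b024 b124 b034 b134 b234)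

variable {V : Type} [Fintype V] [LinearOrder V] {H : Finset (Finset V)}

theorem pairs_img (ix : ℕ → ℕ → ℕ) (q : ℕ → ℕ → ℕ → ℤ) (hq : ∀ s a b, q s a b = q s b a)
    (ι : Fin 6 ↪o V) :
    ∑ x ∈ img ι, ∑ y ∈ (img ι).erase x, Qt H ix q (((img ι).erase x).erase y) x y =
      2 * pairSum ix q (e H (ι 0) (ι 1) (ι 2)) (e H (ι 0) (ι 1) (ι 3)) (e H (ι 0) (ι 2) (ι 3)) (e H (ι 1) (ι 2) (ι 3)) (e H (ι 0) (ι 1) (ι 4)) (e H (ι 0) (ι 2) (ι 4)) (e H (ι 1) (ι 2) (ι 4)) (e H (ι 0) (ι 3) (ι 4)) (e H (ι 1) (ι 3) (ι 4)) (e H (ι 2) (ι 3) (ι 4)) (e H (ι 0) (ι 1) (ι 5)) (e H (ι 0) (ι 2) (ι 5)) (e H (ι 1) (ι 2) (ι 5)) (e H (ι 0) (ι 3) (ι 5)) (e H (ι 1) (ι 3) (ι 5)) (e H (ι 2) (ι 3) (ι 5)) (e H (ι 0) (ι 4) (ι 5)) (e H (ι 1) (ι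 4) (ι 5)) (e H (ι 2) (ι 4) (ι 5)) (e H (ι 3) (ι 4) (ι 5)) := by
  rw [sum_img]
  simp only [sum_img_erase]
  rw [Fin.sum_univ_six]
  simp only [Fin.sum_univ_five]
  have h01 : Qt H ix q (((img ι).erase (ι 0)).erase (ι (Fin.succAbove (0 : Fin 6) (0 : Fin 5)))) (ι 0) (ι (Fin.succAbove (0 : Fin 6) (0 : Fin 5))) =
      q (c4 (e H (ι 2) (ι 3) (ι 4)) (e H (ι 2) (ι 3) (ι 5)) (e H (ι 2) (ι 4) (ι 5)) (e H (ι 3) (ι 4) (ι 5))) (ix 0 (c10 (e H (ι 0) (ι 2) (ι 3)) (e H (ι 0) (ι 2) (ι 4)) (e H (ι 0) (ι 3) (ι 4)) (e H (ι 2) (ι 3) (ι 4)) (e H (ι 0) (ι 2) (ι 5)) (e H (ι 0) (ι 3) (ι 5)) (e H (ι 2) (ι 3) (ι 5)) (e H (ι 0) (ι 4) (ι 5)) (e H (ι 2) (ι 4) (ι 5)) (e H (ι 3) (ι 4) (ι 5)))) (ix 0 (c10 (e H (ι 1) (ι 2) (ι 3)) (e H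 (ι 1) (ι 2) (ι 4)) (e H (ι 1) (ι 3) (ι 4)) (e H (ι 2) (ι 3) (ι 4)) (e H (ι 1) (ι 2) (ι 5)) (e H (ι 1) (ι 3) (ι 5)) (e H (ι 2) (ι 3) (ι 5)) (e H (ι 1) (ι 4) (ι 5)) (e H (ι 2) (ι 4) (ι 5)) (e H (ι 3) (ι 4) (ι 5)))) := Qt_img ix q ι 0 1 0 0 rfl rfl
  have h02 : Qt H ix q (((img ι).erase (ι 0)).erase (ι (Fin.succAbove (0 : Fin 6) (1 : Fin 5)))) (ι 0) (ι (Fin.succAbove (0 : Fin 6) (1 : Fin 5))) =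
      q (c4 (e H (ι 1) (ι 3) (ι 4)) (e H (ι 1) (ι 3) (ι 5)) (e H (ι 1) (ι 4) (ι 5)) (e H (ι 3) (ι 4) (ι 5))) (ix 0 (c10 (e H (ι 0) (ι 1) (ι 3)) (e H (ι 0) (ι 1) (ι 4)) (e H (ι 0) (ι 3) (ι 4)) (e H (ι 1) (ι 3) (ι 4)) (e H (ι 0) (ι 1) (ι 5)) (e H (ι 0) (ι 3) (ι 5)) (e H (ι 1) (ι 3) (ι 5)) (e H (ι 0) (ι 4) (ι 5)) (e H (ι 1) (ι 4) (ι 5)) (e H (ι 3) (ι 4) (ι 5)))) (ix 1 (c10 (e H (ι 1) (ι 2) (ι 3)) (e H (ι 1) (ι 2) (ι 4)) (e H (ι 1) (ι 3) (ι 4)) (e H (ι 2) (ι 3) (ι 4)) (e H (ι 1) (ι 2) (ι 5)) (e H (ι 1) (ι 3) (ι 5)) (e H (ι 2) (ι 3) (ι 5)) (e H (ι 1) (ι 4) (ι 5)) (e H (ι 2) (ι 4) (ι 5)) (e H (ι 3) (ι 4) (ι 5)))) := Qt_img ix q ι 0 2 0 1 rfl rfl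
  have h03 : Qt H ix q (((img ι).erase (ι 0)).erase (ι (Fin.succAbove (0 : Fin 6) (2 : Fin 5)))) (ι 0) (ι (Fin.succAbove (0 : Fin 6) (2 : Fin 5))) =
      q (c4 (e H (ι 1) (ι 2) (ι 4)) (e H (ι 1) (ι 2) (ι 5)) (e H (ι 1) (ι 4) (ι 5)) (e H (ι 2) (ι 4) (ι 5))) (ix 0 (c10 (e H (ι 0) (ι 1) (ι 2)) (e H (ι 0) (ι 1) (ι 4)) (e H (ι 0) (ι 2) (ι 4)) (e H (ι 1) (ι 2) (ι 4)) (e H (ι 0) (ι 1) (ι 5)) (e H (ι 0) (ι 2) (ι 5)) (e H (ι 1) (ι 2) (ι 5)) (e H (ι 0) (ι 4) (ι 5)) (e H (ι 1) (ι 4) (ι 5)) (e H (ι 2) (ι 4) (ι 5)))) (ix 2 (c10 (e H (ι 1) (ι 2) (ι 3)) (e H (ι 1) (ι 2) (ι 4)) (e H (ι 1) (ι 3) (ι 4)) (e H (ι 2) (ι 3) (ι 4)) (e H (ι 1) (ι 2) (ι 5)) (e H (ι 1) (ι 3) (ι 5)) (e H (ι 2) (ι 3) (ι 5)) (e H (ι 1) (ι 4) (ι 5))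 (e H (ι 2) (ι 4) (ι 5)) (e H (ι 3) (ι 4) (ι 5)))) := Qt_img ix q ι 0 3 0 2 rfl rfl
  have h04 : Qt H ix q (((img ι).erase (ι 0)).erase (ι (Fin.succAbove (0 : Fin 6) (3 : Fin 5)))) (ι 0) (ι (Fin.succAbove (0 : Fin 6) (3 : Fin 5))) =
      q (c4 (e H (ι 1) (ι 2) (ι 3)) (e H (ι 1) (ι 2) (ι 5)) (e H (ι 1) (ι 3) (ι 5)) (e H (ι 2) (ι 3) (ι 5))) (ix 0 (c10 (e H (ι 0) (ι 1) (ι 2)) (e H (ι 0) (ι 1) (ι 3)) (e H (ι 0) (ι 2) (ι 3)) (e H (ι 1) (ι 2) (ι 3)) (e H (ι 0) (ι 1) (ι 5)) (e H (ι 0) (ι 2) (ι 5)) (e H (ι 1) (ι 2) (ι 5)) (e H (ι 0) (ι 3) (ι 5)) (e H (ι 1) (ι 3) (ι 5)) (e H (ι 2) (ι 3) (ι 5)))) (ix 3 (c10 (e H (ι 1) (ι 2) (ι 3)) (e H (ι 1) (ι 2) (ι 4)) (e H (ι 1) (ι 3) (ι 4)) (e H (ι 2) (ι 3) (ι 4)) (e H (ι 1) (ι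 2) (ι 5)) (e H (ι 1) (ι 3) (ι 5)) (e H (ι 2) (ι 3) (ι 5)) (e H (ι 1) (ι 4) (ι 5)) (e H (ι 2) (ι 4) (ι 5)) (e H (ι 3) (ι 4) (ι 5)))) := Qt_img ix q ι 0 4 0 3 rfl rfl
  have h05 : Qt H ix q (((img ι).erase (ι 0)).erase (ι (Fin.succAbove (0 : Fin 6) (4 : Fin 5)))) (ι 0) (ι (Fin.succAbove (0 : Fin 6) (4 : Fin 5))) =
      q (c4 (e H (ι 1) (ι 2) (ι 3)) (e H (ι 1) (ι 2) (ι 4)) (e H (ι 1) (ι 3) (ι 4)) (e H (ι 2) (ι 3) (ι 4))) (ix 0 (c10 (e H (ι 0) (ι 1) (ι 2)) (e H (ι 0) (ι 1) (ι 3)) (e H (ι 0) (ι 2) (ι 3)) (e H (ι 1) (ι 2) (ι 3)) (e H (ι 0) (ι 1) (ι 4)) (e H (ι 0) (ι 2) (ι 4)) (e H (ι 1) (ι 2) (ι 4)) (e H (ι 0) (ι 3) (ι 4)) (e H (ι 1) (ι 3) (ι 4)) (e H (ι 2) (ι 3) (ι 4)))) (ix 4 (c10 (e H (ι 1) (ι 2) (ι 3)) (e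 H (ι 1) (ι 2) (ι 4)) (e H (ι 1) (ι 3) (ι 4)) (e H (ι 2) (ι 3) (ι 4)) (e H (ι 1) (ι 2) (ι 5)) (e H (ι 1) (ι 3) (ι 5)) (e H (ι 2) (ι 3) (ι 5)) (e H (ι 1) (ι 4) (ι 5)) (e H (ι 2) (ι 4) (ι 5)) (e H (ι 3) (ι 4) (ι 5)))) := Qt_img ix q ι 0 5 0 4 rfl rfl
  have h10 : Qt H ix q (((img ι).erase (ι 1)).erase (ι (Fin.succAbove (1 : Fin 6) (0 : Fin 5)))) (ι 1) (ι (Fin.succAbove (1 : Fin 6) (0 : Fin 5))) =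
      q (c4 (e H (ι 2) (ι 3) (ι 4)) (e H (ι 2) (ι 3) (ι 5)) (e H (ι 2) (ι 4) (ι 5)) (e H (ι 3) (ι 4) (ι 5))) (ix 0 (c10 (e H (ι 1) (ι 2) (ι 3)) (e H (ι 1) (ι 2) (ι 4)) (e H (ι 1) (ι 3) (ι 4)) (e H (ι 2) (ι 3) (ι 4)) (e H (ι 1) (ι 2) (ι 5)) (e H (ι 1) (ι 3) (ι 5)) (e H (ι 2) (ι 3) (ι 5)) (e H (ι 1) (ι 4) (ι 5)) (e H (ι 2) (ι 4) (ι 5)) (e H (ι 3) (ι 4) (ι 5)))) (ix 0 (c10 (e H (ι 0) (ι 2) (ι 3)) (e H (ι 0) (ι 2) (ι 4)) (e H (ι 0) (ι 3) (ι 4)) (e H (ι 2) (ι 3) (ι 4)) (e H (ι 0) (ι 2) (ι 5)) (e H (ι 0) (ι 3) (ι 5)) (e H (ι 2) (ι 3) (ι 5)) (e H (ι 0) (ι 4) (ι 5)) (e H (ι 2) (ι 4) (ι 5)) (e H (ι 3) (ι 4) (ι 5)))) := Qt_img ix q ι 1 0 0 0 rfl rfl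
  have h12 : Qt H ix q (((img ι).erase (ι 1)).erase (ι (Fin.succAbove (1 : Fin 6) (1 : Fin 5)))) (ι 1) (ι (Fin.succAbove (1 : Fin 6) (1 : Fin 5))) =
      q (c4 (e H (ι 0) (ι 3) (ι 4)) (e H (ι 0) (ι 3) (ι 5)) (e H (ι 0) (ι 4) (ι 5)) (e H (ι 3) (ι 4) (ι 5))) (ix 1 (c10 (e H (ι 0) (ι 1) (ι 3)) (e H (ι 0) (ι 1) (ι 4)) (e H (ι 0) (ι 3) (ι 4)) (e H (ι 1) (ι 3) (ι 4)) (e H (ι 0) (ι 1) (ι 5)) (e H (ι 0) (ι 3) (ι 5)) (e H (ι 1) (ι 3) (ι 5)) (e H (ι 0) (ι 4) (ι 5)) (e H (ι 1) (ι 4) (ι 5)) (e H (ι 3) (ι 4) (ι 5)))) (ix 1 (c10 (e H (ι 0) (ι 2) (ι 3)) (e H (ι 0) (ι 2) (ι 4)) (e H (ι 0) (ι 3) (ι 4)) (e H (ι 2) (ι 3) (ι 4)) (e H (ι 0) (ι 2) (ι 5)) (e H (ι 0) (ι 3) (ι 5)) (e H (ι 2) (ι 3) (ι 5)) (e H (ι 0) (ι 4) (ι 5))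 (e H (ι 2) (ι 4) (ι 5)) (e H (ι 3) (ι 4) (ι 5)))) := Qt_img ix q ι 1 2 1 1 rfl rfl
  have h13 : Qt H ix q (((img ι).erase (ι 1)).erase (ι (Fin.succAbove (1 : Fin 6) (2 : Fin 5)))) (ι 1) (ι (Fin.succAbove (1 : Fin 6) (2 : Fin 5))) =
      q (c4 (e H (ι 0) (ι 2) (ι 4)) (e H (ι 0) (ι 2) (ι 5)) (e H (ι 0) (ι 4) (ι 5)) (e H (ι 2) (ι 4) (ι 5))) (ix 1 (c10 (e H (ι 0) (ι 1) (ι 2)) (e H (ι 0) (ι 1) (ι 4)) (e H (ι 0) (ι 2) (ι 4)) (e H (ι 1) (ι 2) (ι 4)) (e H (ι 0) (ι 1) (ι 5)) (e H (ι 0) (ι 2) (ι 5)) (e H (ι 1) (ι 2) (ι 5)) (e H (ι 0) (ι 4) (ι 5)) (e H (ι 1) (ι 4) (ι 5)) (e H (ι 2) (ι 4) (ι 5)))) (ix 2 (c10 (e H (ι 0) (ι 2) (ι 3)) (e H (ι 0) (ι 2) (ι 4)) (e H (ι 0) (ι 3) (ι 4)) (e H (ι 2) (ι 3) (ι 4)) (e H (ι 0) (ι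 2) (ι 5)) (e H (ι 0) (ι 3) (ι 5)) (e H (ι 2) (ι 3) (ι 5)) (e H (ι 0) (ι 4) (ι 5)) (e H (ι 2) (ι 4) (ι 5)) (e H (ι 3) (ι 4) (ι 5)))) := Qt_img ix q ι 1 3 1 2 rfl rfl
  have h14 : Qt H ix q (((img ι).erase (ι 1)).erase (ι (Fin.succAbove (1 : Fin 6) (3 : Fin 5)))) (ι 1) (ι (Fin.succAbove (1 : Fin 6) (3 : Fin 5))) =
      q (c4 (e H (ι 0) (ι 2) (ι 3)) (e H (ι 0) (ι 2) (ι 5)) (e H (ι 0) (ι 3) (ι 5)) (e H (ι 2) (ι 3) (ι 5))) (ix 1 (c10 (e H (ι 0) (ι 1) (ι 2)) (e H (ι 0) (ι 1) (ι 3)) (e H (ι 0) (ι 2) (ι 3)) (e H (ι 1) (ι 2) (ι 3)) (e H (ι 0) (ι 1) (ι 5)) (e H (ι 0) (ι 2) (ι 5)) (e H (ι 1) (ι 2) (ι 5)) (e H (ι 0) (ι 3) (ι 5)) (e H (ι 1) (ι 3) (ι 5)) (e H (ι 2) (ι 3) (ι 5)))) (ix 3 (c10 (e H (ι 0) (ι 2) (ι 3)) (e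 H (ι 0) (ι 2) (ι 4)) (e H (ι 0) (ι 3) (ι 4)) (e H (ι 2) (ι 3) (ι 4)) (e H (ι 0) (ι 2) (ι 5)) (e H (ι 0) (ι 3) (ι 5)) (e H (ι 2) (ι 3) (ι 5)) (e H (ι 0) (ι 4) (ι 5)) (e H (ι 2) (ι 4) (ι 5)) (e H (ι 3) (ι 4) (ι 5)))) := Qt_img ix q ι 1 4 1 3 rfl rfl
  have h15 : Qt H ix q (((img ι).erase (ι 1)).erase (ι (Fin.succAbove (1 : Fin 6) (4 : Fin 5)))) (ι 1) (ι (Fin.succAbove (1 : Fin 6) (4 : Fin 5))) =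
      q (c4 (e H (ι 0) (ι 2) (ι 3)) (e H (ι 0) (ι 2) (ι 4)) (e H (ι 0) (ι 3) (ι 4)) (e H (ι 2) (ι 3) (ι 4))) (ix 1 (c10 (e H (ι 0) (ι 1) (ι 2)) (e H (ι 0) (ι 1) (ι 3)) (e H (ι 0) (ι 2) (ι 3)) (e H (ι 1) (ι 2) (ι 3)) (e H (ι 0) (ι 1) (ι 4)) (e H (ι 0) (ι 2) (ι 4)) (e H (ι 1) (ι 2) (ι 4)) (e H (ι 0) (ι 3) (ι 4)) (e H (ι 1) (ι 3) (ι 4)) (e H (ι 2) (ι 3) (ι 4)))) (ix 4 (c10 (e H (ι 0) (ι 2) (ι 3)) (e H (ι 0) (ι 2) (ι 4)) (e H (ι 0) (ι 3) (ι 4)) (e H (ι 2) (ι 3) (ι 4)) (e H (ι 0) (ι 2) (ι 5)) (e H (ι 0) (ι 3) (ι 5)) (e H (ι 2) (ι 3) (ι 5)) (e H (ι 0) (ι 4) (ι 5)) (e H (ι 2) (ι 4) (ι 5)) (e H (ι 3) (ι 4) (ι 5)))) := Qt_img ix q ι 1 5 1 4 rfl rfl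
  have h20 : Qt H ix q (((img ι).erase (ι 2)).erase (ι (Fin.succAbove (2 : Fin 6) (0 : Fin 5)))) (ι 2) (ι (Fin.succAbove (2 : Fin 6) (0 : Fin 5))) =
      q (c4 (e H (ι 1) (ι 3) (ι 4)) (e H (ι 1) (ι 3) (ι 5)) (e H (ι 1) (ι 4) (ι 5)) (e H (ι 3) (ι 4) (ι 5))) (ix 1 (c10 (e H (ι 1) (ι 2) (ι 3)) (e H (ι 1) (ι 2) (ι 4)) (e H (ι 1) (ι 3) (ι 4)) (e H (ι 2) (ι 3) (ι 4)) (e H (ι 1) (ι 2) (ι 5)) (e H (ι 1) (ι 3) (ι 5)) (e H (ι 2) (ι 3) (ι 5)) (e H (ι 1) (ι 4) (ι 5)) (e H (ι 2) (ι 4) (ι 5)) (e H (ι 3) (ι 4) (ι 5)))) (ix 0 (c10 (e H (ι 0) (ι 1) (ι 3)) (e H (ι 0) (ι 1) (ι 4)) (e H (ι 0) (ι 3) (ι 4)) (e H (ι 1) (ι 3) (ι 4)) (e H (ι 0) (ι 1) (ι 5)) (e H (ι 0) (ι 3) (ι 5)) (e H (ι 1) (ι 3) (ι 5)) (e H (ι 0) (ι 4) (ι 5))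 (e H (ι 1) (ι 4) (ι 5)) (e H (ι 3) (ι 4) (ι 5)))) := Qt_img ix q ι 2 0 1 0 rfl rfl
  have h21 : Qt H ix q (((img ι).erase (ι 2)).erase (ι (Fin.succAbove (2 : Fin 6) (1 : Fin 5)))) (ι 2) (ι (Fin.succAbove (2 : Fin 6) (1 : Fin 5))) =
      q (c4 (e H (ι 0) (ι 3) (ι 4)) (e H (ι 0) (ι 3) (ι 5)) (e H (ι 0) (ι 4) (ι 5)) (e H (ι 3) (ι 4) (ι 5))) (ix 1 (c10 (e H (ι 0) (ι 2) (ι 3)) (e H (ι 0) (ι 2) (ι 4)) (e H (ι 0) (ι 3) (ι 4)) (e H (ι 2) (ι 3) (ι 4)) (e H (ι 0) (ι 2) (ι 5)) (e H (ι 0) (ι 3) (ι 5)) (e H (ι 2) (ι 3) (ι 5)) (e H (ι 0) (ι 4) (ι 5)) (e H (ι 2) (ι 4) (ι 5)) (e H (ι 3) (ι 4) (ι 5)))) (ix 1 (c10 (e H (ι 0) (ι 1) (ι 3)) (e H (ι 0) (ι 1) (ι 4)) (e H (ι 0) (ι 3) (ι 4)) (e H (ι 1) (ι 3) (ι 4)) (e H (ι 0) (ι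 1) (ι 5)) (e H (ι 0) (ι 3) (ι 5)) (e H (ι 1) (ι 3) (ι 5)) (e H (ι 0) (ι 4) (ι 5)) (e H (ι 1) (ι 4) (ι 5)) (e H (ι 3) (ι 4) (ι 5)))) := Qt_img ix q ι 2 1 1 1 rfl rfl
  have h23 : Qt H ix q (((img ι).erase (ι 2)).erase (ι (Fin.succAbove (2 : Fin 6) (2 : Fin 5)))) (ι 2) (ι (Fin.succAbove (2 : Fin 6) (2 : Fin 5))) =
      q (c4 (e H (ι 0) (ι 1) (ι 4)) (e H (ι 0) (ι 1) (ι 5)) (e H (ι 0) (ι 4) (ι 5)) (e H (ι 1) (ι 4) (ι 5))) (ix 2 (c10 (e H (ι 0) (ι 1) (ι 2)) (e H (ι 0) (ι 1) (ι 4)) (e H (ι 0) (ι 2) (ι 4)) (e H (ι 1) (ι 2) (ι 4)) (e H (ι 0) (ι 1) (ι 5)) (e H (ι 0) (ι 2) (ι 5)) (e H (ι 1) (ι 2) (ι 5)) (e H (ι 0) (ι 4) (ι 5)) (e H (ι 1) (ι 4) (ι 5)) (e H (ι 2) (ι 4) (ι 5)))) (ix 2 (c10 (e H (ι 0) (ι 1) (ι 3)) (e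 H (ι 0) (ι 1) (ι 4)) (e H (ι 0) (ι 3) (ι 4)) (e H (ι 1) (ι 3) (ι 4)) (e H (ι 0) (ι 1) (ι 5)) (e H (ι 0) (ι 3) (ι 5)) (e H (ι 1) (ι 3) (ι 5)) (e H (ι 0) (ι 4) (ι 5)) (e H (ι 1) (ι 4) (ι 5)) (e H (ι 3) (ι 4) (ι 5)))) := Qt_img ix q ι 2 3 2 2 rfl rfl
  have h24 : Qt H ix q (((img ι).erase (ι 2)).erase (ι (Fin.succAbove (2 : Fin 6) (3 : Fin 5)))) (ι 2) (ι (Fin.succAbove (2 : Fin 6) (3 : Fin 5))) =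
      q (c4 (e H (ι 0) (ι 1) (ι 3)) (e H (ι 0) (ι 1) (ι 5)) (e H (ι 0) (ι 3) (ι 5)) (e H (ι 1) (ι 3) (ι 5))) (ix 2 (c10 (e H (ι 0) (ι 1) (ι 2)) (e H (ι 0) (ι 1) (ι 3)) (e H (ι 0) (ι 2) (ι 3)) (e H (ι 1) (ι 2) (ι 3)) (e H (ι 0) (ι 1) (ι 5)) (e H (ι 0) (ι 2) (ι 5)) (e H (ι 1) (ι 2) (ι 5)) (e H (ι 0) (ι 3) (ι 5)) (e H (ι 1) (ι 3) (ι 5)) (e H (ι 2) (ι 3) (ι 5)))) (ix 3 (c10 (e H (ι 0) (ι 1) (ι 3)) (e H (ι 0) (ι 1) (ι 4)) (e H (ι 0) (ι 3) (ι 4)) (e H (ι 1) (ι 3) (ι 4)) (e H (ι 0) (ι 1) (ι 5)) (e H (ι 0) (ι 3) (ι 5)) (e H (ι 1) (ι 3) (ι 5)) (e H (ι 0) (ι 4) (ι 5)) (e H (ι 1) (ι 4) (ι 5)) (e H (ι 3) (ι 4) (ι 5)))) := Qt_img ix q ι 2 4 2 3 rfl rfl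
  have h25 : Qt H ix q (((img ι).erase (ι 2)).erase (ι (Fin.succAbove (2 : Fin 6) (4 : Fin 5)))) (ι 2) (ι (Fin.succAbove (2 : Fin 6) (4 : Fin 5))) =
      q (c4 (e H (ι 0) (ι 1) (ι 3)) (e H (ι 0) (ι 1) (ι 4)) (e H (ι 0) (ι 3) (ι 4)) (e H (ι 1) (ι 3) (ι 4))) (ix 2 (c10 (e H (ι 0) (ι 1) (ι 2)) (e H (ι 0) (ι 1) (ι 3)) (e H (ι 0) (ι 2) (ι 3)) (e H (ι 1) (ι 2) (ι 3)) (e H (ι 0) (ι 1) (ι 4)) (e H (ι 0) (ι 2) (ι 4)) (e H (ι 1) (ι 2) (ι 4)) (e H (ι 0) (ι 3) (ι 4)) (e H (ι 1) (ι 3) (ι 4)) (e H (ι 2) (ι 3) (ι 4)))) (ix 4 (c10 (e H (ι 0) (ι 1) (ι 3)) (e H (ι 0) (ι 1) (ι 4)) (e H (ι 0) (ι 3) (ι 4)) (e H (ι 1) (ι 3) (ι 4)) (e H (ι 0) (ι 1) (ι 5)) (e H (ι 0) (ι 3) (ι 5)) (e H (ι 1) (ι 3) (ι 5)) (e H (ι 0) (ι 4) (ι 5))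 (e H (ι 1) (ι 4) (ι 5)) (e H (ι 3) (ι 4) (ι 5)))) := Qt_img ix q ι 2 5 2 4 rfl rfl
  have h30 : Qt H ix q (((img ι).erase (ι 3)).erase (ι (Fin.succAbove (3 : Fin 6) (0 : Fin 5)))) (ι 3) (ι (Fin.succAbove (3 : Fin 6) (0 : Fin 5))) =
      q (c4 (e H (ι 1) (ι 2) (ι 4)) (e H (ι 1) (ι 2) (ι 5)) (e H (ι 1) (ι 4) (ι 5)) (e H (ι 2) (ι 4) (ι 5))) (ix 2 (c10 (e H (ι 1) (ι 2) (ι 3)) (e H (ι 1) (ι 2) (ι 4)) (e H (ι 1) (ι 3) (ι 4)) (e H (ι 2) (ι 3) (ι 4)) (e H (ι 1) (ι 2) (ι 5)) (e H (ι 1) (ι 3) (ι 5)) (e H (ι 2) (ι 3) (ι 5)) (e H (ι 1) (ι 4) (ι 5)) (e H (ι 2) (ι 4) (ι 5)) (e H (ι 3) (ι 4) (ι 5)))) (ix 0 (c10 (e H (ι 0) (ι 1) (ι 2)) (e H (ι 0) (ι 1) (ι 4)) (e H (ι 0) (ι 2) (ι 4)) (e H (ι 1) (ι 2) (ι 4)) (e H (ι 0) (ι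 1) (ι 5)) (e H (ι 0) (ι 2) (ι 5)) (e H (ι 1) (ι 2) (ι 5)) (e H (ι 0) (ι 4) (ι 5)) (e H (ι 1) (ι 4) (ι 5)) (e H (ι 2) (ι 4) (ι 5)))) := Qt_img ix q ι 3 0 2 0 rfl rfl
  have h31 : Qt H ix q (((img ι).erase (ι 3)).erase (ι (Fin.succAbove (3 : Fin 6) (1 : Fin 5)))) (ι 3) (ι (Fin.succAbove (3 : Fin 6) (1 : Fin 5))) =
      q (c4 (e H (ι 0) (ι 2) (ι 4)) (e H (ι 0) (ι 2) (ι 5)) (e H (ι 0) (ι 4) (ι 5)) (e H (ι 2) (ι 4) (ι 5))) (ix 2 (c10 (e H (ι 0) (ι 2) (ι 3)) (e H (ι 0) (ι 2) (ι 4)) (e H (ι 0) (ι 3) (ι 4)) (e H (ι 2) (ι 3) (ι 4)) (e H (ι 0) (ι 2) (ι 5)) (e H (ι 0) (ι 3) (ι 5)) (e H (ι 2) (ι 3) (ι 5)) (e H (ι 0) (ι 4) (ι 5)) (e H (ι 2) (ι 4) (ι 5)) (e H (ι 3) (ι 4) (ι 5)))) (ix 1 (c10 (e H (ι 0) (ι 1) (ι 2)) (e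 H (ι 0) (ι 1) (ι 4)) (e H (ι 0) (ι 2) (ι 4)) (e H (ι 1) (ι 2) (ι 4)) (e H (ι 0) (ι 1) (ι 5)) (e H (ι 0) (ι 2) (ι 5)) (e H (ι 1) (ι 2) (ι 5)) (e H (ι 0) (ι 4) (ι 5)) (e H (ι 1) (ι 4) (ι 5)) (e H (ι 2) (ι 4) (ι 5)))) := Qt_img ix q ι 3 1 2 1 rfl rfl
  have h32 : Qt H ix q (((img ι).erase (ι 3)).erase (ι (Fin.succAbove (3 : Fin 6) (2 : Fin 5)))) (ι 3) (ι (Fin.succAbove (3 : Fin 6) (2 : Fin 5))) =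
      q (c4 (e H (ι 0) (ι 1) (ι 4)) (e H (ι 0) (ι 1) (ι 5)) (e H (ι 0) (ι 4) (ι 5)) (e H (ι 1) (ι 4) (ι 5))) (ix 2 (c10 (e H (ι 0) (ι 1) (ι 3)) (e H (ι 0) (ι 1) (ι 4)) (e H (ι 0) (ι 3) (ι 4)) (e H (ι 1) (ι 3) (ι 4)) (e H (ι 0) (ι 1) (ι 5)) (e H (ι 0) (ι 3) (ι 5)) (e H (ι 1) (ι 3) (ι 5)) (e H (ι 0) (ι 4) (ι 5)) (e H (ι 1) (ι 4) (ι 5)) (e H (ι 3) (ι 4) (ι 5)))) (ix 2 (c10 (e H (ι 0) (ι 1) (ι 2)) (e H (ι 0) (ι 1) (ι 4)) (e H (ι 0) (ι 2) (ι 4)) (e H (ι 1) (ι 2) (ι 4)) (e H (ι 0) (ι 1) (ι 5)) (e H (ι 0) (ι 2) (ι 5)) (e H (ι 1) (ι 2) (ι 5)) (e H (ι 0) (ι 4) (ι 5)) (e H (ι 1) (ι 4) (ι 5)) (e H (ι 2) (ι 4) (ι 5)))) := Qt_img ix q ι 3 2 2 2 rfl rfl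
  have h34 : Qt H ix q (((img ι).erase (ι 3)).erase (ι (Fin.succAbove (3 : Fin 6) (3 : Fin 5)))) (ι 3) (ι (Fin.succAbove (3 : Fin 6) (3 : Fin 5))) =
      q (c4 (e H (ι 0) (ι 1) (ι 2)) (e H (ι 0) (ι 1) (ι 5)) (e H (ι 0) (ι 2) (ι 5)) (e H (ι 1) (ι 2) (ι 5))) (ix 3 (c10 (e H (ι 0) (ι 1) (ι 2)) (e H (ι 0) (ι 1) (ι 3)) (e H (ι 0) (ι 2) (ι 3)) (e H (ι 1) (ι 2) (ι 3)) (e H (ι 0) (ι 1) (ι 5)) (e H (ι 0) (ι 2) (ι 5)) (e H (ι 1) (ι 2) (ι 5)) (e H (ι 0) (ι 3) (ι 5)) (e H (ι 1) (ι 3) (ι 5)) (e H (ι 2) (ι 3) (ι 5)))) (ix 3 (c10 (e H (ι 0) (ι 1) (ι 2)) (e H (ι 0) (ι 1) (ι 4)) (e H (ι 0) (ι 2) (ι 4)) (e H (ι 1) (ι 2) (ι 4)) (e H (ι 0) (ι 1) (ι 5)) (e H (ι 0) (ι 2) (ι 5)) (e H (ι 1) (ι 2) (ι 5)) (e H (ι 0) (ι 4) (ι 5))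 (e H (ι 1) (ι 4) (ι 5)) (e H (ι 2) (ι 4) (ι 5)))) := Qt_img ix q ι 3 4 3 3 rfl rfl
  have h35 : Qt H ix q (((img ι).erase (ι 3)).erase (ι (Fin.succAbove (3 : Fin 6) (4 : Fin 5)))) (ι 3) (ι (Fin.succAbove (3 : Fin 6) (4 : Fin 5))) =
      q (c4 (e H (ι 0) (ι 1) (ι 2)) (e H (ι 0) (ι 1) (ι 4)) (e H (ι 0) (ι 2) (ι 4)) (e H (ι 1) (ι 2) (ι 4))) (ix 3 (c10 (e H (ι 0) (ι 1) (ι 2)) (e H (ι 0) (ι 1) (ι 3)) (e H (ι 0) (ι 2) (ι 3)) (e H (ι 1) (ι 2) (ι 3)) (e H (ι 0) (ι 1) (ι 4)) (e H (ι 0) (ι 2) (ι 4)) (e H (ι 1) (ι 2) (ι 4)) (e H (ι 0) (ι 3) (ι 4)) (e H (ι 1) (ι 3) (ι 4)) (e H (ι 2) (ι 3) (ι 4)))) (ix 4 (c10 (e H (ι 0) (ι 1) (ι 2)) (e H (ι 0) (ι 1) (ι 4)) (e H (ι 0) (ι 2) (ι 4)) (e H (ι 1) (ι 2) (ι 4)) (e H (ι 0) (ι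 1) (ι 5)) (e H (ι 0) (ι 2) (ι 5)) (e H (ι 1) (ι 2) (ι 5)) (e H (ι 0) (ι 4) (ι 5)) (e H (ι 1) (ι 4) (ι 5)) (e H (ι 2) (ι 4) (ι 5)))) := Qt_img ix q ι 3 5 3 4 rfl rfl
  have h40 : Qt H ix q (((img ι).erase (ι 4)).erase (ι (Fin.succAbove (4 : Fin 6) (0 : Fin 5)))) (ι 4) (ι (Fin.succAbove (4 : Fin 6) (0 : Fin 5))) =
      q (c4 (e H (ι 1) (ι 2) (ι 3)) (e H (ι 1) (ι 2) (ι 5)) (e H (ι 1) (ι 3) (ι 5)) (e H (ι 2) (ι 3) (ι 5))) (ix 3 (c10 (e H (ι 1) (ι 2) (ι 3)) (e H (ι 1) (ι 2) (ι 4)) (e H (ι 1) (ι 3) (ι 4)) (e H (ι 2) (ι 3) (ι 4)) (e H (ι 1) (ι 2) (ι 5)) (e H (ι 1) (ι 3) (ι 5)) (e H (ι 2) (ι 3) (ι 5)) (e H (ι 1) (ι 4) (ι 5)) (e H (ι 2) (ι 4) (ι 5)) (e H (ι 3) (ι 4) (ι 5)))) (ix 0 (c10 (e H (ι 0) (ι 1) (ι 2)) (e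 H (ι 0) (ι 1) (ι 3)) (e H (ι 0) (ι 2) (ι 3)) (e H (ι 1) (ι 2) (ι 3)) (e H (ι 0) (ι 1) (ι 5)) (e H (ι 0) (ι 2) (ι 5)) (e H (ι 1) (ι 2) (ι 5)) (e H (ι 0) (ι 3) (ι 5)) (e H (ι 1) (ι 3) (ι 5)) (e H (ι 2) (ι 3) (ι 5)))) := Qt_img ix q ι 4 0 3 0 rfl rfl
  have h41 : Qt H ix q (((img ι).erase (ι 4)).erase (ι (Fin.succAbove (4 : Fin 6) (1 : Fin 5)))) (ι 4) (ι (Fin.succAbove (4 : Fin 6) (1 : Fin 5))) =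
      q (c4 (e H (ι 0) (ι 2) (ι 3)) (e H (ι 0) (ι 2) (ι 5)) (e H (ι 0) (ι 3) (ι 5)) (e H (ι 2) (ι 3) (ι 5))) (ix 3 (c10 (e H (ι 0) (ι 2) (ι 3)) (e H (ι 0) (ι 2) (ι 4)) (e H (ι 0) (ι 3) (ι 4)) (e H (ι 2) (ι 3) (ι 4)) (e H (ι 0) (ι 2) (ι 5)) (e H (ι 0) (ι 3) (ι 5)) (e H (ι 2) (ι 3) (ι 5)) (e H (ι 0) (ι 4) (ι 5)) (e H (ι 2) (ι 4) (ι 5)) (e H (ι 3) (ι 4) (ι 5)))) (ix 1 (c10 (e H (ι 0) (ι 1) (ι 2)) (e H (ι 0) (ι 1) (ι 3)) (e H (ι 0) (ι 2) (ι 3)) (e H (ι 1) (ι 2) (ι 3)) (e H (ι 0) (ι 1) (ι 5)) (e H (ι 0) (ι 2) (ι 5)) (e H (ι 1) (ι 2) (ι 5)) (e H (ι 0) (ι 3) (ι 5)) (e H (ι 1) (ι 3) (ι 5)) (e H (ι 2) (ι 3) (ι 5)))) := Qt_img ix q ι 4 1 3 1 rfl rfl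
  have h42 : Qt H ix q (((img ι).erase (ι 4)).erase (ι (Fin.succAbove (4 : Fin 6) (2 : Fin 5)))) (ι 4) (ι (Fin.succAbove (4 : Fin 6) (2 : Fin 5))) =
      q (c4 (e H (ι 0) (ι 1) (ι 3)) (e H (ι 0) (ι 1) (ι 5)) (e H (ι 0) (ι 3) (ι 5)) (e H (ι 1) (ι 3) (ι 5))) (ix 3 (c10 (e H (ι 0) (ι 1) (ι 3)) (e H (ι 0) (ι 1) (ι 4)) (e H (ι 0) (ι 3) (ι 4)) (e H (ι 1) (ι 3) (ι 4)) (e H (ι 0) (ι 1) (ι 5)) (e H (ι 0) (ι 3) (ι 5)) (e H (ι 1) (ι 3) (ι 5)) (e H (ι 0) (ι 4) (ι 5)) (e H (ι 1) (ι 4) (ι 5)) (e H (ι 3) (ι 4) (ι 5)))) (ix 2 (c10 (e H (ι 0) (ι 1) (ι 2)) (e H (ι 0) (ι 1) (ι 3)) (e H (ι 0) (ι 2) (ι 3)) (e H (ι 1) (ι 2) (ι 3)) (e H (ι 0) (ι 1) (ι 5)) (e H (ι 0) (ι 2) (ι 5)) (e H (ι 1) (ι 2) (ι 5)) (e H (ι 0) (ι 3) (ι 5))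 (e H (ι 1) (ι 3) (ι 5)) (e H (ι 2) (ι 3) (ι 5)))) := Qt_img ix q ι 4 2 3 2 rfl rfl
  have h43 : Qt H ix q (((img ι).erase (ι 4)).erase (ι (Fin.succAbove (4 : Fin 6) (3 : Fin 5)))) (ι 4) (ι (Fin.succAbove (4 : Fin 6) (3 : Fin 5))) =
      q (c4 (e H (ι 0) (ι 1) (ι 2)) (e H (ι 0) (ι 1) (ι 5)) (e H (ι 0) (ι 2) (ι 5)) (e H (ι 1) (ι 2) (ι 5))) (ix 3 (c10 (e H (ι 0) (ι 1) (ι 2)) (e H (ι 0) (ι 1) (ι 4)) (e H (ι 0) (ι 2) (ι 4)) (e H (ι 1) (ι 2) (ι 4)) (e H (ι 0) (ι 1) (ι 5)) (e H (ι 0) (ι 2) (ι 5)) (e H (ι 1) (ι 2) (ι 5)) (e H (ι 0) (ι 4) (ι 5)) (e H (ι 1) (ι 4) (ι 5)) (e H (ι 2) (ι 4) (ι 5)))) (ix 3 (c10 (e H (ι 0) (ι 1) (ι 2)) (e H (ι 0) (ι 1) (ι 3)) (e H (ι 0) (ι 2) (ι 3)) (e H (ι 1) (ι 2) (ι 3)) (e H (ι 0) (ι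 1) (ι 5)) (e H (ι 0) (ι 2) (ι 5)) (e H (ι 1) (ι 2) (ι 5)) (e H (ι 0) (ι 3) (ι 5)) (e H (ι 1) (ι 3) (ι 5)) (e H (ι 2) (ι 3) (ι 5)))) := Qt_img ix q ι 4 3 3 3 rfl rfl
  have h45 : Qt H ix q (((img ι).erase (ι 4)).erase (ι (Fin.succAbove (4 : Fin 6) (4 : Fin 5)))) (ι 4) (ι (Fin.succAbove (4 : Fin 6) (4 : Fin 5))) =
      q (c4 (e H (ι 0) (ι 1) (ι 2)) (e H (ι 0) (ι 1) (ι 3)) (e H (ι 0) (ι 2) (ι 3)) (e H (ι 1) (ι 2) (ι 3))) (ix 4 (c10 (e H (ι 0) (ι 1) (ι 2)) (e H (ι 0) (ι 1) (ι 3)) (e H (ι 0) (ι 2) (ι 3)) (e H (ι 1) (ι 2) (ι 3)) (e H (ι 0) (ι 1) (ι 4)) (e H (ι 0) (ι 2) (ι 4)) (e H (ι 1) (ι 2) (ι 4)) (e H (ι 0) (ι 3) (ι 4)) (e H (ι 1) (ι 3) (ι 4)) (e H (ι 2) (ι 3) (ι 4)))) (ix 4 (c10 (e H (ι 0) (ι 1) (ι 2)) (e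 H (ι 0) (ι 1) (ι 3)) (e H (ι 0) (ι 2) (ι 3)) (e H (ι 1) (ι 2) (ι 3)) (e H (ι 0) (ι 1) (ι 5)) (e H (ι 0) (ι 2) (ι 5)) (e H (ι 1) (ι 2) (ι 5)) (e H (ι 0) (ι 3) (ι 5)) (e H (ι 1) (ι 3) (ι 5)) (e H (ι 2) (ι 3) (ι 5)))) := Qt_img ix q ι 4 5 4 4 rfl rfl
  have h50 : Qt H ix q (((img ι).erase (ι 5)).erase (ι (Fin.succAbove (5 : Fin 6) (0 : Fin 5)))) (ι 5) (ι (Fin.succAbove (5 : Fin 6) (0 : Fin 5))) =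
      q (c4 (e H (ι 1) (ι 2) (ι 3)) (e H (ι 1) (ι 2) (ι 4)) (e H (ι 1) (ι 3) (ι 4)) (e H (ι 2) (ι 3) (ι 4))) (ix 4 (c10 (e H (ι 1) (ι 2) (ι 3)) (e H (ι 1) (ι 2) (ι 4)) (e H (ι 1) (ι 3) (ι 4)) (e H (ι 2) (ι 3) (ι 4)) (e H (ι 1) (ι 2) (ι 5)) (e H (ι 1) (ι 3) (ι 5)) (e H (ι 2) (ι 3) (ι 5)) (e H (ι 1) (ι 4) (ι 5)) (e H (ι 2) (ι 4) (ι 5)) (e H (ι 3) (ι 4) (ι 5)))) (ix 0 (c10 (e H (ι 0) (ι 1) (ι 2)) (e H (ι 0) (ι 1) (ι 3)) (e H (ι 0) (ι 2) (ι 3)) (e H (ι 1) (ι 2) (ι 3)) (e H (ι 0) (ι 1) (ι 4)) (e H (ι 0) (ι 2) (ι 4)) (e H (ι 1) (ι 2) (ι 4)) (e H (ι 0) (ι 3) (ι 4)) (e H (ι 1) (ι 3) (ι 4)) (e H (ι 2) (ι 3) (ι 4)))) := Qt_img ix q ι 5 0 4 0 rfl rfl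
  have h51 : Qt H ix q (((img ι).erase (ι 5)).erase (ι (Fin.succAbove (5 : Fin 6) (1 : Fin 5)))) (ι 5) (ι (Fin.succAbove (5 : Fin 6) (1 : Fin 5))) =
      q (c4 (e H (ι 0) (ι 2) (ι 3)) (e H (ι 0) (ι 2) (ι 4)) (e H (ι 0) (ι 3) (ι 4)) (e H (ι 2) (ι 3) (ι 4))) (ix 4 (c10 (e H (ι 0) (ι 2) (ι 3)) (e H (ι 0) (ι 2) (ι 4)) (e H (ι 0) (ι 3) (ι 4)) (e H (ι 2) (ι 3) (ι 4)) (e H (ι 0) (ι 2) (ι 5)) (e H (ι 0) (ι 3) (ι 5)) (e H (ι 2) (ι 3) (ι 5)) (e H (ι 0) (ι 4) (ι 5)) (e H (ι 2) (ι 4) (ι 5)) (e H (ι 3) (ι 4) (ι 5)))) (ix 1 (c10 (e H (ι 0) (ι 1) (ι 2)) (e H (ι 0) (ι 1) (ι 3)) (e H (ι 0) (ι 2) (ι 3)) (e H (ι 1) (ι 2) (ι 3)) (e H (ι 0) (ι 1) (ι 4)) (e H (ι 0) (ι 2) (ι 4)) (e H (ι 1) (ι 2) (ι 4)) (e H (ι 0) (ι 3) (ι 4))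 (e H (ι 1) (ι 3) (ι 4)) (e H (ι 2) (ι 3) (ι 4)))) := Qt_img ix q ι 5 1 4 1 rfl rfl
  have h52 : Qt H ix q (((img ι).erase (ι 5)).erase (ι (Fin.succAbove (5 : Fin 6) (2 : Fin 5)))) (ι 5) (ι (Fin.succAbove (5 : Fin 6) (2 : Fin 5))) =
      q (c4 (e H (ι 0) (ι 1) (ι 3)) (e H (ι 0) (ι 1) (ι 4)) (e H (ι 0) (ι 3) (ι 4)) (e H (ι 1) (ι 3) (ι 4))) (ix 4 (c10 (e H (ι 0) (ι 1) (ι 3)) (e H (ι 0) (ι 1) (ι 4)) (e H (ι 0) (ι 3) (ι 4)) (e H (ι 1) (ι 3) (ι 4)) (e H (ι 0) (ι 1) (ι 5)) (e H (ι 0) (ι 3) (ι 5)) (e H (ι 1) (ι 3) (ι 5)) (e H (ι 0) (ι 4) (ι 5)) (e H (ι 1) (ι 4) (ι 5)) (e H (ι 3) (ι 4) (ι 5)))) (ix 2 (c10 (e H (ι 0) (ι 1) (ι 2)) (e H (ι 0) (ι 1) (ι 3)) (e H (ι 0) (ι 2) (ι 3)) (e H (ι 1) (ι 2) (ι 3)) (e H (ι 0) (ι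 1) (ι 4)) (e H (ι 0) (ι 2) (ι 4)) (e H (ι 1) (ι 2) (ι 4)) (e H (ι 0) (ι 3) (ι 4)) (e H (ι 1) (ι 3) (ι 4)) (e H (ι 2) (ι 3) (ι 4)))) := Qt_img ix q ι 5 2 4 2 rfl rfl
  have h53 : Qt H ix q (((img ι).erase (ι 5)).erase (ι (Fin.succAbove (5 : Fin 6) (3 : Fin 5)))) (ι 5) (ι (Fin.succAbove (5 : Fin 6) (3 : Fin 5))) =
      q (c4 (e H (ι 0) (ι 1) (ι 2)) (e H (ι 0) (ι 1) (ι 4)) (e H (ι 0) (ι 2) (ι 4)) (e H (ι 1) (ι 2) (ι 4))) (ix 4 (c10 (e H (ι 0) (ι 1) (ι 2)) (e H (ι 0) (ι 1) (ι 4)) (e H (ι 0) (ι 2) (ι 4)) (e H (ι 1) (ι 2) (ι 4)) (e H (ι 0) (ι 1) (ι 5)) (e H (ι 0) (ι 2) (ι 5)) (e H (ι 1) (ι 2) (ι 5)) (e H (ι 0) (ι 4) (ι 5)) (e H (ι 1) (ι 4) (ι 5)) (e H (ι 2) (ι 4) (ι 5)))) (ix 3 (c10 (e H (ι 0) (ι 1) (ι 2)) (e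 H (ι 0) (ι 1) (ι 3)) (e H (ι 0) (ι 2) (ι 3)) (e H (ι 1) (ι 2) (ι 3)) (e H (ι 0) (ι 1) (ι 4)) (e H (ι 0) (ι 2) (ι 4)) (e H (ι 1) (ι 2) (ι 4)) (e H (ι 0) (ι 3) (ι 4)) (e H (ι 1) (ι 3) (ι 4)) (e H (ι 2) (ι 3) (ι 4)))) := Qt_img ix q ι 5 3 4 3 rfl rfl
  have h54 : Qt H ix q (((img ι).erase (ι 5)).erase (ι (Fin.succAbove (5 : Fin 6) (4 : Fin 5)))) (ι 5) (ι (Fin.succAbove (5 : Fin 6) (4 : Fin 5))) =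
      q (c4 (e H (ι 0) (ι 1) (ι 2)) (e H (ι 0) (ι 1) (ι 3)) (e H (ι 0) (ι 2) (ι 3)) (e H (ι 1) (ι 2) (ι 3))) (ix 4 (c10 (e H (ι 0) (ι 1) (ι 2)) (e H (ι 0) (ι 1) (ι 3)) (e H (ι 0) (ι 2) (ι 3)) (e H (ι 1) (ι 2) (ι 3)) (e H (ι 0) (ι 1) (ι 5)) (e H (ι 0) (ι 2) (ι 5)) (e H (ι 1) (ι 2) (ι 5)) (e H (ι 0) (ι 3) (ι 5)) (e H (ι 1) (ι 3) (ι 5)) (e H (ι 2) (ι 3) (ι 5)))) (ix 4 (c10 (e H (ι 0) (ι 1) (ι 2)) (e H (ι 0) (ι 1) (ι 3)) (e H (ι 0) (ι 2) (ι 3)) (e H (ι 1) (ι 2) (ι 3)) (e H (ι 0) (ι 1) (ι 4)) (e H (ι 0) (ι 2) (ι 4)) (e H (ι 1) (ι 2) (ι 4)) (e H (ι 0) (ι 3) (ι 4)) (e H (ι 1) (ι 3) (ι 4)) (e H (ι 2) (ι 3) (ι 4)))) := Qt_img ix q ι 5 4 4 4 rfl rfl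
  rw [h01, h02, h03, h04, h05, h10, h12, h13, h14, h15, h20, h21, h23, h24, h25, h30, h31, h32, h34, h35, h40, h41, h42, h43, h45, h50, h51, h52, h53, h54]
  have s01 := hq (c4 (e H (ι 2) (ι 3) (ι 4)) (e H (ι 2) (ι 3) (ι 5)) (e H (ι 2) (ι 4) (ι 5)) (e H (ι 3) (ι 4) (ι 5))) (ix 0 (c10 (e H (ι 1) (ι 2) (ι 3)) (e H (ι 1) (ι 2) (ι 4)) (e H (ι 1) (ι 3) (ι 4)) (e H (ι 2) (ι 3) (ι 4)) (e H (ι 1) (ι 2) (ι 5)) (e H (ι 1) (ι 3) (ι 5)) (e H (ι 2) (ι 3) (ι 5)) (e H (ι 1) (ι 4) (ι 5)) (e H (ι 2) (ι 4) (ι 5)) (e H (ι 3) (ι 4) (ι 5)))) (ix 0 (c10 (e H (ι 0) (ι 2) (ι 3)) (e H (ι 0) (ι 2) (ι 4)) (e H (ι 0) (ι 3) (ι 4)) (e H (ι 2) (ι 3) (ι 4)) (e H (ι 0) (ι 2) (ι 5)) (e H (ι 0) (ι 3) (ι 5)) (e H (ι 2) (ι 3) (ι 5)) (e H (ι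 0) (ι 4) (ι 5)) (e H (ι 2) (ι 4) (ι 5)) (e H (ι 3) (ι 4) (ι 5))))
  have s02 := hq (c4 (e H (ι 1) (ι 3) (ι 4)) (e H (ι 1) (ι 3) (ι 5)) (e H (ι 1) (ι 4) (ι 5)) (e H (ι 3) (ι 4) (ι 5))) (ix 1 (c10 (e H (ι 1) (ι 2) (ι 3)) (e H (ι 1) (ι 2) (ι 4)) (e H (ι 1) (ι 3) (ι 4)) (e H (ι 2) (ι 3) (ι 4)) (e H (ι 1) (ι 2) (ι 5)) (e H (ι 1) (ι 3) (ι 5)) (e H (ι 2) (ι 3) (ι 5)) (e H (ι 1) (ι 4) (ι 5)) (e H (ι 2) (ι 4) (ι 5)) (e H (ι 3) (ι 4) (ι 5)))) (ix 0 (c10 (e H (ι 0) (ι 1) (ι 3)) (e H (ι 0) (ι 1) (ι 4)) (e H (ι 0) (ι 3) (ι 4)) (e H (ι 1) (ι 3) (ι 4)) (e H (ι 0) (ι 1) (ι 5)) (e H (ι 0) (ι 3) (ι 5)) (e H (ι 1) (ι 3) (ι 5)) (e H (ι 0) (ι 4) (ι 5)) (e H (ι 1) (ι 4) (ι 5)) (e H (ι 3) (ι 4) (ι 5))))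
  have s03 := hq (c4 (e H (ι 1) (ι 2) (ι 4)) (e H (ι 1) (ι 2) (ι 5)) (e H (ι 1) (ι 4) (ι 5)) (e H (ι 2) (ι 4) (ι 5))) (ix 2 (c10 (e H (ι 1) (ι 2) (ι 3)) (e H (ι 1) (ι 2) (ι 4)) (e H (ι 1) (ι 3) (ι 4)) (e H (ι 2) (ι 3) (ι 4)) (e H (ι 1) (ι 2) (ι 5)) (e H (ι 1) (ι 3) (ι 5)) (e H (ι 2) (ι 3) (ι 5)) (e H (ι 1) (ι 4) (ι 5)) (e H (ι 2) (ι 4) (ι 5)) (e H (ι 3) (ι 4) (ι 5)))) (ix 0 (c10 (e H (ι 0) (ι 1) (ι 2)) (e H (ι 0) (ι 1) (ι 4)) (e H (ι 0) (ι 2) (ι 4)) (e H (ι 1) (ι 2) (ι 4)) (e H (ι 0) (ι 1) (ι 5)) (e H (ι 0) (ι 2) (ι 5)) (e H (ι 1) (ι 2) (ι 5)) (e H (ι 0) (ι 4) (ι 5)) (e H (ι 1) (ι 4) (ι 5)) (e H (ι 2) (ι 4) (ι 5))))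
  have s04 := hq (c4 (e H (ι 1) (ι 2) (ι 3)) (e H (ι 1) (ι 2) (ι 5)) (e H (ι 1) (ι 3) (ι 5)) (e H (ι 2) (ι 3) (ι 5))) (ix 3 (c10 (e H (ι 1) (ι 2) (ι 3)) (e H (ι 1) (ι 2) (ι 4)) (e H (ι 1) (ι 3) (ι 4)) (e H (ι 2) (ι 3) (ι 4)) (e H (ι 1) (ι 2) (ι 5)) (e H (ι 1) (ι 3) (ι 5)) (e H (ι 2) (ι 3) (ι 5)) (e H (ι 1) (ι 4) (ι 5)) (e H (ι 2) (ι 4) (ι 5)) (e H (ι 3) (ι 4) (ι 5)))) (ix 0 (c10 (e H (ι 0) (ι 1) (ι 2)) (e H (ι 0) (ι 1) (ι 3)) (e H (ι 0) (ι 2) (ι 3)) (e H (ι 1) (ι 2) (ι 3)) (e H (ι 0) (ι 1) (ι 5)) (e H (ι 0) (ι 2) (ι 5)) (e H (ι 1) (ι 2) (ι 5)) (e H (ι 0) (ι 3) (ι 5)) (e H (ι 1) (ι 3) (ι 5)) (e H (ι 2) (ι 3) (ι 5))))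
  have s05 := hq (c4 (e H (ι 1) (ι 2) (ι 3)) (e H (ι 1) (ι 2) (ι 4)) (e H (ι 1) (ι 3) (ι 4)) (e H (ι 2) (ι 3) (ι 4))) (ix 4 (c10 (e H (ι 1) (ι 2) (ι 3)) (e H (ι 1) (ι 2) (ι 4)) (e H (ι 1) (ι 3) (ι 4)) (e H (ι 2) (ι 3) (ι 4)) (e H (ι 1) (ι 2) (ι 5)) (e H (ι 1) (ι 3) (ι 5)) (e H (ι 2) (ι 3) (ι 5)) (e H (ι 1) (ι 4) (ι 5)) (e H (ι 2) (ι 4) (ι 5)) (e H (ι 3) (ι 4) (ι 5)))) (ix 0 (c10 (e H (ι 0) (ι 1) (ι 2)) (e H (ι 0) (ι 1) (ι 3)) (e H (ι 0) (ι 2) (ι 3)) (e H (ι 1) (ι 2) (ι 3)) (e H (ι 0) (ι 1) (ι 4)) (e H (ι 0) (ι 2) (ι 4)) (e H (ι 1) (ι 2) (ι 4)) (e H (ι 0) (ι 3) (ι 4)) (e H (ι 1) (ι 3) (ι 4)) (e H (ι 2) (ι 3) (ι 4))))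
  have s12 := hq (c4 (e H (ι 0) (ι 3) (ι 4)) (e H (ι 0) (ι 3) (ι 5)) (e H (ι 0) (ι 4) (ι 5)) (e H (ι 3) (ι 4) (ι 5))) (ix 1 (c10 (e H (ι 0) (ι 2) (ι 3)) (e H (ι 0) (ι 2) (ι 4)) (e H (ι 0) (ι 3) (ι 4)) (e H (ι 2) (ι 3) (ι 4)) (e H (ι 0) (ι 2) (ι 5)) (e H (ι 0) (ι 3) (ι 5)) (e H (ι 2) (ι 3) (ι 5)) (e H (ι 0) (ι 4) (ι 5)) (e H (ι 2) (ι 4) (ι 5)) (e H (ι 3) (ι 4) (ι 5)))) (ix 1 (c10 (e H (ι 0) (ι 1) (ι 3)) (e H (ι 0) (ι 1) (ι 4)) (e H (ι 0) (ι 3) (ι 4)) (e H (ι 1) (ι 3) (ι 4)) (e H (ι 0) (ι 1) (ι 5)) (e H (ι 0) (ι 3) (ι 5)) (e H (ι 1) (ι 3) (ι 5)) (e H (ι 0) (ι 4) (ι 5)) (e H (ι 1) (ι 4) (ι 5)) (e H (ι 3) (ι 4) (ι 5))))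
  have s13 := hq (c4 (e H (ι 0) (ι 2) (ι 4)) (e H (ι 0) (ι 2) (ι 5)) (e H (ι 0) (ι 4) (ι 5)) (e H (ι 2) (ι 4) (ι 5))) (ix 2 (c10 (e H (ι 0) (ι 2) (ι 3)) (e H (ι 0) (ι 2) (ι 4)) (e H (ι 0) (ι 3) (ι 4)) (e H (ι 2) (ι 3) (ι 4)) (e H (ι 0) (ι 2) (ι 5)) (e H (ι 0) (ι 3) (ι 5)) (e H (ι 2) (ι 3) (ι 5)) (e H (ι 0) (ι 4) (ι 5)) (e H (ι 2) (ι 4) (ι 5)) (e H (ι 3) (ι 4) (ι 5)))) (ix 1 (c10 (e H (ι 0) (ι 1) (ι 2)) (e H (ι 0) (ι 1) (ι 4)) (e H (ι 0) (ι 2) (ι 4)) (e H (ι 1) (ι 2) (ι 4)) (e H (ι 0) (ι 1) (ι 5)) (e H (ι 0) (ι 2) (ι 5)) (e H (ι 1) (ι 2) (ι 5)) (e H (ι 0) (ι 4) (ι 5)) (e H (ι 1) (ι 4) (ι 5)) (e H (ι 2) (ι 4) (ι 5))))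
  have s14 := hq (c4 (e H (ι 0) (ι 2) (ι 3)) (e H (ι 0) (ι 2) (ι 5)) (e H (ι 0) (ι 3) (ι 5)) (e H (ι 2) (ι 3) (ι 5))) (ix 3 (c10 (e H (ι 0) (ι 2) (ι 3)) (e H (ι 0) (ι 2) (ι 4)) (e H (ι 0) (ι 3) (ι 4)) (e H (ι 2) (ι 3) (ι 4)) (e H (ι 0) (ι 2) (ι 5)) (e H (ι 0) (ι 3) (ι 5)) (e H (ι 2) (ι 3) (ι 5)) (e H (ι 0) (ι 4) (ι 5)) (e H (ι 2) (ι 4) (ι 5)) (e H (ι 3) (ι 4) (ι 5)))) (ix 1 (c10 (e H (ι 0) (ι 1) (ι 2)) (e H (ι 0) (ι 1) (ι 3)) (e H (ι 0) (ι 2) (ι 3)) (e H (ι 1) (ι 2) (ι 3)) (e H (ι 0) (ι 1) (ι 5)) (e H (ι 0) (ι 2) (ι 5)) (e H (ι 1) (ι 2) (ι 5)) (e H (ι 0) (ι 3) (ι 5)) (e H (ι 1) (ι 3) (ι 5)) (e H (ι 2) (ι 3) (ι 5))))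
  have s15 := hq (c4 (e H (ι 0) (ι 2) (ι 3)) (e H (ι 0) (ι 2) (ι 4)) (e H (ι 0) (ι 3) (ι 4)) (e H (ι 2) (ι 3) (ι 4))) (ix 4 (c10 (e H (ι 0) (ι 2) (ι 3)) (e H (ι 0) (ι 2) (ι 4)) (e H (ι 0) (ι 3) (ι 4)) (e H (ι 2) (ι 3) (ι 4)) (e H (ι 0) (ι 2) (ι 5)) (e H (ι 0) (ι 3) (ι 5)) (e H (ι 2) (ι 3) (ι 5)) (e H (ι 0) (ι 4) (ι 5)) (e H (ι 2) (ι 4) (ι 5)) (e H (ι 3) (ι 4) (ι 5)))) (ix 1 (c10 (e H (ι 0) (ι 1) (ι 2)) (e H (ι 0) (ι 1) (ι 3)) (e H (ι 0) (ι 2) (ι 3)) (e H (ι 1) (ι 2) (ι 3)) (e H (ι 0) (ι 1) (ι 4)) (e H (ι 0) (ι 2) (ι 4)) (e H (ι 1) (ι 2) (ι 4)) (e H (ι 0) (ι 3) (ι 4)) (e H (ι 1) (ι 3) (ι 4)) (e H (ι 2) (ι 3) (ι 4))))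
  have s23 := hq (c4 (e H (ι 0) (ι 1) (ι 4)) (e H (ι 0) (ι 1) (ι 5)) (e H (ι 0) (ι 4) (ι 5)) (e H (ι 1) (ι 4) (ι 5))) (ix 2 (c10 (e H (ι 0) (ι 1) (ι 3)) (e H (ι 0) (ι 1) (ι 4)) (e H (ι 0) (ι 3) (ι 4)) (e H (ι 1) (ι 3) (ι 4)) (e H (ι 0) (ι 1) (ι 5)) (e H (ι 0) (ι 3) (ι 5)) (e H (ι 1) (ι 3) (ι 5)) (e H (ι 0) (ι 4) (ι 5)) (e H (ι 1) (ι 4) (ι 5)) (e H (ι 3) (ι 4) (ι 5)))) (ix 2 (c10 (e H (ι 0) (ι 1) (ι 2)) (e H (ι 0) (ι 1) (ι 4)) (e H (ι 0) (ι 2) (ι 4)) (e H (ι 1) (ι 2) (ι 4)) (e H (ι 0) (ι 1) (ι 5)) (e H (ι 0) (ι 2) (ι 5)) (e H (ι 1) (ι 2) (ι 5)) (e H (ι 0) (ι 4) (ι 5)) (e H (ι 1) (ι 4) (ι 5)) (e H (ι 2) (ι 4) (ι 5))))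
  have s24 := hq (c4 (e H (ι 0) (ι 1) (ι 3)) (e H (ι 0) (ι 1) (ι 5)) (e H (ι 0) (ι 3) (ι 5)) (e H (ι 1) (ι 3) (ι 5))) (ix 3 (c10 (e H (ι 0) (ι 1) (ι 3)) (e H (ι 0) (ι 1) (ι 4)) (e H (ι 0) (ι 3) (ι 4)) (e H (ι 1) (ι 3) (ι 4)) (e H (ι 0) (ι 1) (ι 5)) (e H (ι 0) (ι 3) (ι 5)) (e H (ι 1) (ι 3) (ι 5)) (e H (ι 0) (ι 4) (ι 5)) (e H (ι 1) (ι 4) (ι 5)) (e H (ι 3) (ι 4) (ι 5)))) (ix 2 (c10 (e H (ι 0) (ι 1) (ι 2)) (e H (ι 0) (ι 1) (ι 3)) (e H (ι 0) (ι 2) (ι 3)) (e H (ι 1) (ι 2) (ι 3)) (e H (ι 0) (ι 1) (ι 5)) (e H (ι 0) (ι 2) (ι 5)) (e H (ι 1) (ι 2) (ι 5)) (e H (ι 0) (ι 3) (ι 5)) (e H (ι 1) (ι 3) (ι 5)) (e H (ι 2) (ι 3) (ι 5))))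
  have s25 := hq (c4 (e H (ι 0) (ι 1) (ι 3)) (e H (ι 0) (ι 1) (ι 4)) (e H (ι 0) (ι 3) (ι 4)) (e H (ι 1) (ι 3) (ι 4))) (ix 4 (c10 (e H (ι 0) (ι 1) (ι 3)) (e H (ι 0) (ι 1) (ι 4)) (e H (ι 0) (ι 3) (ι 4)) (e H (ι 1) (ι 3) (ι 4)) (e H (ι 0) (ι 1) (ι 5)) (e H (ι 0) (ι 3) (ι 5)) (e H (ι 1) (ι 3) (ι 5)) (e H (ι 0) (ι 4) (ι 5)) (e H (ι 1) (ι 4) (ι 5)) (e H (ι 3) (ι 4) (ι 5)))) (ix 2 (c10 (e H (ι 0) (ι 1) (ι 2)) (e H (ι 0) (ι 1) (ι 3)) (e H (ι 0) (ι 2) (ι 3)) (e H (ι 1) (ι 2) (ι 3)) (e H (ι 0) (ι 1) (ι 4)) (e H (ι 0) (ι 2) (ι 4)) (e H (ι 1) (ι 2) (ι 4)) (e H (ι 0) (ι 3) (ι 4)) (e H (ι 1) (ι 3) (ι 4)) (e H (ι 2) (ι 3) (ι 4))))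
  have s34 := hq (c4 (e H (ι 0) (ι 1) (ι 2)) (e H (ι 0) (ι 1) (ι 5)) (e H (ι 0) (ι 2) (ι 5)) (e H (ι 1) (ι 2) (ι 5))) (ix 3 (c10 (e H (ι 0) (ι 1) (ι 2)) (e H (ι 0) (ι 1) (ι 4)) (e H (ι 0) (ι 2) (ι 4)) (e H (ι 1) (ι 2) (ι 4)) (e H (ι 0) (ι 1) (ι 5)) (e H (ι 0) (ι 2) (ι 5)) (e H (ι 1) (ι 2) (ι 5)) (e H (ι 0) (ι 4) (ι 5)) (e H (ι 1) (ι 4) (ι 5)) (e H (ι 2) (ι 4) (ι 5)))) (ix 3 (c10 (e H (ι 0) (ι 1) (ι 2)) (e H (ι 0) (ι 1) (ι 3)) (e H (ι 0) (ι 2) (ι 3)) (e H (ι 1) (ι 2) (ι 3)) (e H (ι 0) (ι 1) (ι 5)) (e H (ι 0) (ι 2) (ι 5)) (e H (ι 1) (ι 2) (ι 5)) (e H (ι 0) (ι 3) (ι 5)) (e H (ι 1) (ι 3) (ι 5)) (e H (ι 2) (ι 3) (ι 5))))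
  have s35 := hq (c4 (e H (ι 0) (ι 1) (ι 2)) (e H (ι 0) (ι 1) (ι 4)) (e H (ι 0) (ι 2) (ι 4)) (e H (ι 1) (ι 2) (ι 4))) (ix 4 (c10 (e H (ι 0) (ι 1) (ι 2)) (e H (ι 0) (ι 1) (ι 4)) (e H (ι 0) (ι 2) (ι 4)) (e H (ι 1) (ι 2) (ι 4)) (e H (ι 0) (ι 1) (ι 5)) (e H (ι 0) (ι 2) (ι 5)) (e H (ι 1) (ι 2) (ι 5)) (e H (ι 0) (ι 4) (ι 5)) (e H (ι 1) (ι 4) (ι 5)) (e H (ι 2) (ι 4) (ι 5)))) (ix 3 (c10 (e H (ι 0) (ι 1) (ι 2)) (e H (ι 0) (ι 1) (ι 3)) (e H (ι 0) (ι 2) (ι 3)) (e H (ι 1) (ι 2) (ι 3)) (e H (ι 0) (ι 1) (ι 4)) (e H (ι 0) (ι 2) (ι 4)) (e H (ι 1) (ι 2) (ι 4)) (e H (ι 0) (ι 3) (ι 4)) (e H (ι 1) (ι 3) (ι 4)) (e H (ι 2) (ι 3) (ι 4))))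
  have s45 := hq (c4 (e H (ι 0) (ι 1) (ι 2)) (e H (ι 0) (ι 1) (ι 3)) (e H (ι 0) (ι 2) (ι 3)) (e H (ι 1) (ι 2) (ι 3))) (ix 4 (c10 (e H (ι 0) (ι 1) (ι 2)) (e H (ι 0) (ι 1) (ι 3)) (e H (ι 0) (ι 2) (ι 3)) (e H (ι 1) (ι 2) (ι 3)) (e H (ι 0) (ι 1) (ι 5)) (e H (ι 0) (ι 2) (ι 5)) (e H (ι 1) (ι 2) (ι 5)) (e H (ι 0) (ι 3) (ι 5)) (e H (ι 1) (ι 3) (ι 5)) (e H (ι 2) (ι 3) (ι 5)))) (ix 4 (c10 (e H (ι 0) (ι 1) (ι 2)) (e H (ι 0) (ι 1) (ι 3)) (e H (ι 0) (ι 2) (ι 3)) (e H (ι 1) (ι 2) (ι 3)) (e H (ι 0) (ι 1) (ι 4)) (e H (ι 0) (ι 2) (ι 4)) (e H (ι 1) (ι 2) (ι 4)) (e H (ι 0) (ι 3) (ι 4)) (e H (ι 1) (ι 3) (ι 4)) (e H (ι 2) (ι 3) (ι 4))))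
  rw [s01, s02, s03, s04, s05, s12, s13, s14, s15, s23, s24, s25, s34, s35, s45]
  unfold pairSum
  ring

end Pool.Agent.K3h27.OP
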