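import Pool.Agent.K3h27.OP.Fin
import Pool.Agent.K3h27.OP.Ker

/-! The tree of all admissible 3-graphs on six vertices. -/

set_option autoImplicit false
set_option linter.unusedVariables false
set_option maxHeartbeats 4000000
open Finset

namespace Pool.Agent.K3h27.OP

abbrev F20 : Type := ℕ → ℕ → ℕ → ℕ → ℕ → ℕ → ℕ → ℕ → ℕ → ℕ → ℕ → ℕ → ℕ → ℕ → ℕ → ℕ → ℕ → ℕ → ℕ → ℕ → Bool

def treeP (ok : ℕ → Bool) (leaf : F20) (b012 b013 b023 b123 : ℕ) : Bool :=
  B2 fun b014 => B2 fun b024 => B2 fun b124 => imp (ok (c4 b012 b014 b024 b124)) (B2 fun b034 => B2 fun b134 => imp (ok (c4 b013 b014 b034 b134)) (B2 fun b234 => imp (ok (c4 b023 b024 b034 b234)) (imp (ok (c4 b123 b124 b134 b234)) (B2 fun b015 => B2 fun b025 => B2 fun b125 => imp (ok (c4 b012 b015 b025 b125)) (B2 fun b035 => B2 fun b135 => imp (ok (c4 b013 b015 b035 b135)) (B2 fun b235 => imp (ok (c4 b023 b025 b035 b235)) (imp (ok (c4 b123 b125 b135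 b235)) (B2 fun b045 => B2 fun b145 => imp (ok (c4 b014 b015 b045 b145)) (B2 fun b245 => imp (ok (c4 b024 b025 b045 b245)) (imp (ok (c4 b124 b125 b145 b245)) (B2 fun b345 => imp (ok (c4 b034 b035 b045 b345)) (imp (ok (c4 b134 b135 b145 b345)) (imp (ok (c4 b234 b235 b245 b345)) (leaf b012 b013 b023 b123 b014 b024 b124 b034 b134 b234 b015 b025 b125 b035 b135 b235 b045 b145 b245 b345))))))))))))))

theorem tree_spec {ok : ℕ → Bool} {leaf : F20} {b012 b013 b023 b123 : ℕ} (h : treeP ok leaf b012 b013 b023 b123 = true)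
    {b014 b024 b124 b034 b134 b234 b015 b025 b125 b035 b135 b235 b045 b145 b245 b345 : ℕ} (h_b014 : b014 ≤ 1) (h_b024 : b024 ≤ 1) (h_b124 : b124 ≤ 1) (h_b034 : b034 ≤ 1) (h_b134 : b134 ≤ 1) (h_b234 : b234 ≤ 1) (h_b015 : b015 ≤ 1) (h_b025 : b025 ≤ 1) (h_b125 : b125 ≤ 1) (h_b035 : b035 ≤ 1) (h_b135 : b135 ≤ 1) (h_b235 : b235 ≤ 1) (h_b045 : b045 ≤ 1) (h_b145 : b145 ≤ 1) (h_b245 : b245 ≤ 1) (h_b345 : b345 ≤ 1)
    (hok : Ok6 (fun t => ok t = true) b012 b013 b023 b123 b014 b024 b124 b034 b134 b234 b015 b025 b125 b035 b135 b235 b045 b145 b245 b345) : leaf b012 b013 b023 b123 b014 b024 b124 b034 b134 b234 b015 b025 b125 b035 b135 b235 b045 b145 b245 b345 = true := by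
  obtain ⟨o0123, o0124, o0134, o0234, o1234, o0125, o0135, o0235, o1235, o0145, o0245, o1245, o0345, o1345, o2345⟩ := hok
  unfold treeP at h
  replace h := B2_true h h_b014
  replace h := B2_true h h_b024
  replace h := B2_true h h_b124
  replace h := imp_true h o0124
  replace h := B2_true h h_b034
  replace h := B2_true h h_b134
  replace h := imp_true h o0134
  replace h := B2_true h h_b234
  replace h := imp_true h o0234
  replace h := imp_true h o1234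
  replace h := B2_true h h_b015
  replace h := B2_true h h_b025
  replace h := B2_true h h_b125
  replace h := imp_true h o0125
  replace h := B2_true h h_b035
  replace h := B2_true h h_b135
  replace h := imp_true h o0135
  replace h := B2_true h h_b235
  replace h := imp_true h o0235
  replace h := imp_true h o1235
  replace h := B2_true h h_b045
  replace h := B2_true h h_b145
  replace h := imp_true h o0145
  replace h := B2_true h h_b245
  replace h := imp_true h o0245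
  replace h := imp_true h o1245
  replace h := B2_true h h_b345
  replace h := imp_true h o0345
  replace h := imp_true h o1345
  replace h := imp_true h o2345
  exact h

/-- the number of edges -/
def edgN (b012 b013 b023 b123 b014 b024 b124 b034 b134 b234 b015 b025 b125 b035 b135 b235 b045 b145 b245 b345 : ℕ) : ℕ := Nat.add (b012) (Nat.add (b013) (Nat.add (b023) (Nat.add (b123) (Nat.add (b014) (Nat.add (b024) (Nat.add (b124) (Nat.add (b034) (Nat.add (b134) (Nat.add (b234) (Nat.add (b015) (Nat.add (b025) (Nat.add (b125) (Nat.add (b035) (Nat.add (b135) (Nat.add (b235) (Nat.add (b045) (Nat.add (b145) (Nat.add (b245) (b345)))))))))))))))))))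

theorem edgN_eq (b012 b013 b023 b123 b014 b024 b124 b034 b134 b234 b015 b025 b125 b035 b135 b235 b045 b145 b245 b345 : ℕ) : edgN b012 b013 b023 b123 b014 b024 b124 b034 b134 b234 b015 b025 b125 b035 b135 b235 b045 b145 b245 b345 = edg b012 b013 b023 b123 b014 b024 b124 b034 b134 b234 b015 b025 b125 b035 b135 b235 b045 b145 b245 b345 := by
  unfold edgN edg
  simp only [Nat.add_eq]
  ring

def pairN (ix : ℕ → ℕ → ℕ) (q : ℕ → ℕ → ℕ → ℕ) (b012 b013 b023 b123 b014 b024 b124 b034 b134 b234 b015 b025 b125 b035 b135 b235 b045 b145 b245 b345 : ℕ) : ℕ :=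
  Nat.add (q (c4 b234 b235 b245 b345) (ix 0 (c10 b023 b024 b034 b234 b025 b035 b235 b045 b245 b345)) (ix 0 (c10 b123 b124 b134 b234 b125 b135 b235 b145 b245 b345))) (Nat.add (q (c4 b134 b135 b145 b345) (ix 0 (c10 b013 b014 b034 b134 b015 b035 b135 b045 b145 b345)) (ix 1 (c10 b123 b124 b134 b234 b125 b135 b235 b145 b245 b345))) (Nat.add (q (c4 b124 b125 b145 b245) (ix 0 (c10 b012 b014 b024 b124 b015 b025 b125 b045 b145 b245)) (ix 2 (c10 b123 b124 b134 b234 b125 b135 b235 b145 b245 b345))) (Nat.add (q (c4 b123 b125 b135 b235) (ix 0 (c10 b012 b013 b023 b123 b015 b025 b125 b035 b135 b235)) (ix 3 (c10 b123 b124 b134 b234 b125 b135 b235 b145 b245 b345))) (Nat.add (q (c4 b123 b124 b134 b234) (ix 0 (c10 b012 b013 b023 b123 b014 b024 b124 b034 b134 b234)) (ix 4 (c10 b123 b124 b134 b234 b125 b135 b235 b145 b245 b345))) (Nat.add (q (c4 b034 b035 b045 b345) (ix 1 (c10 b013 b014 b034 b134 b015 b035 b135 b045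 b145 b345)) (ix 1 (c10 b023 b024 b034 b234 b025 b035 b235 b045 b245 b345))) (Nat.add (q (c4 b024 b025 b045 b245) (ix 1 (c10 b012 b014 b024 b124 b015 b025 b125 b045 b145 b245)) (ix 2 (c10 b023 b024 b034 b234 b025 b035 b235 b045 b245 b345))) (Nat.add (q (c4 b023 b025 b035 b235) (ix 1 (c10 b012 b013 b023 b123 b015 b025 b125 b035 b135 b235)) (ix 3 (c10 b023 b024 b034 b234 b025 b035 b235 b045 b245 b345))) (Nat.add (q (c4 b023 b024 b034 b234) (ix 1 (c10 b012 b013 b023 b123 b014 b024 b124 b034 b134 b234)) (ix 4 (c10 b023 b024 b034 b234 b025 b035 b235 b045 b245 b345))) (Nat.add (q (c4 b014 b015 b045 b145) (ix 2 (c10 b012 b014 b024 b124 b015 b025 b125 b045 b145 b245)) (ix 2 (c10 b013 b014 b034 b134 b015 b035 b135 b045 b145 b345))) (Nat.add (q (c4 b013 b015 b035 b135) (ix 2 (c10 b012 b013 b023 b123 b015 b025 b125 b035 b135 b235)) (ix 3 (c10 b013 b014 b034 b134 b015 b035 b135 b045 b145 b345))) (Nat.add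 (q (c4 b013 b014 b034 b134) (ix 2 (c10 b012 b013 b023 b123 b014 b024 b124 b034 b134 b234)) (ix 4 (c10 b013 b014 b034 b134 b015 b035 b135 b045 b145 b345))) (Nat.add (q (c4 b012 b015 b025 b125) (ix 3 (c10 b012 b013 b023 b123 b015 b025 b125 b035 b135 b235)) (ix 3 (c10 b012 b014 b024 b124 b015 b025 b125 b045 b145 b245))) (Nat.add (q (c4 b012 b014 b024 b124) (ix 3 (c10 b012 b013 b023 b123 b014 b024 b124 b034 b134 b234)) (ix 4 (c10 b012 b014 b024 b124 b015 b025 b125 b045 b145 b245))) (q (c4 b012 b013 b023 b123) (ix 4 (c10 b012 b013 b023 b123 b014 b024 b124 b034 b134 b234)) (ix 4 (c10 b012 b013 b023 b123 b015 b025 b125 b035 b135 b235))))))))))))))))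

theorem pairN_eq (ix : ℕ → ℕ → ℕ) (q : ℕ → ℕ → ℕ → ℕ) (O : ℕ) (b012 b013 b023 b123 b014 b024 b124 b034 b134 b234 b015 b025 b125 b035 b135 b235 b045 b145 b245 b345 : ℕ) :
    (pairN ix q b012 b013 b023 b123 b014 b024 b124 b034 b134 b234 b015 b025 b125 b035 b135 b235 b045 b145 b245 b345 : ℤ) = pairSum ix (fun t i j => (q t i j : ℤ) - O) b012 b013 b023 b123 b014 b024 b124 b034 b134 b234 b015 b025 b125 b035 b135 b235 b045 b145 b245 b345 + 15 * O := by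
  unfold pairN pairSum
  simp only [Nat.add_eq]
  push_cast
  ring

def w5N (w : ℕ → ℕ) (b012 b013 b023 b123 b014 b024 b124 b034 b134 b234 b015 b025 b125 b035 b135 b235 b045 b145 b245 b345 : ℕ) : ℕ := Nat.add (w (c10 b123 b124 b134 b234 b125 b135 b235 b145 b245 b345)) (Nat.add (w (c10 b023 b024 b034 b234 b025 b035 b235 b045 b245 b345)) (Nat.add (w (c10 b013 b014 b034 b134 b015 b035 b135 b045 b145 b345)) (Nat.add (w (c10 b012 b014 b024 b124 b015 b025 b125 b045 b145 b245)) (Nat.add (w (c10 b012 b013 b023 b123 b015 b025 b125 b035 b135 b235)) (w (c10 b012 b013 b023 b123 b014 b024 b124 b034 b134 b234))))))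

theorem w5N_eq (w : ℕ → ℕ) (O : ℕ) (hw : ∀ b0 b1 b2 b3 b4 b5 b6 b7 b8 b9 : ℕ, b0 ≤ 1 → b1 ≤ 1 →
    b2 ≤ 1 → b3 ≤ 1 → b4 ≤ 1 → b5 ≤ 1 → b6 ≤ 1 → b7 ≤ 1 → b8 ≤ 1 → b9 ≤ 1 →
    (w (c10 b0 b1 b2 b3 b4 b5 b6 b7 b8 b9) : ℤ) = w5f b0 b1 b2 b3 b4 b5 b6 b7 b8 b9 + O)
    {b012 b013 b023 b123 b014 b024 b124 b034 b134 b234 b015 b025 b125 b035 b135 b235 b045 b145 b245 b345 : ℕ} (h_b012 : b012 ≤ 1) (h_b013 : b013 ≤ 1) (h_b023 : b023 ≤ 1) (h_b123 : b123 ≤ 1) (h_b014 : b014 ≤ 1) (h_b024 : b024 ≤ 1) (h_b124 : b124 ≤ 1) (h_b034 : b034 ≤ 1) (h_b134 : b134 ≤ 1) (h_b234 : b234 ≤ 1) (h_b015 : b015 ≤ 1) (h_b025 : b025 ≤ 1) (h_b125 : b125 ≤ 1) (h_b035 : b035 ≤ 1) (h_b135 : b135 ≤ 1) (h_b235 : b235 ≤ 1) (h_b045 : b045 ≤ 1) (h_b145 : b145 ≤ 1) (h_b245 : b245 ≤ 1) (h_b345 : b345 ≤ 1) :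
    (w5N w b012 b013 b023 b123 b014 b024 b124 b034 b134 b234 b015 b025 b125 b035 b135 b235 b045 b145 b245 b345 : ℤ) = w5S b012 b013 b023 b123 b014 b024 b124 b034 b134 b234 b015 b025 b125 b035 b135 b235 b045 b145 b245 b345 + 6 * O := by
  unfold w5N w5S
  simp only [Nat.add_eq]
  push_cast
  rw [hw _ _ _ _ _ _ _ _ _ _ h_b123 h_b124 h_b134 h_b234 h_b125 h_b135 h_b235 h_b145 h_b245 h_b345, hw _ _ _ _ _ _ _ _ _ _ h_b023 h_b024 h_b034 h_b234 h_b025 h_b035 h_b235 h_b045 h_b245 h_b345, hw _ _ _ _ _ _ _ _ _ _ h_b013 h_b014 h_b034 h_b134 h_b015 h_b035 h_b135 h_b045 h_b145 h_b345, hw _ _ _ _ _ _ _ _ _ _ h_b012 h_b014 h_b024 h_b124 h_b015 h_b025 h_b125 h_b045 h_b145 h_b245, hw _ _ _ _ _ _ _ _ _ _ h_b012 h_b013 h_b023 h_b123 h_b015 h_b025 h_b125 h_b035 h_b135 h_b235, hw _ _ _ _ _ _ _ _ _ _ h_b012 h_b013 h_b023 h_b123 h_b014 h_b024 h_b124 h_b034 h_b134 h_b234]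
  ring

def twoN (ix : ℕ → ℕ → ℕ) (q : ℕ → ℕ → ℕ) (b012 b013 b023 b123 b014 b024 b124 b034 b134 b234 b015 b025 b125 b035 b135 b235 b045 b145 b245 b345 : ℕ) : ℕ :=
  Nat.add (q (ix 3 (c4 b012 b013 b023 b123)) (ix 3 (c4 b014 b015 b045 b145))) (Nat.add (q (ix 5 (c4 b012 b013 b023 b123)) (ix 3 (c4 b024 b025 b045 b245))) (Nat.add (q (ix 6 (c4 b012 b013 b023 b123)) (ix 3 (c4 b124 b125 b145 b245))) (Nat.add (q (ix 9 (c4 b012 b013 b023 b123)) (ix 3 (c4 b034 b035 b045 b345))) (Nat.add (q (ix 10 (c4 b012 b013 b023 b123)) (ix 3 (c4 b134 b135 b145 b345))) (Nat.add (q (ix 12 (c4 b012 b013 b023 b123)) (ix 3 (c4 b234 b235 b245 b345))) (Nat.add (q (ix 3 (c4 b012 b014 b024 b124)) (ix 3 (c4 b013 b015 b035 b135))) (Nat.add (q (ix 5 (c4 b012 b014 b024 b124)) (ix 3 (c4 b023 b025 b035 b235))) (Nat.add (q (ix 6 (c4 b012 b014 b024 b124)) (ix 3 (c4 b123 b125 b135 b235))) (Nat.add (q (ix 9 (c4 b012 b014 b024 b124)) (ix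 5 (c4 b034 b035 b045 b345))) (Nat.add (q (ix 10 (c4 b012 b014 b024 b124)) (ix 5 (c4 b134 b135 b145 b345))) (Nat.add (q (ix 12 (c4 b012 b014 b024 b124)) (ix 5 (c4 b234 b235 b245 b345))) (Nat.add (q (ix 3 (c4 b013 b014 b034 b134)) (ix 3 (c4 b012 b015 b025 b125))) (Nat.add (q (ix 5 (c4 b013 b014 b034 b134)) (ix 5 (c4 b023 b025 b035 b235))) (Nat.add (q (ix 6 (c4 b013 b014 b034 b134)) (ix 5 (c4 b123 b125 b135 b235))) (Nat.add (q (ix 9 (c4 b013 b014 b034 b134)) (ix 5 (c4 b024 b025 b045 b245))) (Nat.add (q (ix 10 (c4 b013 b014 b034 b134)) (ix 5 (c4 b124 b125 b145 b245))) (Nat.add (q (ix 12 (c4 b013 b014 b034 b134)) (ix 6 (c4 b234 b235 b245 b345))) (Nat.add (q (ix 3 (c4 b023 b024 b034 b234)) (ix 5 (c4 b012 b015 b025 b125))) (Nat.add (q (ix 5 (c4 b023 b024 b034 b234)) (ix 5 (c4 b013 b015 b035 b135))) (Nat.add (q (ix 6 (c4 b023 b024 b034 b234)) (ix 6 (c4 b123 b125 b135 b235))) (Nat.add (q (ix 9 (c4 b023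 b024 b034 b234)) (ix 5 (c4 b014 b015 b045 b145))) (Nat.add (q (ix 10 (c4 b023 b024 b034 b234)) (ix 6 (c4 b124 b125 b145 b245))) (Nat.add (q (ix 12 (c4 b023 b024 b034 b234)) (ix 6 (c4 b134 b135 b145 b345))) (Nat.add (q (ix 3 (c4 b123 b124 b134 b234)) (ix 6 (c4 b012 b015 b025 b125))) (Nat.add (q (ix 5 (c4 b123 b124 b134 b234)) (ix 6 (c4 b013 b015 b035 b135))) (Nat.add (q (ix 6 (c4 b123 b124 b134 b234)) (ix 6 (c4 b023 b025 b035 b235))) (Nat.add (q (ix 9 (c4 b123 b124 b134 b234)) (ix 6 (c4 b014 b015 b045 b145))) (Nat.add (q (ix 10 (c4 b123 b124 b134 b234)) (ix 6 (c4 b024 b025 b045 b245))) (Nat.add (q (ix 12 (c4 b123 b124 b134 b234)) (ix 6 (c4 b034 b035 b045 b345))) (Nat.add (q (ix 9 (c4 b012 b015 b025 b125)) (ix 9 (c4 b034 b035 b045 b345))) (Nat.add (q (ix 10 (c4 b012 b015 b025 b125)) (ix 9 (c4 b134 b135 b145 b345))) (Nat.add (q (ix 12 (c4 b012 b015 b025 b125)) (ix 9 (c4 b234 b235 b245 b345))) (Nat.add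 (q (ix 9 (c4 b013 b015 b035 b135)) (ix 9 (c4 b024 b025 b045 b245))) (Nat.add (q (ix 10 (c4 b013 b015 b035 b135)) (ix 9 (c4 b124 b125 b145 b245))) (Nat.add (q (ix 12 (c4 b013 b015 b035 b135)) (ix 10 (c4 b234 b235 b245 b345))) (Nat.add (q (ix 9 (c4 b023 b025 b035 b235)) (ix 9 (c4 b014 b015 b045 b145))) (Nat.add (q (ix 10 (c4 b023 b025 b035 b235)) (ix 10 (c4 b124 b125 b145 b245))) (Nat.add (q (ix 12 (c4 b023 b025 b035 b235)) (ix 10 (c4 b134 b135 b145 b345))) (Nat.add (q (ix 9 (c4 b123 b125 b135 b235)) (ix 10 (c4 b014 b015 b045 b145))) (Nat.add (q (ix 10 (c4 b123 b125 b135 b235)) (ix 10 (c4 b024 b025 b045 b245))) (Nat.add (q (ix 12 (c4 b123 b125 b135 b235)) (ix 10 (c4 b034 b035 b045 b345))) (Nat.add (q (ix 12 (c4 b014 b015 b045 b145)) (ix 12 (c4 b234 b235 b245 b345))) (Nat.add (q (ix 12 (c4 b024 b025 b045 b245)) (ix 12 (c4 b134 b135 b145 b345))) (q (ix 12 (c4 b124 b125 b145 b245)) (ix 12 (c4 b034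 b035 b045 b345))))))))))))))))))))))))))))))))))))))))))))))

theorem twoN_eq (ix : ℕ → ℕ → ℕ) (q : ℕ → ℕ → ℕ) (O : ℕ) (b012 b013 b023 b123 b014 b024 b124 b034 b134 b234 b015 b025 b125 b035 b135 b235 b045 b145 b245 b345 : ℕ) :
    (twoN ix q b012 b013 b023 b123 b014 b024 b124 b034 b134 b234 b015 b025 b125 b035 b135 b235 b045 b145 b245 b345 : ℤ) = twoSum ix (fun i j => (q i j : ℤ) - O) b012 b013 b023 b123 b014 b024 b124 b034 b134 b234 b015 b025 b125 b035 b135 b235 b045 b145 b245 b345 + 45 * O := by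
  unfold twoN twoSum
  simp only [Nat.add_eq]
  push_cast
  ring

end Pool.Agent.K3h27.OP
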